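import Pool.Agent.H19.STAT.Abs
import Pool.Agent.H90.STAT.Adx
import Pool.Agent.H36.STAT.Dgb

/-!
# Systems in absolute units: algebra
-/

set_option autoImplicit false

namespace Pool.STAT

open Finset MvPolynomial
open Pool.Agent.H49.Ent Pool.Agent.H32.Dense Pool.STK Pool.KS3
open Pool.BFL (Pl CB Pb P2 MC alt)

/-! ### The change of coordinates -/

section Alf

variable {w₀ j : ℕ} {γ : ℕ → ℕ} {Φ Ψ : ℕ → PN}

theorem alf_eq (hΦ : TriN Φ) (i : ℕ) : alf w₀ j γ Φ i =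
    if i = 0 then C ((j : ℝ) / 2 ^ w₀) + C (1 / (2 : ℝ) ^ w₀) * X 0
      else bind₁ (alf w₀ j γ Φ) (Φ i) + C (1 / (2 : ℝ) ^ γ i) * X i := by
  refine AdxRow.fixm_eq (S := fun α i => if i = 0 then C ((j : ℝ) / 2 ^ w₀) +
    C (1 / (2 : ℝ) ^ w₀) * X 0 else bind₁ α (Φ i) + C (1 / (2 : ℝ) ^ γ i) * X i)
    (fun i f f' h => ?_) i
  split_ifs with hi
  · rfl
  · rw [AdxRow.bnd_congr fun k hk => h k (mem_range.1 (hΦ i hk))]

theorem alf_zero (hΦ : TriN Φ) : alf w₀ j γ Φ 0 =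
    C ((j : ℝ) / 2 ^ w₀) + C (1 / (2 : ℝ) ^ w₀) * X 0 := by
  rw [alf_eq hΦ, if_pos rfl]

theorem alf_pos (hΦ : TriN Φ) {i : ℕ} (hi : i ≠ 0) : alf w₀ j γ Φ i =
    bind₁ (alf w₀ j γ Φ) (Φ i) + C (1 / (2 : ℝ) ^ γ i) * X i := by
  rw [alf_eq hΦ, if_neg hi]

theorem alf_vars (hΦ : TriN Φ) (i : ℕ) : (alf w₀ j γ Φ i).vars ⊆ range (i + 1) := by
  induction i using Nat.strong_induction_on with
  | _ i ih =>
    rw [alf_eq hΦ]
    split_ifs with hi
    · subst hi
      exact AdxRow.vars_add_le (AdxRow.vars_C_le _)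
        (AdxRow.vars_mul_le (AdxRow.vars_C_le _) (AdxRow.vars_X_le (by omega)))
    · refine AdxRow.vars_add_le (AdxRow.vars_bnd (hΦ i) fun k hk => (ih k hk).trans
        (range_subset_range.2 (by omega)))
        (AdxRow.vars_mul_le (AdxRow.vars_C_le _) (AdxRow.vars_X_le (by omega)))

theorem alf_deg {K : ℕ} (hΦ : TriN Φ) (hK : ∀ i, (Φ i).totalDegree ≤ K) (i : ℕ) :
    (alf w₀ j γ Φ i).totalDegree ≤ (K + 1) ^ (i + 1) := by
  have hX : ∀ (a : ℝ) (i : ℕ), (C a * X i : PN).totalDegree ≤ 1 := fun a i => by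
    refine (totalDegree_mul _ _).trans ?_
    rw [totalDegree_C, totalDegree_X]
  induction i using Nat.strong_induction_on with
  | _ i ih =>
    have h1 : 1 ≤ (K + 1) ^ (i + 1) := Nat.one_le_pow _ _ (by omega)
    rw [alf_eq hΦ]
    split_ifs with hi
    · refine (totalDegree_add _ _).trans (max_le ?_ ((hX _ _).trans h1))
      rw [totalDegree_C]
      exact Nat.zero_le _
    · refine (totalDegree_add _ _).trans (max_le ?_ ((hX _ _).trans h1))
      refine (Dgb.deg_bind (B := (K + 1) ^ i) fun k hk => ?_).trans ?_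
      · have hk' := mem_range.1 (hΦ i hk)
        exact (ih k hk').trans (Nat.pow_le_pow_right (by omega) (by omega))
      · rw [pow_succ, Nat.mul_comm ((K + 1) ^ i)]
        exact Nat.mul_le_mul_right _ ((hK i).trans (Nat.le_succ K))

/-- `alf` inverts `ali`. -/
theorem alf_ali (hΦ : TriN Φ) (b : ℕ → ℝ) (i : ℕ) :
    eval (fun l => eval b (ali w₀ j γ Φ l)) (alf w₀ j γ Φ i) = b i := by
  induction i using Nat.strong_induction_on with
  | _ i ih =>
    rw [alf_eq hΦ]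
    split_ifs with hi
    · subst hi
      have h1 : eval b (ali w₀ j γ Φ 0) = 2 ^ w₀ * b 0 - j := by
        unfold ali
        rw [if_pos rfl, map_sub, map_mul, eval_C, eval_X, eval_C]
      rw [map_add, map_mul, eval_C, eval_C, eval_X, h1]
      field_simp
      ring
    · have h1 : eval b (ali w₀ j γ Φ i) = 2 ^ γ i * (b i - eval b (Φ i)) := by
        unfold ali
        rw [if_neg hi, map_mul, map_sub, eval_C, eval_X]
      rw [map_add, map_mul, eval_C, eval_X, h1, AdxRow.evl_bnd]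
      rw [AdxRow.evl_congr (P := Φ i) (g := b) fun k hk => ih k (mem_range.1 (hΦ i hk))]
      field_simp
      ring

/-- `ali` inverts `alf`. -/
theorem ali_alf (hΦ : TriN Φ) (b : ℕ → ℝ) (i : ℕ) :
    eval (fun l => eval b (alf w₀ j γ Φ l)) (ali w₀ j γ Φ i) = b i := by
  unfold ali
  split_ifs with hi
  · subst hi
    rw [map_sub, map_mul, eval_C, eval_C, eval_X, alf_zero hΦ, map_add, map_mul, eval_C, eval_C,
      eval_X]
    field_simp
    ring
  · rw [map_mul, map_sub, eval_C, eval_X, alf_pos hΦ hi, map_add, map_mul, eval_C, eval_X,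
      AdxRow.evl_bnd]
    field_simp
    ring

theorem ali_vars (hΦ : TriN Φ) (i : ℕ) : (ali w₀ j γ Φ i).vars ⊆ range (i + 1) := by
  unfold ali
  split_ifs with hi
  · subst hi
    exact AdxRow.vars_sub_le (AdxRow.vars_mul_le (AdxRow.vars_C_le _)
      (AdxRow.vars_X_le (by omega))) (AdxRow.vars_C_le _)
  · exact AdxRow.vars_mul_le (AdxRow.vars_C_le _) (AdxRow.vars_sub_le
      (AdxRow.vars_X_le (by omega)) ((hΦ i).trans (range_subset_range.2 (by omega))))

theorem ali_deg {K : ℕ} (hK : ∀ i, (Φ i).totalDegree ≤ K) (i : ℕ) :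
    (ali w₀ j γ Φ i).totalDegree ≤ K + 1 := by
  unfold ali
  split_ifs with hi
  · refine (totalDegree_sub _ _).trans (max_le ?_ ?_)
    · refine (totalDegree_mul _ _).trans ?_
      rw [totalDegree_C, totalDegree_X]
      omega
    · rw [totalDegree_C]
      exact Nat.zero_le _
  · refine (totalDegree_mul _ _).trans ?_
    rw [totalDegree_C, zero_add]
    refine (totalDegree_sub _ _).trans (max_le ?_ ((hK i).trans (by omega)))
    rw [totalDegree_X]
    omega

/-- The value of the rescaled system, at the point with the absolute coordinates `b`. -/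
theorem eval_rsc (hΨ : TriN Ψ) {b' b : ℕ → ℝ} {i : ℕ}
    (hb : ∀ l < i, eval b' (alf w₀ j γ Φ l) = b l) (hΦ : TriN Φ) :
    eval b' (rsc w₀ j γ Φ Ψ i) =
      if i = 0 then 2 ^ w₀ * eval b (Ψ 0) - j
        else 2 ^ γ i * (eval b (Ψ i) - eval b (Φ i)) := by
  unfold rsc
  split_ifs with hi
  · rw [map_sub, map_mul, eval_C, eval_C]
    congr 2
    refine AdxRow.evl_congr fun k hk => ?_
    exact absurd (mem_range.1 (hΨ 0 hk)) (Nat.not_lt_zero _)
  · rw [map_mul, eval_C, AdxRow.evl_bnd, map_sub]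
    rw [AdxRow.evl_congr (P := Ψ i) (g := b) fun k hk => hb k (mem_range.1 (hΨ i hk)),
      AdxRow.evl_congr (P := Φ i) (g := b) fun k hk => hb k (mem_range.1 (hΦ i hk))]

theorem rsc_vars (hΦ : TriN Φ) (hΨ : TriN Ψ) (i : ℕ) : (rsc w₀ j γ Φ Ψ i).vars ⊆ range i := by
  unfold rsc
  split_ifs with hi
  · subst hi
    exact AdxRow.vars_sub_le (AdxRow.vars_mul_le (AdxRow.vars_C_le _) (hΨ 0))
      (AdxRow.vars_C_le _)
  · exact AdxRow.vars_mul_le (AdxRow.vars_C_le _) (AdxRow.vars_bnd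
      (AdxRow.vars_sub_le (hΨ i) (hΦ i)) fun k hk => (alf_vars hΦ k).trans
        (range_subset_range.2 (by omega)))

theorem rsc_deg {K : ℕ} (hΦ : TriN Φ) (hΨ : TriN Ψ) (hK : ∀ i, (Φ i).totalDegree ≤ K)
    (hK' : ∀ i, (Ψ i).totalDegree ≤ K) (i : ℕ) :
    (rsc w₀ j γ Φ Ψ i).totalDegree ≤ (K + 1) ^ (i + 2) := by
  have h1 : K ≤ (K + 1) ^ (i + 2) := by
    calc K ≤ (K + 1) ^ 1 := by rw [pow_one]; omega
      _ ≤ _ := Nat.pow_le_pow_right (by omega) (by omega)
  unfold rsc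
  split_ifs with hi
  · refine (totalDegree_sub _ _).trans (max_le ?_ ?_)
    · refine (totalDegree_mul _ _).trans ?_
      rw [totalDegree_C, zero_add]
      exact (hK' 0).trans h1
    · rw [totalDegree_C]
      exact Nat.zero_le _
  · refine (totalDegree_mul _ _).trans ?_
    rw [totalDegree_C, zero_add]
    refine (Dgb.deg_bind (B := (K + 1) ^ (i + 1)) fun k hk => ?_).trans ?_
    · have hk' := mem_range.1 (AdxRow.vars_sub_le (hΨ i) (hΦ i) hk)
      exact (alf_deg hΦ hK k).trans (Nat.pow_le_pow_right (by omega) (by omega))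
    · have h2 : (Ψ i - Φ i).totalDegree ≤ K :=
        (totalDegree_sub _ _).trans (max_le (hK' i) (hK i))
      calc (Ψ i - Φ i).totalDegree * (K + 1) ^ (i + 1) ≤ (K + 1) * (K + 1) ^ (i + 1) :=
            Nat.mul_le_mul_right _ (h2.trans (Nat.le_succ K))
        _ = (K + 1) ^ (i + 2) := by ring

theorem rsc_self {i : ℕ} (hi : i ≠ 0) : rsc w₀ j γ Φ Φ i = 0 := by
  unfold rsc
  rw [if_neg hi, sub_self, map_zero, mul_zero]

end Alf

/-! ### Determined variables -/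

theorem det_fun {Ω S T : Type} [Nonempty T] {p : Ω → ℝ} [Fintype Ω] {X : Ω → S} {Y : Ω → T}
    (h : Det p X Y) : ∃ f : S → T, ∀ ω, 0 < p ω → f (X ω) = Y ω := by
  classical
  refine ⟨fun s => if hs : ∃ ω, 0 < p ω ∧ X ω = s then Y hs.choose else Classical.arbitrary T,
    fun ω hω => ?_⟩
  have hs : ∃ ω', 0 < p ω' ∧ X ω' = X ω := ⟨ω, hω, rfl⟩
  change (if hs : ∃ ω', 0 < p ω' ∧ X ω' = X ω then Y hs.choose else Classical.arbitrary T) = Y ω
  rw [dif_pos hs]
  exact h _ _ hs.choose_spec.1 hω hs.choose_spec.2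

theorem CH_congr' {Ω S S' T T' : Type} [Fintype Ω] {p : Ω → ℝ} (hp : ∀ ω, 0 ≤ p ω) {X : Ω → S}
    {X' : Ω → S'} {Z : Ω → T} {Z' : Ω → T'} (hZ : Det p Z Z') (hZ' : Det p Z' Z)
    (h : Det p (fun ω => (X ω, Z ω)) X') (h' : Det p (fun ω => (X' ω, Z' ω)) X) :
    CH p X Z = CH p X' Z' := by
  unfold CH
  rw [H_congr hp hZ hZ']
  congr 1
  refine H_congr hp ?_ ?_
  · intro ω ω' hω hω' e
    exact Prod.ext (h' ω ω' hω hω' e) (hZ' ω ω' hω hω' (congrArg Prod.snd e))
  · intro ω ω' hω hω' e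
    exact Prod.ext (h ω ω' hω hω' e) (hZ ω ω' hω hω' (congrArg Prod.snd e))

theorem P2_le_of {Ω S S' : Type} [Fintype Ω] {p : Ω → ℝ} (hp : ∀ ω, 0 ≤ p ω) {g : Ω → S}
    {g' : Ω → S'} {A A' : Ω → Ω → Prop} (h : Det p g g') (h' : Det p g' g)
    (hA : ∀ ω ω', 0 < p ω → 0 < p ω' → g ω = g ω' → A ω ω' → A' ω ω') :
    P2 p g A ≤ P2 p g' A' := by
  classical
  have hlaw : ∀ ω, 0 < p ω → law p g (g ω) = law p g' (g' ω) := by
    intro ω hω
    unfold law
    refine Finset.sum_congr rfl fun ω' _ => ?_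
    rcases (hp ω').lt_or_eq with h1 | h1
    · by_cases h2 : g ω' = g ω
      · rw [if_pos h2, if_pos (h ω' ω h1 hω h2)]
      · rw [if_neg h2, if_neg fun h3 => h2 (h' ω' ω h1 hω h3)]
    · rw [← h1, ite_self, ite_self]
  unfold P2
  refine Finset.sum_le_sum fun ω _ => Finset.sum_le_sum fun ω' _ => ?_
  have hnn : 0 ≤ p ω * p ω' / law p g' (g' ω) :=
    div_nonneg (mul_nonneg (hp ω) (hp ω')) (law_nonneg hp g' _)
  by_cases h0 : 0 < p ω ∧ 0 < p ω'
  · by_cases h1 : g ω = g ω' ∧ A ω ω'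
    · rw [if_pos h1, if_pos ⟨h ω ω' h0.1 h0.2 h1.1, hA ω ω' h0.1 h0.2 h1.1 h1.2⟩, hlaw ω h0.1]
    · rw [if_neg h1]
      split_ifs
      · exact hnn
      · exact le_rfl
  · have h3 : p ω * p ω' = 0 := by
      rcases not_and_or.1 h0 with h4 | h4
      · rw [le_antisymm (not_lt.1 h4) (hp ω), zero_mul]
      · rw [le_antisymm (not_lt.1 h4) (hp ω'), mul_zero]
    rw [h3, zero_div, zero_div, ite_self, ite_self]

end Pool.STAT
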