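import Pool.Agent.H78.MIC.Cov

/-!
# The top of the local theorem

Four classes of slopes. The ratio of the coordinate `l` is `gam l / lam l`.

`CondA` no base coordinate has the ratio of the target or a larger one; `CondV` no base coordinate
has the ratio of the target; `CondT` some base coordinate has this ratio, `lam n > 1`; `CondO` some
base coordinate has this ratio, `lam n = 1`.
-/

set_option autoImplicit false

namespace Pool.STAT

/-- A base coordinate with the ratio of the target. -/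
def Tied (n : ℕ) (lam gam : ℕ → ℝ) : Prop := ∃ l, 1 ≤ l ∧ l < n ∧ gam l * lam n = gam n * lam l

/-- No equal ratio. -/
def CondV : Cond2 := fun n lam gam => ¬ Tied n lam gam

/-- Equal ratio, the weight of the target is larger than `1`. -/
def CondT : Cond2 := fun n lam gam => Tied n lam gam ∧ 1 < lam n

/-- Equal ratio, the weight of the target is `1`. -/
def CondO : Cond2 := fun n lam gam => Tied n lam gam ∧ lam n = 1

/-- `CondA` without coordinates of the weight of the target. -/
def CondA0 : Cond2 := fun n lam gam => CondA n lam gam ∧ ∀ l, 1 ≤ l → l < n → lam l ≠ lam n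

theorem condA_condV {n : ℕ} {lam gam : ℕ → ℝ} (h : CondA n lam gam) : CondV n lam gam := by
  rintro ⟨l, h1, h2, h3⟩
  have := h l h1 h2
  linarith

theorem MicWOf.mono {Q Q' : Cond2} (h : MicWOf Q)
    (hQ : ∀ n lam gam, Q' n lam gam → Q n lam gam) : MicWOf Q' :=
  fun n K A B R lam gam C₁ h₁ a0 a1 a2 a3 a4 a5 a6 a7 a8 =>
    h n K A B R lam gam C₁ h₁ a0 a1 a2 a3 a4 a5 a6 a7 (hQ _ _ _ a8)

/-- Two classes. -/
theorem MicWOf.or {Q Q' : Cond2} (h : MicWOf Q) (h' : MicWOf Q') :
    MicWOf fun n lam gam => Q n lam gam ∨ Q' n lam gam := by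
  intro n K A B R lam gam C₁ h₁ a0 a1 a2 a3 a4 a5 a6 a7 a8
  rcases a8 with a8 | a8
  · exact h n K A B R lam gam C₁ h₁ a0 a1 a2 a3 a4 a5 a6 a7 a8
  · exact h' n K A B R lam gam C₁ h₁ a0 a1 a2 a3 a4 a5 a6 a7 a8

/-- **The top**: the three cases give the local theorem for all slopes. -/
theorem micW_top (hV : MicWOf CondV) (hT : MicWOf CondT) (hO : MicWOf CondO) : MicWStmt := by
  intro n K A B R lam gam C₁ h₁ a0 a1 a2 a3 a4 a5 a6 a7 a8
  by_cases h : Tied n lam gam
  · rcases (a2 n).lt_or_eq with h2 | h2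
    · exact hT n K A B R lam gam C₁ h₁ a0 a1 a2 a3 a4 a5 a6 a7 ⟨h, h2⟩
    · exact hO n K A B R lam gam C₁ h₁ a0 a1 a2 a3 a4 a5 a6 a7 ⟨h, h2.symm⟩
  · exact hV n K A B R lam gam C₁ h₁ a0 a1 a2 a3 a4 a5 a6 a7 h

end Pool.STAT
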