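import Pool.Agent.H19.STAT.Abs2

/-!
# Row N0: systems in absolute units
-/

set_option autoImplicit false

namespace Pool.STAT

open Finset MvPolynomial
open Pool.Agent.H49.Ent Pool.Agent.H32.Dense Pool.STK Pool.KS3
open Pool.BFL (Pl CB Pb P2 MC alt)

namespace NDat

section

variable {D : NDat} {n K J w₀ z M : ℕ} {σ : ℕ → ℝ} {κ C₁ : ℝ} {q : D.Ω → ℝ}

/-- The coordinates of the window. -/
noncomputable def X' (D : NDat) (J w₀ : ℕ) (ω : D.Ω) (i : ℕ) : ℝ :=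
  if i = 0 then ((D.T ω % 2 ^ (J - w₀) : ℕ) : ℝ) / 2 ^ (J - w₀)
    else (2 : ℝ) ^ D.g 0 i * D.rh 0 ω i

theorem w_le (h : D.Ok0 n K J w₀ z M σ κ C₁ q) : w₀ ≤ J := by
  have := h.top
  omega

theorem X'_ali (h : D.Ok0 n K J w₀ z M σ κ C₁ q) (ω : D.Ω) (i : ℕ) :
    D.X' J w₀ ω i = eval (D.X ω) (ali w₀ (D.wd J w₀ ω) (D.g 0) (D.P 0 (D.c 0 ω)) i) := by
  unfold X' ali
  split_ifs with hi
  · subst hi
    rw [map_sub, map_mul, eval_C, eval_C, eval_X, h.X_zero]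
    have h1 : (2 : ℝ) ^ J = 2 ^ w₀ * 2 ^ (J - w₀) := by
      rw [← pow_add]
      congr 1
      have := w_le h
      omega
    have h2 := Nat.div_add_mod (D.T ω) (2 ^ (J - w₀))
    have h3 : (D.T ω : ℝ) = 2 ^ (J - w₀) * (D.wd J w₀ ω : ℕ) +
        ((D.T ω % 2 ^ (J - w₀) : ℕ) : ℝ) := by
      unfold wd
      exact_mod_cast h2.symm
    rw [h1, h3]
    field_simp
    ring
  · rw [map_mul, eval_C, map_sub, eval_X]
    rfl

theorem X'_alf (h : D.Ok0 n K J w₀ z M σ κ C₁ q) (ω : D.Ω) (i : ℕ) :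
    eval (D.X' J w₀ ω) (alf w₀ (D.wd J w₀ ω) (D.g 0) (D.P 0 (D.c 0 ω)) i) = D.X ω i := by
  have h1 : D.X' J w₀ ω =
      fun l => eval (D.X ω) (ali w₀ (D.wd J w₀ ω) (D.g 0) (D.P 0 (D.c 0 ω)) l) :=
    funext fun l => X'_ali h ω l
  rw [h1]
  exact alf_ali (h.P_tri 0 _) (D.X ω) i

/-- The heights in the units of the window. -/
theorem rh_nrmd (h : D.Ok0 n K J w₀ z M σ κ C₁ q) (φ : D.Λ → D.Γ) (ψ : D.Λ → ℕ) (k : ℕ)
    (ω : D.Ω) {i : ℕ} (hi : i ≤ n) :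
    (D.nrmd n J w₀ φ ψ).rh k ω i = (2 : ℝ) ^ D.g 0 i * D.rh k ω i := by
  have e1 : (D.nrmd n J w₀ φ ψ).rh k ω i = D.X' J w₀ ω i -
      eval (D.X' J w₀ ω) (rsc w₀ (D.wd J w₀ ω) (D.g 0) (D.P 0 (D.c 0 ω))
        (D.P k (D.c k ω)) i) := by
    change (D.nrmd n J w₀ φ ψ).X ω i - eval ((D.nrmd n J w₀ φ ψ).X ω)
      ((D.nrmd n J w₀ φ ψ).P k ((D.nrmd n J w₀ φ ψ).c k ω) i) = _
    have e2 : (D.nrmd n J w₀ φ ψ).P k ((D.nrmd n J w₀ φ ψ).c k ω) i =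
        rsc w₀ (D.wd J w₀ ω) (D.g 0) (D.P 0 (D.c 0 ω)) (D.P k (D.c k ω)) i := by
      change (if n < i then 0 else _) = _
      rw [if_neg (not_lt.2 hi)]
      by_cases hk : k = 0
      · subst hk
        rfl
      · change rsc w₀ _ (D.g 0) (D.P 0 (if k = 0 then D.c k ω else D.c 0 ω)) _ i = _
        rw [if_neg hk]
        rfl
    rw [e2]
    rfl
  rw [e1, eval_rsc (h.P_tri k _) (b := D.X ω) (fun l _ => X'_alf h ω l) (h.P_tri 0 _)]
  split_ifs with h0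
  · subst h0
    rw [X'_ali h]
    unfold ali rh
    rw [if_pos rfl, map_sub, map_mul, eval_C, eval_C, eval_X, h.g_zero]
    ring
  · rw [X'_ali h]
    unfold ali rh
    rw [if_neg h0, map_mul, map_sub, eval_C, eval_X]
    ring

theorem T_div' (h : D.Ok0 n K J w₀ z M σ κ C₁ q) {k : ℕ} (hk : k ≤ M) (ω : D.Ω) :
    D.T ω / 2 ^ (J - (w₀ + k * z)) =
      2 ^ (k * z) * D.wd J w₀ ω + (D.T ω % 2 ^ (J - w₀)) / 2 ^ (J - w₀ - k * z) := by
  have h1 := h.top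
  have h2 : k * z ≤ (M + 1) * z := Nat.mul_le_mul_right z (by omega)
  have h3 : 2 ^ (J - w₀) = 2 ^ (J - w₀ - k * z) * 2 ^ (k * z) := by
    rw [← pow_add]
    congr 1
    omega
  have h4 : J - (w₀ + k * z) = J - w₀ - k * z := by omega
  have h5 := Nat.div_add_mod (D.T ω) (2 ^ (J - w₀))
  rw [h4]
  conv_lhs => rw [← h5]
  unfold wd
  rw [h3, mul_assoc, Nat.mul_add_div (by positivity)]

theorem wn_wn (h : D.Ok0 n K J w₀ z M σ κ C₁ q) (φ : D.Λ → D.Γ) (ψ : D.Λ → ℕ) {k : ℕ}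
    (hk : k ≤ M) : Det q ((D.nrmd n J w₀ φ ψ).wn (J - w₀) (k * z)) (D.wn J (w₀ + k * z)) := by
  intro ω ω' hω hω' e
  have e1 : D.ln ω = D.ln ω' := congrArg Prod.fst e
  have e2 : (D.T ω % 2 ^ (J - w₀)) / 2 ^ (J - w₀ - k * z) =
      (D.T ω' % 2 ^ (J - w₀)) / 2 ^ (J - w₀ - k * z) := congrArg Prod.snd e
  have e3 : D.wd J w₀ ω = D.wd J w₀ ω' := h.ln_w ω ω' hω hω' e1
  refine Prod.ext e1 ?_
  change D.T ω / 2 ^ (J - (w₀ + k * z)) = D.T ω' / 2 ^ (J - (w₀ + k * z))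
  rw [T_div' h hk, T_div' h hk, e2, e3]

theorem wn_wn' (h : D.Ok0 n K J w₀ z M σ κ C₁ q) (φ : D.Λ → D.Γ) (ψ : D.Λ → ℕ) {k : ℕ}
    (hk : k ≤ M) : Det q (D.wn J (w₀ + k * z)) ((D.nrmd n J w₀ φ ψ).wn (J - w₀) (k * z)) := by
  intro ω ω' hω hω' e
  have e1 : D.ln ω = D.ln ω' := congrArg Prod.fst e
  have e2 : D.T ω / 2 ^ (J - (w₀ + k * z)) = D.T ω' / 2 ^ (J - (w₀ + k * z)) :=
    congrArg Prod.snd e
  have e3 : D.wd J w₀ ω = D.wd J w₀ ω' := h.ln_w ω ω' hω hω' e1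
  refine Prod.ext e1 ?_
  change (D.T ω % 2 ^ (J - w₀)) / 2 ^ (J - w₀ - k * z) =
    (D.T ω' % 2 ^ (J - w₀)) / 2 ^ (J - w₀ - k * z)
  rw [T_div' h hk, T_div' h hk, e3] at e2
  omega

theorem c_c0 (h : D.Ok0 n K J w₀ z M σ κ C₁ q) {k : ℕ} (hk : k ≤ M) :
    Det q (D.c k) (D.c 0) := by
  induction k with
  | zero => exact fun _ _ _ _ e => e
  | succ k ih =>
    intro ω ω' hω hω' e
    exact ih (by omega) ω ω' hω hω' (h.c_c k (by omega) ω ω' hω hω' e)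

theorem c_wd (h : D.Ok0 n K J w₀ z M σ κ C₁ q) : Det q (D.c 0) (D.wd J w₀) := by
  intro ω ω' hω hω' e
  have := h.c_T 0 (Nat.zero_le _) ω ω' hω hω' e
  simpa [wd] using this

theorem c_c' (h : D.Ok0 n K J w₀ z M σ κ C₁ q) (φ : D.Λ → D.Γ) (ψ : D.Λ → ℕ) {k : ℕ}
    (hk : k ≤ M) : Det q (D.c k) ((D.nrmd n J w₀ φ ψ).c k) := by
  intro ω ω' hω hω' e
  have e1 := c_c0 h hk ω ω' hω hω' e
  exact Prod.ext e (Prod.ext e1 (c_wd h ω ω' hω hω' e1))

theorem c_c'' (φ : D.Λ → D.Γ) (ψ : D.Λ → ℕ) (k : ℕ) :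
    Det q ((D.nrmd n J w₀ φ ψ).c k) (D.c k) := by
  intro ω ω' _ _ e
  exact congrArg Prod.fst e

theorem bx_alf (h : D.Ok0 n K J w₀ z M σ κ C₁ q) (φ : D.Λ → D.Γ) (ψ : D.Λ → ℕ) {k i : ℕ}
    (hk : k ≤ M) (hi : i ≤ n + 1) (ω : D.Ω) {b b' : ℕ → ℝ}
    (hb : ∀ l < i, b' l = eval b (ali w₀ (D.wd J w₀ ω) (D.g 0) (D.P 0 (D.c 0 ω)) l)) :
    Bx ((D.nrmd n J w₀ φ ψ).g k) ((D.nrmd n J w₀ φ ψ).P k ((D.nrmd n J w₀ φ ψ).c k ω)) i b' ↔
      Bx (D.g k) (D.P k (D.c k ω)) i b := by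
  have key : ∀ l < i, |b' l - eval b' ((D.nrmd n J w₀ φ ψ).P k
      ((D.nrmd n J w₀ φ ψ).c k ω) l)| = 2 ^ D.g 0 l * |b l - eval b (D.P k (D.c k ω) l)| := by
    intro l hl
    have e2 : (D.nrmd n J w₀ φ ψ).P k ((D.nrmd n J w₀ φ ψ).c k ω) l =
        rsc w₀ (D.wd J w₀ ω) (D.g 0) (D.P 0 (D.c 0 ω)) (D.P k (D.c k ω)) l := by
      change (if n < l then 0 else _) = _
      rw [if_neg (by omega)]
      by_cases hk0 : k = 0
      · subst hk0
        rfl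
      · change rsc w₀ _ (D.g 0) (D.P 0 (if k = 0 then D.c k ω else D.c 0 ω)) _ l = _
        rw [if_neg hk0]
        rfl
    have e3 : ∀ l' < l, eval b' (alf w₀ (D.wd J w₀ ω) (D.g 0) (D.P 0 (D.c 0 ω)) l') =
        b l' := by
      intro l' hl'
      rw [← alf_ali (w₀ := w₀) (j := D.wd J w₀ ω) (γ := D.g 0) (h.P_tri 0 (D.c 0 ω)) b l']
      refine AdxRow.evl_congr fun k' hk' => ?_
      have := mem_range.1 (alf_vars (h.P_tri 0 (D.c 0 ω)) l' hk')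
      exact hb k' (by omega)
    rw [e2, eval_rsc (h.P_tri k _) e3 (h.P_tri 0 _), hb l hl]
    unfold ali
    split_ifs with h0
    · subst h0
      rw [map_sub, map_mul, eval_C, eval_C, eval_X, h.g_zero, ← abs_of_pos (show (0 : ℝ) <
        2 ^ w₀ by positivity), ← abs_mul, abs_of_pos (show (0 : ℝ) < 2 ^ w₀ by positivity)]
      congr 1
      ring
    · rw [map_mul, map_sub, eval_C, eval_X, ← abs_of_pos (show (0 : ℝ) <
        2 ^ D.g 0 l by positivity), ← abs_mul, abs_of_pos (show (0 : ℝ) < 2 ^ D.g 0 l by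
        positivity)]
      congr 1
      ring
  have hg : ∀ l, (1 : ℝ) / 2 ^ (D.nrmd n J w₀ φ ψ).g k l = 2 ^ D.g 0 l * (1 / 2 ^ D.g k l) := by
    intro l
    change (1 : ℝ) / 2 ^ (D.g k l - D.g 0 l) = _
    have h1 := h.g_ge k hk l
    have h2 : (2 : ℝ) ^ D.g k l = 2 ^ (D.g k l - D.g 0 l) * 2 ^ D.g 0 l := by
      rw [← pow_add]
      congr 1
      omega
    rw [h2]
    field_simp
  unfold Bx
  constructor
  · intro h1 l hl
    have h2 := h1 l hl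
    rw [key l hl, hg l] at h2
    exact le_of_mul_le_mul_left h2 (by positivity)
  · intro h1 l hl
    rw [key l hl, hg l]
    exact mul_le_mul_of_nonneg_left (h1 l hl) (by positivity)

/-- **The system in the units of the window.** -/
theorem ok_nrmd (h : D.Ok0 n K J w₀ z M σ κ C₁ q) (φ : D.Λ → D.Γ) (ψ : D.Λ → ℕ)
    (hφ : ∀ ω, 0 < q ω → φ (D.ln ω) = D.c 0 ω)
    (hψ : ∀ ω, 0 < q ω → ψ (D.ln ω) = D.wd J w₀ ω) :
    (D.nrmd n J w₀ φ ψ).Ok n ((K + 1) ^ (n + 2)) (J - w₀) z M σ κ C₁ q := by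
  have hq := h.isLaw.nonneg
  have hwJ := w_le h
  have htop := h.top
  refine
  { isLaw := h.isLaw
    top := by omega
    T_lt := fun ω => Nat.mod_lt _ (by positivity)
    X_zero := fun ω => by
      change D.X' J w₀ ω 0 = _
      unfold X'
      rw [if_pos rfl]
      rfl
    time := ?_
    c_wn := ?_
    c_c := ?_
    c_T := ?_
    P_deg := ?_
    P_tri := ?_
    P_zero := ?_
    R_deg := ?_
    R_tri := ?_
    σ_zero := h.σ_zero
    σ_ge := h.σ_ge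
    hom := ?_
    hgt := ?_
    line := ?_
    full := ?_ }
  · -- time
    refine h.time.trans (le_of_eq ?_)
    refine CH_congr' hq (fun _ _ _ _ e => e) (fun _ _ _ _ e => e) ?_ ?_
    · intro ω ω' _ _ e
      have e1 : D.T ω = D.T ω' := congrArg Prod.fst e
      change D.T ω % _ = D.T ω' % _
      rw [e1]
    · intro ω ω' hω hω' e
      have e1 : D.T ω % 2 ^ (J - w₀) = D.T ω' % 2 ^ (J - w₀) := congrArg Prod.fst e
      have e2 : D.ln ω = D.ln ω' := congrArg Prod.snd e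
      have e3 : D.T ω / 2 ^ (J - w₀) = D.T ω' / 2 ^ (J - w₀) := h.ln_w ω ω' hω hω' e2
      rw [← Nat.div_add_mod (D.T ω) (2 ^ (J - w₀)), ← Nat.div_add_mod (D.T ω') (2 ^ (J - w₀)),
        e1, e3]
  · intro k hk ω ω' hω hω' e
    exact c_c' h φ ψ hk ω ω' hω hω' (h.c_wn k hk ω ω' hω hω' (wn_wn h φ ψ hk ω ω' hω hω' e))
  · intro k hk ω ω' hω hω' e
    exact c_c' h φ ψ hk.le ω ω' hω hω' (h.c_c k hk ω ω' hω hω' (congrArg Prod.fst e))
  · intro k hk ω ω' hω hω' e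
    have e1 : D.c k ω = D.c k ω' := congrArg Prod.fst e
    have e3 : D.wd J w₀ ω = D.wd J w₀ ω' := congrArg (fun x => x.2.2) e
    have e2 : D.T ω / 2 ^ (J - (w₀ + k * z)) = D.T ω' / 2 ^ (J - (w₀ + k * z)) :=
      h.c_T k hk ω ω' hω hω' e1
    change (D.T ω % 2 ^ (J - w₀)) / 2 ^ (J - w₀ - k * z) =
      (D.T ω' % 2 ^ (J - w₀)) / 2 ^ (J - w₀ - k * z)
    rw [T_div' h hk, T_div' h hk, e3] at e2
    omega
  · intro k x i
    change (if n < i then (0 : PN) else _).totalDegree ≤ _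
    by_cases hi : n < i
    · rw [if_pos hi, totalDegree_zero]
      exact Nat.zero_le _
    · rw [if_neg hi]
      exact (rsc_deg (h.P_tri 0 _) (h.P_tri k _) (h.P_deg 0 _) (h.P_deg k _) i).trans
        (Nat.pow_le_pow_right (by omega) (by omega))
  · intro k x i
    change (if n < i then (0 : PN) else _).vars ⊆ _
    by_cases hi : n < i
    · rw [if_pos hi, vars_0]
      exact Finset.empty_subset _
    · rw [if_neg hi]
      exact rsc_vars (h.P_tri 0 _) (h.P_tri k _) i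
  · intro x i hi
    change (if n < i then (0 : PN) else _) = 0
    by_cases hin : n < i
    · rw [if_pos hin]
    · rw [if_neg hin, if_pos rfl]
      exact rsc_self (by omega)
  · intro l i
    change (if n < i then (0 : PN) else _).totalDegree ≤ _
    by_cases hi : n < i
    · rw [if_pos hi, totalDegree_zero]
      exact Nat.zero_le _
    · rw [if_neg hi]
      exact (rsc_deg (h.P_tri 0 _) (h.R_tri l) (h.P_deg 0 _) (h.R_deg l) i).trans
        (Nat.pow_le_pow_right (by omega) (by omega))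
  · intro l i
    change (if n < i then (0 : PN) else _).vars ⊆ _
    by_cases hi : n < i
    · rw [if_pos hi, vars_0]
      exact Finset.empty_subset _
    · rw [if_neg hi]
      exact rsc_vars (h.P_tri 0 _) (h.R_tri l) i
  · intro k hk i hi
    have h1 := h.hom k hk i hi
    change |((D.g k i - D.g 0 i : ℕ) : ℝ) - σ i * (k * z)| ≤ C₁ * z
    rw [Nat.cast_sub (h.g_ge k hk i)]
    exact h1
  · intro k hk ω hω i hi
    rw [rh_nrmd h φ ψ k ω hi, abs_mul, abs_of_pos (by positivity)]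
    have h1 := h.hgt k hk ω hω i hi
    change 2 ^ D.g 0 i * |D.rh k ω i| ≤ 1 / 2 ^ (D.g k i - D.g 0 i)
    have h2 : (2 : ℝ) ^ D.g k i = 2 ^ (D.g k i - D.g 0 i) * 2 ^ D.g 0 i := by
      rw [← pow_add]
      congr 1
      have := h.g_ge k hk i
      omega
    rw [h2] at h1
    calc 2 ^ D.g 0 i * |D.rh k ω i| ≤
        2 ^ D.g 0 i * (1 / (2 ^ (D.g k i - D.g 0 i) * 2 ^ D.g 0 i)) :=
          mul_le_mul_of_nonneg_left h1 (by positivity)
      _ = _ := by field_simp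
  · -- line
    intro ω hω i hi hin b' hb'
    set Φ := D.P 0 (D.c 0 ω) with hΦ
    set b : ℕ → ℝ := fun l => eval b' (alf w₀ (D.wd J w₀ ω) (D.g 0) Φ l) with hb
    have hbb : ∀ l < i, b' l = eval b (ali w₀ (D.wd J w₀ ω) (D.g 0) (D.P 0 (D.c 0 ω)) l) :=
      fun l _ => (ali_alf (h.P_tri 0 _) b' l).symm
    have hB := (bx_alf h φ ψ le_rfl (by omega) ω hbb).1 hb'
    have h1 := h.line ω hω i hi hin b hB
    have e1 : (D.nrmd n J w₀ φ ψ).R ((D.nrmd n J w₀ φ ψ).ln ω) i =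
        rsc w₀ (D.wd J w₀ ω) (D.g 0) Φ (D.R (D.ln ω)) i := by
      change (if n < i then 0 else rsc w₀ (ψ (D.ln ω)) (D.g 0) (D.P 0 (φ (D.ln ω)))
        (D.R (D.ln ω)) i) = _
      rw [if_neg (by omega), hφ ω hω, hψ ω hω]
    have e2 : (D.nrmd n J w₀ φ ψ).P M ((D.nrmd n J w₀ φ ψ).c M ω) i =
        rsc w₀ (D.wd J w₀ ω) (D.g 0) Φ (D.P M (D.c M ω)) i := by
      change (if n < i then 0 else _) = _
      rw [if_neg (by omega)]
      by_cases hk0 : M = 0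
      · subst hk0
        rfl
      · change rsc w₀ _ (D.g 0) (D.P 0 (if M = 0 then D.c M ω else D.c 0 ω)) _ i = _
        rw [if_neg hk0]
        rfl
    have e3 : ∀ l < i, eval b' (alf w₀ (D.wd J w₀ ω) (D.g 0) Φ l) = b l := fun _ _ => rfl
    rw [e1, e2, eval_rsc (h.R_tri _) e3 (h.P_tri 0 _), eval_rsc (h.P_tri M _) e3 (h.P_tri 0 _),
      if_neg (by omega), if_neg (by omega)]
    have e4 : 2 ^ D.g 0 i * (eval b (D.R (D.ln ω) i) - eval b (Φ i)) -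
        2 ^ D.g 0 i * (eval b (D.P M (D.c M ω) i) - eval b (Φ i)) =
        2 ^ D.g 0 i * (eval b (D.R (D.ln ω) i) - eval b (D.P M (D.c M ω) i)) := by ring
    rw [e4, abs_mul, abs_of_pos (by positivity)]
    change _ ≤ Real.exp (C₁ * z) / 2 ^ (D.g M i - D.g 0 i)
    have h2 : (2 : ℝ) ^ D.g M i = 2 ^ (D.g M i - D.g 0 i) * 2 ^ D.g 0 i := by
      rw [← pow_add]
      congr 1
      have := h.g_ge M le_rfl i
      omega
    rw [h2] at h1
    calc _ ≤ 2 ^ D.g 0 i * (Real.exp (C₁ * z) / (2 ^ (D.g M i - D.g 0 i) * 2 ^ D.g 0 i)) :=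
          mul_le_mul_of_nonneg_left h1 (by positivity)
      _ = _ := by field_simp
  · -- full
    intro k hk
    refine (h.full k hk).trans (le_of_eq ?_)
    have e1 : ∀ ω, (fun i : Fin n => ⌊(2 : ℝ) ^ ((D.nrmd n J w₀ φ ψ).g k i + z) *
        (D.nrmd n J w₀ φ ψ).rh k ω i⌋) = fun i : Fin n => ⌊(2 : ℝ) ^ (D.g k i + z) *
        D.rh k ω i⌋ := by
      intro ω
      funext i
      rw [rh_nrmd h φ ψ k ω i.2.le]
      congr 1
      change (2 : ℝ) ^ (D.g k i - D.g 0 i + z) * (2 ^ D.g 0 i * D.rh k ω i) = _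
      have h2 : (2 : ℝ) ^ (D.g k i + z) = 2 ^ (D.g k i - D.g 0 i + z) * 2 ^ D.g 0 i := by
        rw [← pow_add]
        congr 1
        have := h.g_ge k hk i
        omega
      rw [h2]
      ring
    refine CH_congr' hq (c_c' h φ ψ hk) (c_c'' φ ψ k) ?_ ?_
    · intro ω ω' _ _ e
      have := congrArg Prod.fst e
      exact (e1 ω).trans (this.trans (e1 ω').symm)
    · intro ω ω' _ _ e
      have := congrArg Prod.fst e
      exact (e1 ω).symm.trans (this.trans (e1 ω'))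

/-- The way back. -/
theorem newlab_nrmd (h : D.Ok0 n K J w₀ z M σ κ C₁ q) (φ : D.Λ → D.Γ) (ψ : D.Λ → ℕ)
    {K' i v v' A : ℕ} {C₆ η' : ℝ} (hin : i ≤ n) (hi : 1 ≤ i) (hv : v ≤ v') (hv' : v' ≤ M)
    (hN : (D.nrmd n J w₀ φ ψ).NewLab (J - w₀) z i v v' A K' C₆ η' q) :
    D.NewLab0 J w₀ z i v v' A (K + K' * (K + 1)) C₆ η' q := by
  have hq := h.isLaw.nonneg
  obtain ⟨G', hdeg, hvars, hP⟩ := hN
  obtain ⟨χ, hχ⟩ := det_fun (c_wd h)
  let lift : (ℕ → D.Γ) → (ℕ → D.Γ × D.Γ × ℕ) := fun x k => (x k, x 0, χ (x 0))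
  let G : (ℕ → D.Γ) → PN := fun x => D.P 0 (x 0) i + C (1 / (2 : ℝ) ^ D.g 0 i) *
    bind₁ (ali w₀ (χ (x 0)) (D.g 0) (D.P 0 (x 0))) (G' (lift x))
  have hvM : v ≤ M := hv.trans hv'
  have hlift : ∀ ω, 0 < q ω → lift (D.cs v' ω) = (D.nrmd n J w₀ φ ψ).cs v' ω := by
    intro ω hω
    funext k
    have e0 : D.cs v' ω 0 = D.c 0 ω := cs_of_le (Nat.zero_le _) ω
    change (D.cs v' ω k, D.cs v' ω 0, χ (D.cs v' ω 0)) =
      (D.c (min k v') ω, D.c 0 ω, D.wd J w₀ ω)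
    rw [e0, hχ ω hω]
    rfl
  -- the value of `G`
  have hG : ∀ ω, 0 < q ω → ∀ b : ℕ → ℝ, eval b (G (D.cs v' ω)) =
      eval b (D.P 0 (D.c 0 ω) i) + 1 / 2 ^ D.g 0 i *
        eval (fun l => eval b (ali w₀ (D.wd J w₀ ω) (D.g 0) (D.P 0 (D.c 0 ω)) l))
          (G' ((D.nrmd n J w₀ φ ψ).cs v' ω)) := by
    intro ω hω b
    have e0 : D.cs v' ω 0 = D.c 0 ω := cs_of_le (Nat.zero_le _) ω
    change eval b (D.P 0 (D.cs v' ω 0) i + C (1 / (2 : ℝ) ^ D.g 0 i) *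
      bind₁ (ali w₀ (χ (D.cs v' ω 0)) (D.g 0) (D.P 0 (D.cs v' ω 0))) (G' (lift (D.cs v' ω)))) = _
    rw [hlift ω hω, e0, hχ ω hω, map_add, map_mul, eval_C, AdxRow.evl_bnd]
  have hprec : ∀ m : ℕ, (1 : ℝ) / 2 ^ D.g 0 i * (1 / 2 ^ (D.g v i - D.g 0 i + m)) =
      1 / 2 ^ (D.g v i + m) := by
    intro m
    have h2 : (2 : ℝ) ^ (D.g v i + m) = 2 ^ D.g 0 i * 2 ^ (D.g v i - D.g 0 i + m) := by
      rw [← pow_add]
      congr 1
      have := h.g_ge v hvM i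
      omega
    rw [h2]
    field_simp
  refine ⟨G, fun x => ?_, fun x => ?_, hP.trans ?_⟩
  · refine (totalDegree_add _ _).trans (max_le ((h.P_deg 0 _ i).trans (Nat.le_add_right _ _)) ?_)
    refine (totalDegree_mul _ _).trans ?_
    rw [totalDegree_C, zero_add]
    refine (Dgb.deg_bind (B := K + 1) fun k _ => ali_deg (h.P_deg 0 _) k).trans ?_
    exact (Nat.mul_le_mul_right _ (hdeg _)).trans (Nat.le_add_left _ _)
  · refine AdxRow.vars_add_le (h.P_tri 0 _ i) (AdxRow.vars_mul_le (AdxRow.vars_C_le _) ?_)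
    exact AdxRow.vars_bnd (hvars _) fun k hk => (ali_vars (h.P_tri 0 _) k).trans
      (range_subset_range.2 (by omega))
  · refine P2_le_of hq (wn_wn h φ ψ hvM) (wn_wn' h φ ψ hvM) ?_
    intro ω ω' hω hω' hg hA
    have hwn := wn_wn h φ ψ hvM ω ω' hω hω' hg
    have hln : D.ln ω = D.ln ω' := congrArg Prod.fst hwn
    have hwd : D.wd J w₀ ω = D.wd J w₀ ω' := h.ln_w ω ω' hω hω' hln
    have hc0 : D.c 0 ω = D.c 0 ω' := by
      refine h.c_wn 0 (Nat.zero_le _) ω ω' hω hω' (Prod.ext hln ?_)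
      have := hwd
      simpa [wn, wd] using this
    have hX : ∀ ω, (D.nrmd n J w₀ φ ψ).X ω =
        fun l => eval (D.X ω) (ali w₀ (D.wd J w₀ ω) (D.g 0) (D.P 0 (D.c 0 ω)) l) :=
      fun ω => funext fun l => X'_ali h ω l
    -- the fit
    have hfit : ∀ ω, 0 < q ω → |(D.nrmd n J w₀ φ ψ).X ω i - eval ((D.nrmd n J w₀ φ ψ).X ω)
        (G' ((D.nrmd n J w₀ φ ψ).cs v' ω))| ≤ 1 / 2 ^ ((D.nrmd n J w₀ φ ψ).g v i + A * z) →
        |D.X ω i - eval (D.X ω) (G (D.cs v' ω))| ≤ 1 / 2 ^ (D.g v i + A * z) := by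
      intro ω hω h1
      have e1 : D.X ω i - eval (D.X ω) (G (D.cs v' ω)) = 1 / 2 ^ D.g 0 i *
          ((D.nrmd n J w₀ φ ψ).X ω i - eval ((D.nrmd n J w₀ φ ψ).X ω)
            (G' ((D.nrmd n J w₀ φ ψ).cs v' ω))) := by
        have e2 : (D.nrmd n J w₀ φ ψ).X ω i = 2 ^ D.g 0 i *
            (D.X ω i - eval (D.X ω) (D.P 0 (D.c 0 ω) i)) := by
          change (if i = 0 then _ else (2 : ℝ) ^ D.g 0 i * D.rh 0 ω i) = _
          rw [if_neg (by omega)]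
          rfl
        rw [hG ω hω, e2, hX ω]
        field_simp
        ring
      rw [e1, abs_mul, abs_of_pos (by positivity), ← hprec]
      exact mul_le_mul_of_nonneg_left h1 (by positivity)
    refine ⟨hfit ω hω hA.1, hfit ω' hω' hA.2.1, fun b hb => ?_, fun b hb => ?_⟩
    · have h1 := hA.2.2.1 (fun l => eval b (ali w₀ (D.wd J w₀ ω) (D.g 0)
        (D.P 0 (D.c 0 ω)) l)) ((bx_alf h φ ψ hvM (by omega) ω fun _ _ => rfl).2 hb)
      rw [hG ω hω, hG ω' hω', ← hc0, ← hwd]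
      have e1 : ∀ a x y : ℝ, a + 1 / 2 ^ D.g 0 i * x - (a + 1 / 2 ^ D.g 0 i * y) =
          1 / 2 ^ D.g 0 i * (x - y) := fun a x y => by ring
      rw [e1, abs_mul, abs_of_pos (by positivity), ← hprec]
      exact mul_le_mul_of_nonneg_left h1 (by positivity)
    · set b' : ℕ → ℝ := fun l => eval b (ali w₀ (D.wd J w₀ ω) (D.g 0)
        (D.P 0 (D.c 0 ω)) l) with hb'
      have h1 := hA.2.2.2 b' ((bx_alf h φ ψ hvM (by omega) ω fun _ _ => rfl).2 hb)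
      have e2 : (D.nrmd n J w₀ φ ψ).P v ((D.nrmd n J w₀ φ ψ).c v ω) i =
          rsc w₀ (D.wd J w₀ ω) (D.g 0) (D.P 0 (D.c 0 ω)) (D.P v (D.c v ω)) i := by
        change (if n < i then 0 else _) = _
        rw [if_neg (by omega)]
        by_cases hk0 : v = 0
        · subst hk0
          rfl
        · change rsc w₀ _ (D.g 0) (D.P 0 (if v = 0 then D.c v ω else D.c 0 ω)) _ i = _
          rw [if_neg hk0]
          rfl
      have e3 : ∀ l < i, eval b' (alf w₀ (D.wd J w₀ ω) (D.g 0) (D.P 0 (D.c 0 ω)) l) = b l :=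
        fun l _ => alf_ali (h.P_tri 0 _) b l
      rw [e2, eval_rsc (h.P_tri v _) e3 (h.P_tri 0 _), if_neg (by omega)] at h1
      have e4 : eval b (G (D.cs v' ω)) - eval b (D.P v (D.c v ω) i) = 1 / 2 ^ D.g 0 i *
          (eval b' (G' ((D.nrmd n J w₀ φ ψ).cs v' ω)) - 2 ^ D.g 0 i *
            (eval b (D.P v (D.c v ω) i) - eval b (D.P 0 (D.c 0 ω) i))) := by
        rw [hG ω hω]
        field_simp
        ring
      rw [e4, abs_mul, abs_of_pos (by positivity)]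
      have h2 := hprec 0
      rw [add_zero, add_zero] at h2
      calc 1 / (2 : ℝ) ^ D.g 0 i * _ ≤ 1 / 2 ^ D.g 0 i *
            (Real.exp (C₆ * z) / 2 ^ ((D.nrmd n J w₀ φ ψ).g v i)) :=
            mul_le_mul_of_nonneg_left h1 (by positivity)
        _ = Real.exp (C₆ * z) * (1 / 2 ^ D.g 0 i * (1 / 2 ^ (D.g v i - D.g 0 i))) := by
            change 1 / (2 : ℝ) ^ D.g 0 i * (Real.exp (C₆ * z) / 2 ^ (D.g v i - D.g 0 i)) = _
            ring
        _ = _ := by rw [h2]; ring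

end

end NDat

/-- **Row N0.** -/
theorem abs0_thm : Abs0Stmt := by
  intro n K
  refine ⟨(K + 1) ^ (n + 2), fun K' => K + K' * (K + 1), fun J w₀ z M σ κ C₁ D q h => ?_⟩
  obtain ⟨ω₀, hω₀⟩ : ∃ ω, 0 < q ω := by
    by_contra hc
    push Not at hc
    have h1 := h.isLaw.sum_one
    have h2 : ∑ ω, q ω ≤ 0 := Finset.sum_nonpos fun ω _ => hc ω
    linarith
  have : Nonempty D.Γ := ⟨D.c 0 ω₀⟩
  have hd : Det q D.ln (D.c 0) := by
    intro ω ω' hω hω' e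
    refine h.c_wn 0 (Nat.zero_le _) ω ω' hω hω' (Prod.ext e ?_)
    have := h.ln_w ω ω' hω hω' e
    simpa [NDat.wn] using this
  obtain ⟨φ, hφ⟩ := det_fun hd
  obtain ⟨ψ, hψ⟩ := det_fun (T := ℕ) (Y := D.wd J w₀) h.ln_w
  refine ⟨φ, ψ, NDat.ok_nrmd h φ ψ hφ hψ, fun k ω i hi _ => NDat.rh_nrmd h φ ψ k ω hi,
    fun K' i v v' A C₆ η' hin hi hv hv' hN => NDat.newlab_nrmd h φ ψ hin hi hv hv' hN⟩

end Pool.STAT
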