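import Pool.Agent.H19.STAT.Sys

/-!
# Cells: two-parameter systems of lines with two-sided labels

Coordinates `0, 1, …, n`: `0` is the time, `1, …, n - 1` the base, `n` the target, in the order of
the chain. The grid: radii `2 ^ (-(a₀ + i z))`, windows `2 ^ (-(w₀ + j z))`, `i, j ≤ M`, the windows
are longer than the radii. The label of the coordinate `l` at `(i, j)` has precision
`2 ^ (-(g i j l))`. Its visible side `G i j (s i j ω) l` is a function of the exact point: `s i j` is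
this label and nothing else. Its other side `P i j (c i j ω) l` is a function of the line and of the
window. The context `c i j` may contain more.

`Ok2` is the structure of a cell inside nonfull rows: that the label of the target is valid on the
whole window is a theorem about nonfull rows.

The time is uniform (`TmU`) or live (`TmL`). The conclusion is a new label of the target.
-/

set_option autoImplicit false

namespace Pool.STAT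

open Finset MvPolynomial
open Pool.Agent.H49.Ent Pool.Agent.H32.Dense Pool.STK Pool.KS3
open Pool.BFL (Pl CB Pb P2 MC alt)

/-- The data of a cell: lines `ln`, exact points `pt`, times `T`, positions `X`, paths `pa`,
contexts `c i j` with the line side `P` of the labels, the labels `s i j` at the point with the
visible side `G`, the precisions `g`. -/
structure NDat2 : Type 1 where
  Ω : Type
  Λ : Type
  Γ : Type
  Ξ : Type
  S : Type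
  fin : Fintype Ω
  ln : Ω → Λ
  pt : Ω → Ξ
  T : Ω → ℕ
  X : Ω → ℕ → ℝ
  pa : Λ → ℕ → Polynomial ℝ
  c : ℕ → ℕ → Ω → Γ
  P : ℕ → ℕ → Γ → ℕ → PN
  s : ℕ → ℕ → Ω → S
  G : ℕ → ℕ → S → ℕ → PN
  g : ℕ → ℕ → ℕ → ℕ

attribute [instance] NDat2.fin

namespace NDat2

/-- The line and the window of length `2 ^ (-w)`. -/
def wn (D : NDat2) (J w : ℕ) (ω : D.Ω) : D.Λ × ℕ := (D.ln ω, D.T ω / 2 ^ (J - w))

/-- The labels at `(i, j)`, line side. -/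
def Φ (D : NDat2) (i j : ℕ) (ω : D.Ω) : ℕ → PN := D.P i j (D.c i j ω)

/-- The labels at `(i, j)`, visible side. -/
def Ψ (D : NDat2) (i j : ℕ) (ω : D.Ω) : ℕ → PN := D.G i j (D.s i j ω)

/-- The height over the line side. -/
noncomputable def rh (D : NDat2) (i j : ℕ) (ω : D.Ω) (l : ℕ) : ℝ :=
  D.X ω l - eval (D.X ω) (D.Φ i j ω l)

/-- The height over the visible side. -/
noncomputable def sh (D : NDat2) (i j : ℕ) (ω : D.Ω) (l : ℕ) : ℝ :=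
  D.X ω l - eval (D.X ω) (D.Ψ i j ω l)

/-- The heights over the labels at `(i, j)` of the base coordinates `1, …, n - 1`, to `r` digits
in natural units. -/
noncomputable def vd (D : NDat2) (n i j r : ℕ) (ω : D.Ω) (l : Fin (n - 1)) : ℤ :=
  ⌊(2 : ℝ) ^ (D.g i j (l + 1) + r) * D.sh i j ω (l + 1)⌋

/-- The height over the label at `(i, j)` of the target, to `r` digits in natural units. -/
noncomputable def nd (D : NDat2) (n i j r : ℕ) (ω : D.Ω) : ℤ :=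
  ⌊(2 : ℝ) ^ (D.g i j n + r) * D.sh i j ω n⌋

/-- The natural box at `(i, j)` around the sample `ω`, time radius `2 ^ (-ρ)`, coordinates before
`m`. -/
def NB (D : NDat2) (i j ρ m : ℕ) (ω : D.Ω) (b : ℕ → ℝ) : Prop :=
  |b 0 - D.X ω 0| ≤ 1 / 2 ^ ρ ∧
    ∀ l, 1 ≤ l → l < m → |b l - eval b (D.Ψ i j ω l)| ≤ 1 / 2 ^ D.g i j l

/-- **The axioms of a cell** with the coordinates `0, …, n`, for the law `q`. -/
structure Ok2 (D : NDat2) (n K J a₀ w₀ z M : ℕ) (lam gam : ℕ → ℝ) (κ C₁ : ℝ)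
    (q : D.Ω → ℝ) : Prop where
  isLaw : IsLaw q
  thin : w₀ + (M + 1) * z ≤ a₀
  top : a₀ + (M + 1) * z ≤ J
  -- points and lines
  T_lt : ∀ ω, D.T ω < 2 ^ J
  X_zero : ∀ ω, D.X ω 0 = (D.T ω : ℝ) / 2 ^ J
  pt_T : Det q D.pt D.T
  pt_X : ∀ ω ω', 0 < q ω → 0 < q ω' → D.pt ω = D.pt ω' → ∀ l ≤ n,
    |D.X ω l - D.X ω' l| ≤ 1 / 2 ^ J
  str : ∀ ω, 0 < q ω → ∀ l ≤ n, D.X ω l = (D.pa (D.ln ω) l).eval (D.X ω 0)
  pa_deg : ∀ x l, (D.pa x l).natDegree ≤ K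
  ln_w : Det q D.ln (fun ω => D.T ω / 2 ^ (J - w₀))
  -- contexts
  c_wn : ∀ i ≤ M, ∀ j ≤ M, Det q (D.wn J (w₀ + j * z)) (D.c i j)
  c_i : ∀ i < M, ∀ j ≤ M, Det q (D.c (i + 1) j) (D.c i j)
  c_ij : ∀ i < M, ∀ j < M, Det q (D.c (i + 1) (j + 1)) (D.c i j)
  i_few : ∀ i < M, ∀ j ≤ M, CH q (D.c (i + 1) j) (D.c i j) ≤ C₁ * z
  ij_few : ∀ i < M, ∀ j < M, CH q (D.c (i + 1) (j + 1)) (D.c i j) ≤ C₁ * z
  c_T : ∀ i ≤ M, ∀ j ≤ M, Det q (D.c i j) (fun ω => D.T ω / 2 ^ (J - (w₀ + j * z)))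
  P_deg : ∀ i j x l, (D.P i j x l).totalDegree ≤ K
  P_tri : ∀ i j x, TriN (D.P i j x)
  -- labels at the point
  s_pt : ∀ i ≤ M, ∀ j ≤ M, Det q D.pt (D.s i j)
  s_c : ∀ i ≤ M, ∀ j ≤ M, Det q (fun ω => (D.c i j ω, D.T ω)) (D.s i j)
  G_deg : ∀ i j x l, (D.G i j x l).totalDegree ≤ K
  G_tri : ∀ i j x, TriN (D.G i j x)
  net : ∀ i ≤ M, ∀ j ≤ M, ∀ C : ℝ, 0 ≤ C → ∀ (Y : Type) (y : D.Ω → Y), Det q y D.T →
    (∀ ω ω', 0 < q ω → 0 < q ω' → y ω = y ω' → ∀ l, 1 ≤ l → l ≤ n → ∀ b : ℕ → ℝ,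
      D.NB i j (a₀ + i * z) l ω b →
      |eval b (D.Ψ i j ω l) - eval b (D.Ψ i j ω' l)| ≤ Real.exp (C * z) / 2 ^ D.g i j l) →
    CH q (D.s i j) y ≤ C₁ * (C + 1) * z
  -- levels
  lam_ge : ∀ l, 1 ≤ lam l
  gam_ge : ∀ l, 0 ≤ gam l
  g_zero : ∀ i j, D.g i j 0 = w₀ + j * z
  hom : ∀ i ≤ M, ∀ j ≤ M, ∀ l, 1 ≤ l → l ≤ n →
    |(D.g i j l : ℝ) - D.g 0 0 l - (lam l * i + gam l * j) * z| ≤ C₁ * z
  g_ge : ∀ i ≤ M, ∀ j ≤ M, ∀ l, 1 ≤ l → l ≤ n → (a₀ : ℝ) + i * z ≤ D.g i j l + C₁ * z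
  g_le : ∀ i ≤ M, ∀ j ≤ M, ∀ l, 1 ≤ l → l ≤ n → D.g i j l + M * z ≤ J
  -- the labels
  hgt : ∀ i ≤ M, ∀ j ≤ M, ∀ ω, 0 < q ω → ∀ l ≤ n, |D.rh i j ω l| ≤ 1 / 2 ^ D.g i j l
  pos : ∀ i ≤ M, ∀ j ≤ M, ∀ ω, 0 < q ω → ∀ l, 1 ≤ l → l ≤ n →
    |D.sh i j ω l| ≤ 1 / 2 ^ D.g i j l
  agr : ∀ i ≤ M, ∀ j ≤ M, ∀ ω, 0 < q ω → ∀ l, 1 ≤ l → l ≤ n → ∀ b : ℕ → ℝ,
    D.NB i j (a₀ + i * z) l ω b →
    |eval b (D.Ψ i j ω l) - eval b (D.Φ i j ω l)| ≤ 1 / 2 ^ D.g i j l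
  -- the base is full given the context and the exact time
  full : ∀ i ≤ M, ∀ j ≤ M, ∀ U, i + U ≤ M → ((n - 1 : ℕ) : ℝ) * (U * z) * Real.log 2 - κ * z ≤
    CH q (D.vd n i j (U * z)) (fun ω => (D.c i j ω, D.T ω))

/-- **Nonfull rows** of the target, on all events of probability `≥ ϖ`: the digits
`r z, …, (r + U) z` of the height over the label at `(i, j)`, given the digits before, the natural
digits of the base up to `B (r + U) z`, the label at the point and the exact time. Only rows which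
are reached at the radius `i` by the windows of the grid. -/
def NF (D : NDat2) (n z M B : ℕ) (gam : ℕ → ℝ) (h C₁ ϖ : ℝ) (q : D.Ω → ℝ) : Prop :=
  ∀ i ≤ M, ∀ j ≤ M, ∀ r U : ℕ, i + r + U ≤ M → (r + U : ℝ) ≤ gam n * (M - j) →
    ∀ E : D.Ω → Prop, ϖ ≤ Pb q E →
    CH (Pool.Agent.H49.Ent.cond q E True) (D.nd n i j ((r + U) * z))
      (fun ω => (D.nd n i j (r * z) ω,
        (D.vd n i j (B * ((r + U) * z)) ω, (D.s i j ω, D.T ω)))) ≤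
      (1 - h) * (U * z) * Real.log 2 + C₁ * z

/-- **A new label** of the coordinate `l` at `(i, j)`: a polynomial which is a function of the
exact point and a polynomial which is a function of the line and of the window, which agree on
the natural box. The gain of the precision is `A z` digits. -/
def NewLab2 (D : NDat2) (J a₀ w₀ z i j l A K' : ℕ) (η' : ℝ) (q : D.Ω → ℝ) : Prop :=
  ∃ (Gn : D.Ξ → PN) (Hn : D.Λ × ℕ → PN),
    (∀ x, (Gn x).totalDegree ≤ K' ∧ (Gn x).vars ⊆ range l) ∧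
    (∀ x, (Hn x).totalDegree ≤ K' ∧ (Hn x).vars ⊆ range l) ∧
    η' ≤ Pb q (fun ω =>
      |D.X ω l - eval (D.X ω) (Gn (D.pt ω))| ≤ 1 / 2 ^ (D.g i j l + A * z) ∧
      ∀ b : ℕ → ℝ, D.NB i j (a₀ + i * z) l ω b →
        |eval b (Gn (D.pt ω)) - eval b (Hn (D.wn J (w₀ + j * z) ω))| ≤
          1 / 2 ^ (D.g i j l + A * z))

/-- The conclusion of the local theorem: a new label of the target. -/
def Concl2 (D : NDat2) (n J a₀ w₀ z M A K' : ℕ) (η' : ℝ) (q : D.Ω → ℝ) : Prop :=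
  ∃ i ≤ M, ∃ j ≤ M, D.NewLab2 J a₀ w₀ z i j n A K' η' q

/-! ### The time -/

/-- **Uniform time**, given the line. -/
def TmU (D : NDat2) (J w₀ z : ℕ) (κ : ℝ) (q : D.Ω → ℝ) : Prop :=
  ((J - w₀ : ℕ) : ℝ) * Real.log 2 - κ * z ≤ CH q D.T D.ln

/-- **Live time**: the time is almost independent of the line given the contexts, and two samples
of one line and of one window of length `2 ^ (-w)` are not nearer than `2 ^ (-(w + k'))`, in the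
mean over the scales `w` after the windows of the grid, on all events of probability `≥ ϖ`. -/
structure TmL (D : NDat2) (J w₀ z M k' : ℕ) (κ εT ϖ : ℝ) (q : D.Ω → ℝ) : Prop where
  ti : ∀ i ≤ M, ∀ j ≤ M, CH q D.T (D.c i j) ≤ CH q D.T (fun ω => (D.ln ω, D.c i j ω)) + κ * z
  tm : ∀ j ≤ M, ∀ x ≤ M * z, ∀ E : D.Ω → Prop, ϖ ≤ Pb q E →
    ∑ u ∈ range x, P2 (Pool.Agent.H49.Ent.cond q E True) (D.wn J (w₀ + j * z + u))
      (fun ω ω' => |(D.T ω : ℝ) - D.T ω'| * 2 ^ (w₀ + j * z + u + k') < 2 ^ J) ≤ εT * x + κ * z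

end NDat2

/-! ### The local theorem -/

/-- Conditions for the slopes `lam` (radius), `gam` (window) of the coordinates `1, …, n`. -/
abbrev Cond2 : Type := ℕ → (ℕ → ℝ) → (ℕ → ℝ) → Prop

/-- **MIC**, live time: a cell on which the target depends on the window, with nonfull rows: a new
label of the target. -/
def MicLOf (Q : Cond2) : Prop :=
  ∀ (n K A B : ℕ) (lam gam : ℕ → ℝ) (C₁ h : ℝ), 1 ≤ n → 1 ≤ B → (∀ l, 1 ≤ lam l) →
    (∀ l, 0 ≤ gam l) → 0 < gam n → 1 ≤ C₁ → 0 < h → h ≤ 1 → Q n lam gam →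
    ∃ (εT ϖT : ℝ), 0 < εT ∧ 0 < ϖT ∧ ∀ k' : ℕ,
    ∃ (M K' : ℕ) (η' κ ϖ : ℝ) (z₀ : ℕ), 0 < η' ∧ 0 < κ ∧ 0 < ϖ ∧
    ∀ (J a₀ w₀ z : ℕ) (D : NDat2) (q : D.Ω → ℝ), z₀ ≤ z →
      D.Ok2 n K J a₀ w₀ z M lam gam κ C₁ q → D.NF n z M B gam h C₁ ϖ q →
      D.TmL J w₀ z M k' κ εT ϖT q → D.Concl2 n J a₀ w₀ z M A K' η' q

/-- **MIC**, uniform time. -/
def MicOf (Q : Cond2) : Prop :=
  ∀ (n K A B : ℕ) (lam gam : ℕ → ℝ) (C₁ h : ℝ), 1 ≤ n → 1 ≤ B → (∀ l, 1 ≤ lam l) →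
    (∀ l, 0 ≤ gam l) → 0 < gam n → 1 ≤ C₁ → 0 < h → h ≤ 1 → Q n lam gam →
    ∃ (M K' : ℕ) (η' κ ϖ : ℝ) (z₀ : ℕ), 0 < η' ∧ 0 < κ ∧ 0 < ϖ ∧
    ∀ (J a₀ w₀ z : ℕ) (D : NDat2) (q : D.Ω → ℝ), z₀ ≤ z →
      D.Ok2 n K J a₀ w₀ z M lam gam κ C₁ q → D.NF n z M B gam h C₁ ϖ q →
      D.TmU J w₀ z κ q → D.Concl2 n J a₀ w₀ z M A K' η' q

/-- Uniform time is live, for `k'` large. -/
def TmuStmt : Prop :=
  ∀ εT ϖ : ℝ, 0 < εT → 0 < ϖ → ∃ k' : ℕ, ∀ (M : ℕ) (κ : ℝ), 0 < κ → ∃ (κ' : ℝ) (z₀ : ℕ), 0 < κ' ∧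
    ∀ (J a₀ w₀ z : ℕ) (D : NDat2) (q : D.Ω → ℝ), z₀ ≤ z → IsLaw q → a₀ + (M + 1) * z ≤ J →
      w₀ + (M + 1) * z ≤ a₀ → (∀ ω, D.T ω < 2 ^ J) →
      Det q D.ln (fun ω => D.T ω / 2 ^ (J - w₀)) →
      (∀ i ≤ M, ∀ j ≤ M, Det q (D.wn J (w₀ + j * z)) (D.c i j)) →
      (∀ i ≤ M, ∀ j ≤ M, Det q (D.c i j) (fun ω => D.T ω / 2 ^ (J - (w₀ + j * z)))) →
      D.TmU J w₀ z κ' q → D.TmL J w₀ z M k' κ εT ϖ q

/-- (a) No tie: all the base coordinates have ratios smaller than the ratio of the target. -/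
def CondA : Cond2 := fun n lam gam => ∀ l, 1 ≤ l → l < n → gam l * lam n < gam n * lam l

/-- (b) Ties are allowed: no base coordinate has a larger ratio than the target. -/
def CondB : Cond2 := fun n lam gam => ∀ l, 1 ≤ l → l < n → gam l * lam n ≤ gam n * lam l

/-- The general statement. -/
def MicStmt : Prop := MicOf fun _ _ _ => True

/-- (a) -/
def MicAStmt : Prop := MicOf CondA

/-- (b) -/
def MicBStmt : Prop := MicOf CondB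

theorem MicOf.mono {Q Q' : Cond2} (h : MicOf Q)
    (hQ : ∀ n lam gam, Q' n lam gam → Q n lam gam) : MicOf Q' :=
  fun n K A B lam gam C₁ h₁ a0 a1 a2 a3 a4 a5 a6 a7 a8 =>
    h n K A B lam gam C₁ h₁ a0 a1 a2 a3 a4 a5 a6 a7 (hQ _ _ _ a8)

theorem MicLOf.mono {Q Q' : Cond2} (h : MicLOf Q)
    (hQ : ∀ n lam gam, Q' n lam gam → Q n lam gam) : MicLOf Q' :=
  fun n K A B lam gam C₁ h₁ a0 a1 a2 a3 a4 a5 a6 a7 a8 =>
    h n K A B lam gam C₁ h₁ a0 a1 a2 a3 a4 a5 a6 a7 (hQ _ _ _ a8)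

theorem NDat2.Ok2.mono_κ {D : NDat2} {n K J a₀ w₀ z M : ℕ} {lam gam : ℕ → ℝ} {κ κ' C₁ : ℝ}
    {q : D.Ω → ℝ} (hO : D.Ok2 n K J a₀ w₀ z M lam gam κ C₁ q) (hκ : κ ≤ κ') :
    D.Ok2 n K J a₀ w₀ z M lam gam κ' C₁ q := by
  have hz0 : (0 : ℝ) ≤ z := Nat.cast_nonneg z
  have m1 : κ * (z : ℝ) ≤ κ' * z := mul_le_mul_of_nonneg_right hκ hz0
  exact { hO with
    full := fun i hi j hj U hU => by
      have := hO.full i hi j hj U hU
      linarith }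

/-- The uniform form from the live form. -/
theorem micOf_of_live {Q : Cond2} (h : MicLOf Q) (ht : TmuStmt) : MicOf Q := by
  intro n K A B lam gam C₁ h₁ a0 a1 a2 a3 a4 a5 a6 a7 a8
  obtain ⟨εT, ϖT, e1, e2, H⟩ := h n K A B lam gam C₁ h₁ a0 a1 a2 a3 a4 a5 a6 a7 a8
  obtain ⟨k', Hk⟩ := ht εT ϖT e1 e2
  obtain ⟨M, K', η', κ, ϖ, z₀, b1, b2, b3, H2⟩ := H k'
  obtain ⟨κ', z₁, c1, H3⟩ := Hk M κ b2
  refine ⟨M, K', η', min κ κ', ϖ, max z₀ z₁, b1, lt_min b2 c1, b3, ?_⟩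
  intro J a₀ w₀ z D q hz hO hN hT
  have hz0 : (0 : ℝ) ≤ z := Nat.cast_nonneg z
  have m2 : min κ κ' * (z : ℝ) ≤ κ' * z := mul_le_mul_of_nonneg_right (min_le_right _ _) hz0
  refine H2 J a₀ w₀ z D q ((le_max_left _ _).trans hz) (hO.mono_κ (min_le_left _ _)) hN ?_
  refine H3 J a₀ w₀ z D q ((le_max_right _ _).trans hz) hO.isLaw hO.top hO.thin hO.T_lt
    hO.ln_w hO.c_wn hO.c_T ?_
  unfold NDat2.TmU at hT ⊢
  linarith

end Pool.STAT
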