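import Pool.Agent.H19.STAT.Cpt2

/-!
# Systems in absolute units

The same data `NDat`, in absolute units: window `w₀`, levels `w₀ + k z`. `X ω 0` is the absolute
time, `ln` contains the window. The axioms `Ok0` have no normalisation. Theorem: an explicit
system `D.nrmd` in the units of the window, with the axioms `Ok`.
-/

set_option autoImplicit false

namespace Pool.STAT

open Finset MvPolynomial
open Pool.Agent.H49.Ent Pool.Agent.H32.Dense Pool.STK Pool.KS3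
open Pool.BFL (Pl CB Pb P2 MC alt)

namespace NDat

/-- The axioms of a system in absolute units, with the window `w₀`. -/
structure Ok0 (D : NDat) (n K J w₀ z M : ℕ) (σ : ℕ → ℝ) (κ C₁ : ℝ) (q : D.Ω → ℝ) : Prop where
  isLaw : IsLaw q
  top : w₀ + (M + 1) * z ≤ J
  T_lt : ∀ ω, D.T ω < 2 ^ J
  X_zero : ∀ ω, D.X ω 0 = (D.T ω : ℝ) / 2 ^ J
  ln_w : Det q D.ln (fun ω => D.T ω / 2 ^ (J - w₀))
  time : ((J - w₀ : ℕ) : ℝ) * Real.log 2 - κ * z ≤ CH q D.T D.ln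
  c_wn : ∀ k ≤ M, Det q (D.wn J (w₀ + k * z)) (D.c k)
  c_c : ∀ k < M, Det q (D.c (k + 1)) (D.c k)
  c_T : ∀ k ≤ M, Det q (D.c k) (fun ω => D.T ω / 2 ^ (J - (w₀ + k * z)))
  P_deg : ∀ k x i, (D.P k x i).totalDegree ≤ K
  P_tri : ∀ k x, TriN (D.P k x)
  R_deg : ∀ l i, (D.R l i).totalDegree ≤ K
  R_tri : ∀ l, TriN (D.R l)
  σ_zero : σ 0 = 1
  σ_ge : ∀ i, 1 ≤ σ i
  g_zero : D.g 0 0 = w₀
  g_ge : ∀ k ≤ M, ∀ i, D.g 0 i ≤ D.g k i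
  hom : ∀ k ≤ M, ∀ i ≤ n, |(D.g k i : ℝ) - D.g 0 i - σ i * (k * z)| ≤ C₁ * z
  hgt : ∀ k ≤ M, ∀ ω, 0 < q ω → ∀ i ≤ n, |D.rh k ω i| ≤ 1 / 2 ^ D.g k i
  line : ∀ ω, 0 < q ω → ∀ i, 1 ≤ i → i ≤ n → ∀ b : ℕ → ℝ, Bx (D.g M) (D.P M (D.c M ω)) i b →
    |eval b (D.R (D.ln ω) i) - eval b (D.P M (D.c M ω) i)| ≤ Real.exp (C₁ * z) / 2 ^ D.g M i
  full : ∀ k ≤ M, n * (z * Real.log 2) - κ * z ≤
    CH q (fun ω (i : Fin n) => ⌊(2 : ℝ) ^ (D.g k i + z) * D.rh k ω i⌋) (D.c k)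

/-- The window of level `0`. -/
def wd (D : NDat) (J w₀ : ℕ) (ω : D.Ω) : ℕ := D.T ω / 2 ^ (J - w₀)

end NDat

/-- Absolute coordinates as polynomials of the coordinates of the window `j` of length
`2 ^ (-w₀)` and of the heights over the system `Φ`, in the units `2 ^ (-γ i)`. -/
noncomputable def alf (w₀ j : ℕ) (γ : ℕ → ℕ) (Φ : ℕ → PN) : ℕ → PN :=
  fixm fun α i => if i = 0 then C ((j : ℝ) / 2 ^ w₀) + C (1 / (2 : ℝ) ^ w₀) * X 0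
    else bind₁ α (Φ i) + C (1 / (2 : ℝ) ^ γ i) * X i

/-- The inverse of `alf`. -/
noncomputable def ali (w₀ j : ℕ) (γ : ℕ → ℕ) (Φ : ℕ → PN) (i : ℕ) : PN :=
  if i = 0 then C ((2 : ℝ) ^ w₀) * X 0 - C (j : ℝ) else C ((2 : ℝ) ^ γ i) * (X i - Φ i)

/-- The system `Ψ` in the coordinates of the window. -/
noncomputable def rsc (w₀ j : ℕ) (γ : ℕ → ℕ) (Φ Ψ : ℕ → PN) (i : ℕ) : PN :=
  if i = 0 then C ((2 : ℝ) ^ w₀) * Ψ 0 - C (j : ℝ)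
    else C ((2 : ℝ) ^ γ i) * bind₁ (alf w₀ j γ Φ) (Ψ i - Φ i)

namespace NDat

/-- The system in the units of the window, coordinates `≤ n`. `φ` and `ψ` give the label of
level `0` and the window as functions of the line. -/
noncomputable def nrmd (D : NDat) (n J w₀ : ℕ) (φ : D.Λ → D.Γ) (ψ : D.Λ → ℕ) : NDat where
  Ω := D.Ω
  Λ := D.Λ
  Γ := D.Γ × D.Γ × ℕ
  fin := D.fin
  ln := D.ln
  T ω := D.T ω % 2 ^ (J - w₀)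
  X ω i := if i = 0 then ((D.T ω % 2 ^ (J - w₀) : ℕ) : ℝ) / 2 ^ (J - w₀)
    else (2 : ℝ) ^ D.g 0 i * D.rh 0 ω i
  c k ω := (D.c k ω, D.c 0 ω, D.wd J w₀ ω)
  P k x i := if n < i then 0 else
    rsc w₀ x.2.2 (D.g 0) (D.P 0 (if k = 0 then x.1 else x.2.1)) (D.P k x.1) i
  R l i := if n < i then 0 else rsc w₀ (ψ l) (D.g 0) (D.P 0 (φ l)) (D.R l) i
  g k i := D.g k i - D.g 0 i

/-- **A new label, in absolute units**: the precision is `g v i + A z`; `G` is a function of the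
labels of the levels `≤ v'`. -/
def NewLab0 (D : NDat) (J w₀ z i v v' A K' : ℕ) (C₆ η' : ℝ) (q : D.Ω → ℝ) : Prop :=
  ∃ G : (ℕ → D.Γ) → PN, (∀ x, (G x).totalDegree ≤ K') ∧ (∀ x, (G x).vars ⊆ range i) ∧
    η' ≤ P2 q (D.wn J (w₀ + v * z)) (fun ω ω' =>
      |D.X ω i - eval (D.X ω) (G (D.cs v' ω))| ≤ 1 / 2 ^ (D.g v i + A * z) ∧
      |D.X ω' i - eval (D.X ω') (G (D.cs v' ω'))| ≤ 1 / 2 ^ (D.g v i + A * z) ∧
      (∀ b : ℕ → ℝ, Bx (D.g v) (D.P v (D.c v ω)) i b →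
        |eval b (G (D.cs v' ω')) - eval b (G (D.cs v' ω))| ≤ 1 / 2 ^ (D.g v i + A * z)) ∧
      ∀ b : ℕ → ℝ, Bx (D.g v) (D.P v (D.c v ω)) i b →
        |eval b (G (D.cs v' ω)) - eval b (D.P v (D.c v ω) i)| ≤
          Real.exp (C₆ * z) / 2 ^ D.g v i)

end NDat

/-- **Row N0.** Absolute units. -/
def Abs0Stmt : Prop :=
  ∀ (n K : ℕ), ∃ (K₁ : ℕ) (K₂ : ℕ → ℕ), ∀ (J w₀ z M : ℕ) (σ : ℕ → ℝ) (κ C₁ : ℝ) (D : NDat)
    (q : D.Ω → ℝ), D.Ok0 n K J w₀ z M σ κ C₁ q → ∃ (φ : D.Λ → D.Γ) (ψ : D.Λ → ℕ),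
    (D.nrmd n J w₀ φ ψ).Ok n K₁ (J - w₀) z M σ κ C₁ q ∧
    (∀ k ω, ∀ i ≤ n, 0 < q ω → (D.nrmd n J w₀ φ ψ).rh k ω i = (2 : ℝ) ^ D.g 0 i * D.rh k ω i) ∧
    ∀ (K' i v v' A : ℕ) (C₆ η' : ℝ), i ≤ n → 1 ≤ i → v ≤ v' → v' ≤ M →
      (D.nrmd n J w₀ φ ψ).NewLab (J - w₀) z i v v' A K' C₆ η' q →
      D.NewLab0 J w₀ z i v v' A (K₂ K') C₆ η' q

end Pool.STAT
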