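import Pool.Agent.H19.STAT.Tools

/-!
# Row CPT: the adapted coordinates of the blocks and of the line
-/

set_option autoImplicit false

namespace Pool.STAT

open Finset MvPolynomial
open Pool.Agent.H49.Ent Pool.Agent.H32.Dense Pool.STK Pool.KS3
open Pool.BFL (Pl CB Pb P2 MC alt)

/-! ### Numbers -/

theorem rd_pos (z k : ℕ) : 0 < rd z k := by
  unfold rd
  positivity

theorem rd_eq (z k : ℕ) : rd z k = (2 : ℝ)⁻¹ ^ (k * z) := by
  unfold rd
  rw [one_div, inv_pow]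

theorem two_le_exp {z : ℕ} (hz : 1 ≤ z) : (2 : ℝ) ≤ Real.exp z := by
  have h1 : (1 : ℝ) ≤ z := by exact_mod_cast hz
  have := Real.add_one_le_exp (z : ℝ)
  linarith

/-- `2 ^ (-g)` against the radius. -/
theorem prec_le {z k g e : ℕ} {C₁ : ℝ} (hC : 0 ≤ C₁) (h : |(g : ℝ) - e * (k * z)| ≤ C₁ * z) :
    1 / (2 : ℝ) ^ g ≤ Real.exp (C₁ * z) * rd z k ^ e := by
  have h1 : (e : ℝ) * (k * z) - C₁ * z ≤ g := by
    have := (abs_le.1 h).1
    linarith
  have h2 : rd z k ^ e = Real.exp (-(Real.log 2 * (e * (k * z)))) := by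
    unfold rd
    rw [one_div, inv_pow, ← pow_mul, ← Real.exp_log (show (0 : ℝ) < 2 by norm_num),
      ← Real.exp_nat_mul, ← Real.exp_neg, Real.log_exp]
    push_cast
    congr 1
    ring
  have h3 : 1 / (2 : ℝ) ^ g = Real.exp (-(Real.log 2 * g)) := by
    rw [one_div, ← Real.exp_log (show (0 : ℝ) < 2 by norm_num), ← Real.exp_nat_mul,
      ← Real.exp_neg, Real.log_exp]
    congr 1
    ring
  rw [h2, h3, ← Real.exp_add]
  apply Real.exp_le_exp.2
  have h4 : Real.log 2 ≤ 1 := by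
    have := Real.log_two_lt_d9
    linarith
  have h5 : 0 < Real.log 2 := Real.log_pos (by norm_num)
  have h6 : Real.log 2 * (C₁ * z) ≤ C₁ * z := by
    have : 0 ≤ C₁ * z := by positivity
    nlinarith
  nlinarith [mul_le_mul_of_nonneg_left h1 h5.le]

/-- Powers of `2 A`, as an exponential. -/
theorem pow_exp_le {z E e : ℕ} {C : ℝ} (hz : 1 ≤ z) (hC : 0 ≤ C) (he : e ≤ E) :
    (2 * Real.exp (C * z)) ^ e ≤ Real.exp ((C + 1) * E * z) := by
  have h1 : 2 * Real.exp (C * z) ≤ Real.exp ((C + 1) * z) := by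
    rw [show (C + 1) * (z : ℝ) = z + C * z by ring, Real.exp_add]
    exact mul_le_mul_of_nonneg_right (two_le_exp hz) (Real.exp_pos _).le
  calc (2 * Real.exp (C * z)) ^ e ≤ Real.exp ((C + 1) * z) ^ e :=
        pow_le_pow_left₀ (by positivity) h1 _
    _ = Real.exp (e * ((C + 1) * z)) := by rw [← Real.exp_nat_mul]
    _ ≤ _ := by
        apply Real.exp_le_exp.2
        have h2 : (e : ℝ) ≤ E := by exact_mod_cast he
        have h3 : 0 ≤ (C + 1) * (z : ℝ) := by positivity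
        nlinarith

/-! ### The inverse of the adapted coordinates -/

section Adx

variable (hA : AdxStmt) {d : ℕ → ℕ} {Φ : ℕ → PN}

include hA in
theorem adp_eq (h0 : d 0 = 1) (hd : ∀ i, 1 ≤ d i) (hΦ : TriN Φ) (i : ℕ) :
    adp d Φ i = X i + trw d (d i) (bind₁ (adp d Φ) (Φ i)) := (hA.2 d Φ h0 hd hΦ).1 i

include hA in
theorem adp_vars (h0 : d 0 = 1) (hd : ∀ i, 1 ≤ d i) (hΦ : TriN Φ) (i : ℕ) :
    (adp d Φ i - X i).vars ⊆ range i := (hA.2 d Φ h0 hd hΦ).2.1 i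

theorem vars_of_sub {F : PN} {i : ℕ} (h : (F - X i).vars ⊆ range i) : F.vars ⊆ range (i + 1) := by
  classical
  have h1 : F = (F - X i) + X i := by ring
  rw [h1]
  intro j hj
  rcases Finset.mem_union.1 (vars_add_subset _ _ hj) with h2 | h2
  · have := mem_range.1 (h h2)
    exact mem_range.2 (by omega)
  · rw [vars_X, Finset.mem_singleton] at h2
    exact mem_range.2 (by omega)

include hA in
theorem adp_vars' (h0 : d 0 = 1) (hd : ∀ i, 1 ≤ d i) (hΦ : TriN Φ) (i : ℕ) :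
    (adp d Φ i).vars ⊆ range (i + 1) := vars_of_sub (adp_vars hA h0 hd hΦ i)

include hA in
theorem tinv_vars (h0 : d 0 = 1) (hd : ∀ i, 1 ≤ d i) (hΦ : TriN Φ) (i : ℕ) :
    (tinv (adp d Φ) i - X i).vars ⊆ range i :=
  ((hA.2 d Φ h0 hd hΦ).2.2.1 (adp d Φ) (hA.2 d Φ h0 hd hΦ).2.1).1 i

include hA in
theorem tinv_vars' (h0 : d 0 = 1) (hd : ∀ i, 1 ≤ d i) (hΦ : TriN Φ) (i : ℕ) :
    (tinv (adp d Φ) i).vars ⊆ range (i + 1) := vars_of_sub (tinv_vars hA h0 hd hΦ i)

include hA in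
theorem bind_tinv (h0 : d 0 = 1) (hd : ∀ i, 1 ≤ d i) (hΦ : TriN Φ) (i : ℕ) :
    bind₁ (tinv (adp d Φ)) (adp d Φ i) = X i :=
  ((hA.2 d Φ h0 hd hΦ).2.2.1 (adp d Φ) (hA.2 d Φ h0 hd hΦ).2.1).2.1 i

/-- The adapted coordinates of the point `b`. -/
noncomputable def ac (d : ℕ → ℕ) (Φ : ℕ → PN) (b : ℕ → ℝ) (i : ℕ) : ℝ :=
  eval b (tinv (adp d Φ) i)

include hA in
theorem eval_adp (h0 : d 0 = 1) (hd : ∀ i, 1 ≤ d i) (hΦ : TriN Φ) (b : ℕ → ℝ) (i : ℕ) :
    eval (ac d Φ b) (adp d Φ i) = b i := by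
  have h1 := congrArg (eval b) (bind_tinv hA h0 hd hΦ i)
  rw [eval_bind, eval_X] at h1
  exact h1

include hA in
/-- The equation of the adapted coordinates of a point. -/
theorem ac_eq (h0 : d 0 = 1) (hd : ∀ i, 1 ≤ d i) (hΦ : TriN Φ) (b : ℕ → ℝ) (i : ℕ) :
    ac d Φ b i = (b i - eval b (Φ i)) +
      eval (ac d Φ b) (gew d (d i) (bind₁ (adp d Φ) (Φ i))) := by
  have h1 := eval_adp hA h0 hd hΦ b i
  rw [adp_eq hA h0 hd hΦ i, map_add, eval_X] at h1
  have h2 : eval (ac d Φ b) (bind₁ (adp d Φ) (Φ i)) = eval b (Φ i) := by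
    rw [eval_bind]
    congr 2
    funext l
    exact eval_adp hA h0 hd hΦ b l
  unfold gew
  rw [map_sub, h2]
  linarith

include hA in
/-- The adapted coordinates of two systems. -/
theorem ac_ac (h0 : d 0 = 1) (hd : ∀ i, 1 ≤ d i) {Ψ : ℕ → PN} (hΨ : TriN Ψ) (b : ℕ → ℝ)
    (i : ℕ) :
    ac d Φ b i = ac d Ψ b i +
      eval (ac d Ψ b) (bind₁ (adp d Ψ) (tinv (adp d Φ) i) - X i) := by
  rw [map_sub, eval_X, eval_bind]
  have h1 : (fun l => eval (ac d Ψ b) (adp d Ψ l)) = b := by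
    funext l
    exact eval_adp hA h0 hd hΨ b l
  rw [h1]
  unfold ac
  ring

end Adx

/-! ### The bounds -/

/-- Integer slopes. -/
theorem slp_int {d : ℕ → ℕ} (n : ℕ) (h0 : d 0 = 1) (hd : ∀ i, 1 ≤ d i) :
    Slp d (fun i => d i) n :=
  ⟨h0, hd, fun _ _ => rfl, le_refl _, by
    change (d n : ℝ) - 1 < d n
    linarith⟩

/-- The adapted coordinates of the points of the natural box of level `N`. -/
theorem bnd (hA : AdxStmt) (hD : DgbStmt) (hL : LadStmt) (n K : ℕ) (d : ℕ → ℕ) (C₁ C₂ : ℝ)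
    (h0 : d 0 = 1) (hd : ∀ i, 1 ≤ d i) (hC₁ : 1 ≤ C₁) (hC₂ : 1 ≤ C₂) :
    ∃ C₃ : ℝ, 1 ≤ C₃ ∧ ∀ N : ℕ, ∃ z₀ : ℕ, ∀ (z : ℕ) (Φ : ℕ → ℕ → PN) (g : ℕ → ℕ) (b : ℕ → ℝ),
    z₀ ≤ z → LBase K (n + 1) N Φ → Lad d z (fun i => d i) C₂ N (n + 1) Φ →
    (∀ i ≤ n, |(g i : ℝ) - d i * (N * z)| ≤ C₁ * z) →
    (∀ i ≤ n, |b i - eval b (Φ N i)| ≤ 2 / 2 ^ g i) →
    ∀ i ≤ n, |ac d (Φ N) b i| ≤ Real.exp (C₃ * z) * rd z N ^ d i := by
  obtain ⟨K', hK'⟩ := hD n K d h0 hd
  obtain ⟨CL, hCL, hlad⟩ := hL n K d (fun i => d i) C₂ (slp_int n h0 hd) hC₂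
  set D : ℕ := K * K' * ∑ i ∈ range (n + 1), d i with hDdef
  set E : ℕ := (D + 2) ^ (n + 1) with hE
  refine ⟨(CL + C₁ + 1 + 1) * E, ?_, fun N => ?_⟩
  · have h1 : (1 : ℝ) ≤ E := by
      have : 1 ≤ E := Nat.one_le_pow _ _ (by omega)
      exact_mod_cast this
    nlinarith
  obtain ⟨z₀, hz₀⟩ := hlad N
  refine ⟨max z₀ 1, fun z Φ g b hz hB hLad hg hb i hi => ?_⟩
  have hz1 : 1 ≤ z := le_trans (le_max_right _ _) hz
  have h1 := (hz₀ z Φ (n + 1) ((le_max_left _ _).trans hz) le_rfl hB hLad).1 N le_rfl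
  have htri : TriN (Φ N) := hB.tri N le_rfl
  set A : ℝ := Real.exp ((CL + C₁ + 1) * z) with hAdef
  have hA1 : 1 ≤ A := Real.one_le_exp (by positivity)
  have hρ := rd_pos z N
  have key := tri_bound hd (D := D) (m := n + 1) hρ.le hA1 (ac d (Φ N) b)
    (fun i => b i - eval b (Φ N i))
    (fun i => gew d (d i) (bind₁ (adp d (Φ N)) (Φ N i)))
    (fun i _ => by
      conv_lhs => rw [ac_eq hA h0 hd htri b i]
      exact abs_add_le _ _)
    (fun i _ => gew_vars (vars_bind_le (htri i) fun l _ => adp_vars' hA h0 hd htri l))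
    (fun i hi => by
      refine WB.gew ?_
      have hi' : i < n + 1 := hi
      have h2 : (bind₁ (adp d (Φ N)) (Φ N i)).vars ⊆ range (n + 1) :=
        (vars_bind_le (htri i) fun l _ => adp_vars' hA h0 hd htri l).trans
          (range_subset_range.2 hi'.le)
      refine WB.of_deg h2 ?_
      exact deg_bind_le (htri i) (hB.deg N le_rfl i hi') fun l hl =>
        (hK' (Φ N) g htri (fun j hj => hB.deg N le_rfl j (by omega)) l (by omega)).1)
    (fun i hi => by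
      have h3 := (h1 i hi).2
      rw [Real.rpow_natCast] at h3
      refine h3.trans (mul_le_mul_of_nonneg_right ?_ (by positivity))
      apply Real.exp_le_exp.2
      have : (0 : ℝ) ≤ z := by positivity
      nlinarith)
    (fun i hi => by
      have h4 := hb i (by omega)
      have h5 := prec_le (by linarith) (hg i (by omega))
      refine h4.trans ?_
      rw [show (2 : ℝ) / 2 ^ g i = 2 * (1 / 2 ^ g i) by ring]
      calc 2 * (1 / (2 : ℝ) ^ g i) ≤ 2 * (Real.exp (C₁ * z) * rd z N ^ d i) := by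
            linarith
        _ = (2 * Real.exp (C₁ * z)) * rd z N ^ d i := by ring
        _ ≤ A * rd z N ^ d i := by
            refine mul_le_mul_of_nonneg_right ?_ (by positivity)
            calc 2 * Real.exp (C₁ * z) ≤ Real.exp z * Real.exp (C₁ * z) :=
                  mul_le_mul_of_nonneg_right (two_le_exp hz1) (Real.exp_pos _).le
              _ = Real.exp (z + C₁ * z) := by rw [Real.exp_add]
              _ ≤ A := by
                  apply Real.exp_le_exp.2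
                  have : (0 : ℝ) ≤ z := by positivity
                  nlinarith)
    i (by omega)
  refine key.trans (mul_le_mul_of_nonneg_right ?_ (by positivity))
  exact pow_exp_le hz1 (by positivity) (Nat.pow_le_pow_right (by omega) (by omega))

theorem wb_of_trw {d : ℕ → ℕ} {r : ℕ} {F : PN} (h : trw d r F = F) {D : ℕ} (hD : r ≤ D) :
    WB d D F := by
  intro k hk
  rw [mem_support_iff, ← h, coeff_trw] at hk
  by_contra hc
  rw [if_neg (by omega)] at hk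
  exact hk rfl

/-- The estimate of LAD for integer slopes. -/
theorem lad_pow {d : ℕ → ℕ} (hd : ∀ i, 1 ≤ d i) {z v k' i : ℕ} :
    rd z v ^ ((d i : ℝ) - 1) * rd z k' ^ ((d i : ℝ) - d i + 1) =
      rd z v ^ (d i - 1) * rd z k' := by
  have h1 : ((d i : ℝ) - 1) = ((d i - 1 : ℕ) : ℝ) := by
    have := hd i
    push_cast [this]
    ring
  rw [h1, Real.rpow_natCast, sub_self, zero_add, Real.rpow_one]

/-- The adapted coordinates of the line, and of a block, for the points of a natural box. -/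
theorem cmp_line (hA : AdxStmt) (hD : DgbStmt) (hL : LadStmt) (n K : ℕ) (d : ℕ → ℕ)
    (C₁ C₂ : ℝ) (h0 : d 0 = 1) (hd : ∀ i, 1 ≤ d i) (hC₁ : 1 ≤ C₁) (hC₂ : 1 ≤ C₂) :
    ∃ C₃ : ℝ, 1 ≤ C₃ ∧ ∀ N : ℕ, ∃ z₀ : ℕ, ∀ (z v v' : ℕ) (Φ : ℕ → ℕ → PN) (g : ℕ → ℕ)
      (b : ℕ → ℝ), z₀ ≤ z → v ≤ v' → v' ≤ N → LBase K (n + 1) N Φ →
    Lad d z (fun i => d i) C₂ N (n + 1) Φ → (∀ i ≤ n, |(g i : ℝ) - d i * (v * z)| ≤ C₁ * z) →
    (∀ i ≤ n, |b i - eval b (Φ v i)| ≤ 2 / 2 ^ g i) →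
    ∀ i ≤ n, |ac d (Φ N) b i| ≤ Real.exp (C₃ * z) * rd z v ^ d i ∧
      |ac d (Φ v') b i - ac d (Φ N) b i| ≤
        Real.exp (C₃ * z) * (rd z v ^ (d i - 1) * rd z v') := by
  obtain ⟨CB, hCB, hbnd⟩ := bnd hA hD hL n K d C₁ C₂ h0 hd hC₁ hC₂
  obtain ⟨CL, hCL, hlad⟩ := hL n K d (fun i => d i) C₂ (slp_int n h0 hd) hC₂
  set D : ℕ := ∑ i ∈ range (n + 1), d i with hDdef
  set E : ℕ := (D + 2) ^ (n + 1) with hE
  have hE1 : (1 : ℝ) ≤ E := by
    have : 1 ≤ E := Nat.one_le_pow _ _ (by omega)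
    exact_mod_cast this
  have hdD : ∀ i ≤ n, d i ≤ D := fun i hi =>
    Finset.single_le_sum (f := d) (fun _ _ => Nat.zero_le _) (mem_range.2 (by omega))
  set CW : ℝ := (CL + CB + 1) * E with hCW
  have hCW1 : 1 ≤ CW := by
    have : 1 ≤ CL + CB + 1 := by linarith
    calc (1 : ℝ) = 1 * 1 := by ring
      _ ≤ (CL + CB + 1) * E := mul_le_mul this hE1 (by norm_num) (by linarith)
  refine ⟨CW * (D + 1) + CL, by
    have : (0 : ℝ) ≤ D := Nat.cast_nonneg _
    nlinarith, fun N => ?_⟩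
  have hbN : ∀ v ∈ range (N + 1), ∃ z₀ : ℕ, ∀ (z : ℕ) (Φ : ℕ → ℕ → PN) (g : ℕ → ℕ)
      (b : ℕ → ℝ), z₀ ≤ z → LBase K (n + 1) v Φ → Lad d z (fun i => d i) C₂ v (n + 1) Φ →
    (∀ i ≤ n, |(g i : ℝ) - d i * (v * z)| ≤ C₁ * z) →
    (∀ i ≤ n, |b i - eval b (Φ v i)| ≤ 2 / 2 ^ g i) →
    ∀ i ≤ n, |ac d (Φ v) b i| ≤ Real.exp (CB * z) * rd z v ^ d i := fun v _ => hbnd v
  choose! zb hzb using hbN
  obtain ⟨z₀, hz₀⟩ := hlad N
  refine ⟨max (max z₀ 1) ((range (N + 1)).sup zb), fun z v v' Φ g b hz hvv hvN hB hLad hg hb => ?_⟩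
  have hz1 : 1 ≤ z := (le_max_right z₀ 1).trans ((le_max_left _ _).trans hz)
  have hz0 : z₀ ≤ z := (le_max_left z₀ 1).trans ((le_max_left _ _).trans hz)
  have hvN' : v ≤ N := hvv.trans hvN
  have hzv : zb v ≤ z := (Finset.le_sup (f := zb) (mem_range.2 (by omega))).trans
    ((le_max_right _ _).trans hz)
  have hY := hzb v (mem_range.2 (by omega)) z Φ g b hzv
    ⟨fun k hk => hB.deg k (hk.trans hvN'), fun k hk => hB.tri k (hk.trans hvN'), hB.zero, hB.base⟩
    (fun k hk => hLad k (by omega)) hg hb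
  have hδ := (hz₀ z Φ (n + 1) hz0 le_rfl hB hLad).2 N le_rfl
  have htri : TriN (Φ N) := hB.tri N le_rfl
  have hρ := rd_pos z v
  have hzR : (1 : ℝ) ≤ z := by exact_mod_cast hz1
  set A : ℝ := Real.exp ((CL + CB) * z) with hAdef
  have hA1 : 1 ≤ A := Real.one_le_exp (by positivity)
  have hw : ∀ i ≤ n, |ac d (Φ N) b i| ≤ Real.exp (CW * z) * rd z v ^ d i := by
    intro i hi
    have key := tri_bound hd (D := D) (m := n + 1) hρ.le hA1 (ac d (Φ N) b)
      (ac d (Φ v) b) (fun i => bind₁ (adp d (Φ N)) (tinv (adp d (Φ v)) i) - X i)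
      (fun i _ => by
        have h1 := ac_ac hA h0 hd (Φ := Φ v) htri b i
        have h2 : ac d (Φ N) b i = ac d (Φ v) b i -
            eval (ac d (Φ N) b) (bind₁ (adp d (Φ N)) (tinv (adp d (Φ v)) i) - X i) := by
          rw [h1]
          ring
        conv_lhs => rw [h2]
        exact abs_sub _ _)
      (fun i hi => (hδ v hvN' i hi).1)
      (fun i hi => wb_of_trw (hδ v hvN' i hi).2.1 (hdD i (by omega)))
      (fun i hi => by
        have h3 := (hδ v hvN' i hi).2.2 v le_rfl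
        rw [lad_pow hd, ← pow_succ, Nat.sub_add_cancel (hd i)] at h3
        refine h3.trans (mul_le_mul_of_nonneg_right ?_ (by positivity))
        apply Real.exp_le_exp.2
        nlinarith)
      (fun i hi => by
        refine (hY i (by omega)).trans (mul_le_mul_of_nonneg_right ?_ (by positivity))
        apply Real.exp_le_exp.2
        nlinarith)
      i (by omega)
    refine key.trans (mul_le_mul_of_nonneg_right ?_ (by positivity))
    have h4 := pow_exp_le (C := CL + CB) hz1 (by positivity)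
      (Nat.pow_le_pow_right (show 1 ≤ D + 2 by omega) (show i + 1 ≤ n + 1 by omega))
    exact h4
  intro i hi
  have hD0 : (0 : ℝ) ≤ D := Nat.cast_nonneg _
  have hCC : CW ≤ CW * (D + 1) + CL := by nlinarith
  refine ⟨(hw i hi).trans (mul_le_mul_of_nonneg_right (Real.exp_le_exp.2
    (mul_le_mul_of_nonneg_right hCC (by positivity))) (by positivity)), ?_⟩
  rw [ac_ac hA h0 hd (Φ := Φ v') htri b i, add_sub_cancel_left]
  set B : ℝ := Real.exp (CW * z) with hBdef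
  have hB1 : 1 ≤ B := Real.one_le_exp (by positivity)
  have h5 : ∀ j ∈ (bind₁ (adp d (Φ N)) (tinv (adp d (Φ v')) i) - X i).vars,
      |ac d (Φ N) b j| ≤ (B * rd z v) ^ d j := by
    intro j hj
    have hji := mem_range.1 ((hδ v' hvN i (by omega)).1 hj)
    refine (hw j (by omega)).trans ?_
    rw [mul_pow]
    refine mul_le_mul_of_nonneg_right ?_ (by positivity)
    calc B = B ^ 1 := (pow_one _).symm
      _ ≤ B ^ d j := pow_le_pow_right₀ hB1 (hd j)
  refine (eval_le_nrm (by positivity) h5).trans ?_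
  refine (nrm_scale hρ.le hB1 (wb_of_trw (hδ v' hvN i (by omega)).2.1 (hdD i hi))).trans ?_
  have h6 := (hδ v' hvN i (by omega)).2.2 v hvv
  rw [lad_pow hd] at h6
  calc B ^ D * nrm d (rd z v) (bind₁ (adp d (Φ N)) (tinv (adp d (Φ v')) i) - X i)
      ≤ B ^ D * (Real.exp (CL * z) * (rd z v ^ (d i - 1) * rd z v')) :=
        mul_le_mul_of_nonneg_left h6 (by positivity)
    _ = (B ^ D * Real.exp (CL * z)) * (rd z v ^ (d i - 1) * rd z v') := by ring
    _ ≤ _ := by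
        refine mul_le_mul_of_nonneg_right ?_ (mul_nonneg (by positivity) (rd_pos z v').le)
        rw [hBdef, ← Real.exp_nat_mul, ← Real.exp_add]
        apply Real.exp_le_exp.2
        have h7 : 0 ≤ CW * (z : ℝ) := by positivity
        have h8 : (D : ℝ) * (CW * z) + CL * z = (CW * D + CL) * z := by ring
        rw [h8]
        exact mul_le_mul_of_nonneg_right (by nlinarith) (by positivity)

end Pool.STAT
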