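import Pool.Agent.H19.STAT.Cpt

/-!
# Row CPT: assembly
-/

set_option autoImplicit false

namespace Pool.STAT

open Finset MvPolynomial
open Pool.Agent.H49.Ent Pool.Agent.H32.Dense Pool.STK Pool.KS3
open Pool.BFL (Pl CB Pb P2 MC alt)

theorem tri_atT {Φ : ℕ → PN} (h : TriN Φ) (t : ℝ) : TriN (atT t Φ) := by
  intro i
  unfold atT
  by_cases hi : i = 0
  · subst hi
    rw [Function.update_self, vars_C]
    exact Finset.empty_subset _
  · rw [Function.update_of_ne hi]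
    exact h i

section Nuc

variable (hA : AdxStmt) {d : ℕ → ℕ} {Φ : ℕ → PN}

include hA in
theorem nuc_eq (h0 : d 0 = 1) (hd : ∀ i, 1 ≤ d i) (hΦ : TriN Φ) (g : ℕ → ℕ) (i : ℕ) :
    nuc g Φ i = bind₁ (nuc g Φ) (Φ i) + C (1 / (2 : ℝ) ^ g i) * X i :=
  ((hA.2 d Φ h0 hd hΦ).2.2.2.2.2.2.2 g).1 i

include hA in
theorem nuc_vars (h0 : d 0 = 1) (hd : ∀ i, 1 ≤ d i) (hΦ : TriN Φ) (g : ℕ → ℕ) (i : ℕ) :
    (nuc g Φ i).vars ⊆ range (i + 1) :=
  ((hA.2 d Φ h0 hd hΦ).2.2.2.2.2.2.2 g).2.1 i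

include hA in
theorem nuc_inv (h0 : d 0 = 1) (hd : ∀ i, 1 ≤ d i) (hΦ : TriN Φ) (g : ℕ → ℕ) (b : ℕ → ℝ)
    (i : ℕ) : eval (fun j => (2 : ℝ) ^ g j * (b j - eval b (Φ j))) (nuc g Φ i) = b i :=
  ((hA.2 d Φ h0 hd hΦ).2.2.2.2.2.2.2 g).2.2 b i

end Nuc

theorem ext_le {n : ℕ} {y : Fin n → ℝ} {R : ℝ} (hR : 0 ≤ R) (h : ∀ i, |y i| ≤ R) (j : ℕ) :
    |ext y j| ≤ R := by
  unfold ext
  split_ifs with hj
  · exact h _
  · rw [abs_zero]
    exact hR

namespace NDat

variable {D : NDat} {n K J z M : ℕ} {σ : ℕ → ℝ} {κ C₁ : ℝ} {q : D.Ω → ℝ}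

/-- The base of the ladder of a sample. -/
theorem lbase_Φs (hok : D.Ok n K J z M σ κ C₁ q) {ω : D.Ω} (hω : 0 < q ω) :
    LBase K (n + 1) (M + 1) (D.Φs M ω) := by
  have hΦ : ∀ k ≤ M, D.Φs M ω k = D.P k (D.c k ω) := fun k hk => if_pos hk
  have hR : ∀ k, ¬ k ≤ M → D.Φs M ω k = D.Rt ω := fun k hk => if_neg hk
  refine ⟨fun k hk i hi => ?_, fun k hk => ?_, fun i hi hin => ?_, ?_⟩
  · by_cases h : k ≤ M
    · rw [hΦ k h]
      exact hok.P_deg _ _ _
    · rw [hR k h]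
      unfold Rt atT
      by_cases hi0 : i = 0
      · subst hi0
        rw [Function.update_self, totalDegree_C]
        exact Nat.zero_le _
      · rw [Function.update_of_ne hi0]
        exact hok.R_deg _ _
  · by_cases h : k ≤ M
    · rw [hΦ k h]
      exact hok.P_tri _ _
    · rw [hR k h]
      exact tri_atT (hok.R_tri _) _
  · rw [hΦ 0 (Nat.zero_le _)]
    exact hok.P_zero _ _ hi
  · rw [hΦ 0 (Nat.zero_le _)]
    have h1 := const_of_vars (hok.P_tri 0 (D.c 0 ω) 0)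
    refine ⟨_, ?_, h1⟩
    have h2 := hok.hgt 0 (Nat.zero_le _) ω hω 0 (Nat.zero_le _)
    unfold rh at h2
    rw [h1, eval_C, hok.X_zero] at h2
    have h3 : (1 : ℝ) / 2 ^ D.g 0 0 ≤ 1 := by
      rw [div_le_one (by positivity)]
      exact one_le_pow₀ (by norm_num)
    have h4 : (D.T ω : ℝ) / 2 ^ J ≤ 1 := by
      rw [div_le_one (by positivity)]
      exact_mod_cast (hok.T_lt ω).le
    have h5 : 0 ≤ (D.T ω : ℝ) / 2 ^ J := by positivity
    have h6 := abs_le.1 (h2.trans h3)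
    exact abs_le.2 ⟨by linarith [h6.1, h6.2], by linarith [h6.1, h6.2]⟩

theorem cs_of_le {v' k : ℕ} (hk : k ≤ v') (ω : D.Ω) : D.cs v' ω k = D.c k ω := by
  unfold cs
  rw [Nat.min_eq_left hk]

/-- The blocks of typical samples are good. -/
theorem gb_of (hok : D.Ok n K J z M σ κ C₁ q) {d : ℕ → ℕ} (hσ : ∀ i, σ i = d i) {C₂ : ℝ}
    {v' : ℕ} (hv : v' ≤ M) {ω : D.Ω} (hω : 0 < q ω)
    (hJ : D.JG d z (fun i => d i) C₂ M n ω) : D.GB K d z C₁ C₂ v' n (D.cs v' ω) := by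
  have hΦ : ∀ k ≤ v', D.Φb (D.cs v' ω) k = D.Φs M ω k := by
    intro k hk
    unfold Φb Φs
    rw [if_pos (hk.trans hv), cs_of_le hk]
  have hB := lbase_Φs hok hω
  refine ⟨fun k hk i hi => ?_, ⟨fun k hk i hi => ?_, fun k hk => ?_, fun i hi hin => ?_, ?_⟩,
    fun k hk i hi => ?_⟩
  · rw [hΦ k hk.le, hΦ (k + 1) (by omega)]
    exact hJ k (by omega) i hi
  · rw [hΦ k hk]
    exact hB.deg k (by omega) i hi
  · rw [hΦ k hk]
    exact hB.tri k (by omega)
  · rw [hΦ 0 (Nat.zero_le _)]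
    exact hB.zero i hi hin
  · rw [hΦ 0 (Nat.zero_le _)]
    exact hB.base
  · have := hok.hom k (hk.trans hv) i hi
    rw [hσ i] at this
    exact this

/-- The points of the natural box. -/
theorem ab_box (hA : AdxStmt) {d : ℕ → ℕ} (h0 : d 0 = 1) (hd : ∀ i, 1 ≤ d i) (v : ℕ)
    {x : ℕ → D.Γ} (ht : TriN (D.P v (x v))) {y : Fin n → ℝ} (hy : ∀ i, |y i| ≤ 2) (i : ℕ) :
    |D.ab v x y i - eval (D.ab v x y) (D.P v (x v) i)| ≤ 2 / 2 ^ D.g v i := by
  have h1 := nuc_eq hA h0 hd ht (D.g v) i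
  have h2 : D.ab v x y i = eval (D.ab v x y) (D.P v (x v) i) + 1 / 2 ^ D.g v i * ext y i := by
    have h3 : D.ab v x y i = eval (ext y) (nuc (D.g v) (D.P v (x v)) i) := rfl
    rw [h3, h1, map_add, map_mul, eval_C, eval_X, eval_bind]
    rfl
  rw [h2, add_sub_cancel_left, abs_mul, abs_of_pos (by positivity)]
  have h3 := ext_le (by norm_num) hy i
  calc 1 / (2 : ℝ) ^ D.g v i * |ext y i| ≤ 1 / 2 ^ D.g v i * 2 :=
        mul_le_mul_of_nonneg_left h3 (by positivity)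
    _ = 2 / 2 ^ D.g v i := by ring

/-- The sample in natural coordinates. -/
theorem ab_pT (hA : AdxStmt) {d : ℕ → ℕ} (h0 : d 0 = 1) (hd : ∀ i, 1 ≤ d i) {v v' : ℕ}
    (hv : v ≤ v') (ω : D.Ω) (ht : TriN (D.P v (D.c v ω))) {j : ℕ} (hj : j < n) :
    D.ab v (D.cs v' ω) (D.pT v ω : Fin n → ℝ) j = D.X ω j := by
  have h3 : D.ab v (D.cs v' ω) (D.pT v ω : Fin n → ℝ) j =
      eval (ext (D.pT v ω : Fin n → ℝ)) (nuc (D.g v) (D.P v (D.c v ω)) j) := by
    unfold ab
    rw [cs_of_le hv]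
  rw [h3, ← nuc_inv hA h0 hd ht (D.g v) (D.X ω) j]
  refine eval_congr_vars fun l hl => ?_
  have hl1 := mem_range.1 (nuc_vars hA h0 hd ht (D.g v) j hl)
  have hl2 : l < n := by omega
  unfold ext
  rw [dif_pos hl2]
  rfl

end NDat

/-- **Row 115, CPT.** -/
theorem cpt_of (hA : AdxStmt) (hD : DgbStmt) (hL : LadStmt) : CptStmt := by
  intro n K d C₁ C₂ h0 hd hC₁ hC₂
  obtain ⟨CB, hCB, hbnd⟩ := bnd hA hD hL n K d C₁ C₂ h0 hd hC₁ hC₂
  obtain ⟨CM, hCM, hcmp⟩ := cmp_line hA hD hL n K d C₁ C₂ h0 hd hC₁ hC₂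
  refine ⟨CB + CM, by linarith, fun U M => ?_⟩
  have hbN : ∀ v ∈ range (M + 1), ∃ z₀ : ℕ, ∀ (z : ℕ) (Φ : ℕ → ℕ → PN) (g : ℕ → ℕ)
      (b : ℕ → ℝ), z₀ ≤ z → LBase K (n + 1) v Φ → Lad d z (fun i => d i) C₂ v (n + 1) Φ →
    (∀ i ≤ n, |(g i : ℝ) - d i * (v * z)| ≤ C₁ * z) →
    (∀ i ≤ n, |b i - eval b (Φ v i)| ≤ 2 / 2 ^ g i) →
    ∀ i ≤ n, |ac d (Φ v) b i| ≤ Real.exp (CB * z) * rd z v ^ d i := fun v _ => hbnd v
  choose! zb hzb using hbN
  obtain ⟨z₁, hz₁⟩ := hcmp (M + 1)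
  refine ⟨max z₁ ((range (M + 1)).sup zb), fun J z k κ D q hz hok hk ω hω hJ => ?_⟩
  set v : ℕ := k + U with hv
  set v' : ℕ := k + 3 * U with hv'
  have hvv : v ≤ v' := by omega
  have hv'M : v' ≤ M := hk
  have hzz : z₁ ≤ z := (le_max_left _ _).trans hz
  have hzv : zb v' ≤ z := (Finset.le_sup (f := zb) (mem_range.2 (by omega))).trans
    ((le_max_right _ _).trans hz)
  set Φ := D.Φs M ω with hΦ
  have hB : LBase K (n + 1) (M + 1) Φ := NDat.lbase_Φs hok hω
  have hΦv : ∀ l ≤ M, Φ l = D.P l (D.c l ω) := fun l hl => if_pos hl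
  have hΦR : Φ (M + 1) = D.Rt ω := if_neg (by omega)
  have hGB : D.GB K d z C₁ C₂ v' n (D.cs v' ω) := NDat.gb_of hok (fun _ => rfl) hv'M hω hJ
  have htv : TriN (D.P v (D.c v ω)) := hok.P_tri _ _
  have htv' : TriN (D.P v' (D.c v' ω)) := hok.P_tri _ _
  have hcs' : D.cs v' ω v' = D.c v' ω := NDat.cs_of_le le_rfl ω
  have hcs : D.cs v' ω v = D.c v ω := NDat.cs_of_le hvv ω
  have hz0R : (0 : ℝ) ≤ z := Nat.cast_nonneg _
  -- the units
  have hun : ∀ e : ℕ, 1 ≤ e → (2 : ℝ) ^ (e * (v * z)) * rd z v' ^ e ≤ 1 / 2 ^ (U * z) := by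
    intro e he
    unfold rd
    rw [one_div, inv_pow, ← div_eq_mul_inv, div_le_div_iff₀ (by positivity) (by positivity),
      one_mul, ← pow_mul, ← pow_add]
    apply pow_le_pow_right₀ (by norm_num)
    have h1 : v' * z = v * z + 2 * U * z := by
      rw [hv, hv']
      ring
    have h2 : U * z ≤ e * (2 * U * z) := by nlinarith [Nat.zero_le (U * z)]
    calc e * (v * z) + U * z ≤ e * (v * z) + e * (2 * U * z) := by omega
      _ = v' * z * e := by rw [h1]; ring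
  have hun2 : ∀ e : ℕ, 1 ≤ e → (2 : ℝ) ^ (e * (v * z)) * (rd z v ^ (e - 1) * rd z v') ≤
      1 / 2 ^ (U * z) := by
    intro e he
    have h3 : (2 : ℝ) ^ (e * (v * z)) * (rd z v ^ (e - 1) * rd z v') =
        (2 : ℝ) ^ (1 * (v * z)) * rd z v' ^ 1 := by
      obtain ⟨f, rfl⟩ : ∃ f, e = f + 1 := ⟨e - 1, by omega⟩
      unfold rd
      rw [Nat.add_sub_cancel, one_mul, pow_one, add_mul, pow_add, one_mul, one_div_pow,
        ← pow_mul, mul_comm f (v * z)]
      field_simp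
    rw [h3]
    exact hun 1 le_rfl
  refine ⟨hGB, ⟨fun i => ?_, ?_⟩, fun y hy => ?_⟩
  · -- own, base coordinates
    have h1 := hzb v' (mem_range.2 (by omega)) z Φ (D.g v') (D.X ω) hzv
      ⟨fun l hl => hB.deg l (by omega), fun l hl => hB.tri l (by omega), hB.zero, hB.base⟩
      (fun l hl => hJ l (by omega)) (fun i hi => hok.hom v' hv'M i hi)
      (fun i hi => by
        rw [hΦv v' hv'M]
        have := hok.hgt v' hv'M ω hω i hi
        refine this.trans ?_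
        exact div_le_div_of_nonneg_right (by norm_num) (by positivity)) i i.2.le
    have h2 : D.thT K d z C₁ C₂ v v' (D.cs v' ω) (D.pT v ω : Fin n → ℝ) i =
        (2 : ℝ) ^ (d i * (v * z)) * ac d (Φ v') (D.X ω) i := by
      unfold NDat.thT
      rw [if_pos hGB, hcs', hΦv v' hv'M]
      unfold ac
      congr 1
      refine eval_congr_vars fun l hl => ?_
      have := mem_range.1 (tinv_vars' hA h0 hd htv' i hl)
      exact NDat.ab_pT hA h0 hd hvv ω htv (by omega)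
    rw [h2, abs_mul, abs_of_pos (by positivity)]
    calc (2 : ℝ) ^ (d i * (v * z)) * |ac d (Φ v') (D.X ω) i|
        ≤ 2 ^ (d i * (v * z)) * (Real.exp (CB * z) * rd z v' ^ d i) :=
          mul_le_mul_of_nonneg_left h1 (by positivity)
      _ = Real.exp (CB * z) * (2 ^ (d i * (v * z)) * rd z v' ^ d i) := by ring
      _ ≤ Real.exp (CB * z) * (1 / 2 ^ (U * z)) :=
          mul_le_mul_of_nonneg_left (hun (d i) (hd i)) (Real.exp_pos _).le
      _ ≤ Real.exp ((CB + CM) * z) * (1 / 2 ^ (U * z)) := by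
          refine mul_le_mul_of_nonneg_right (Real.exp_le_exp.2 ?_) (by positivity)
          exact mul_le_mul_of_nonneg_right (by linarith) hz0R
      _ = _ := by ring
  · -- own, height
    have h1 := hzb v' (mem_range.2 (by omega)) z Φ (D.g v') (D.X ω) hzv
      ⟨fun l hl => hB.deg l (by omega), fun l hl => hB.tri l (by omega), hB.zero, hB.base⟩
      (fun l hl => hJ l (by omega)) (fun i hi => hok.hom v' hv'M i hi)
      (fun i hi => by
        rw [hΦv v' hv'M]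
        have := hok.hgt v' hv'M ω hω i hi
        refine this.trans ?_
        exact div_le_div_of_nonneg_right (by norm_num) (by positivity)) n le_rfl
    have h2 : D.pN d z v n ω - D.shN K d z C₁ C₂ v v' (D.cs v' ω) (D.pT v ω : Fin n → ℝ) =
        (2 : ℝ) ^ (d n * (v * z)) * ac d (Φ v') (D.X ω) n := by
      unfold NDat.shN
      rw [if_pos hGB, hcs', hcs, hΦv v' hv'M]
      have h3 : eval (D.ab v (D.cs v' ω) (D.pT v ω : Fin n → ℝ))
          (X n - tinv (adp d (D.P v' (D.c v' ω))) n - D.P v (D.c v ω) n) =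
          eval (D.X ω) (X n - tinv (adp d (D.P v' (D.c v' ω))) n - D.P v (D.c v ω) n) := by
        refine eval_congr_vars fun l hl => ?_
        refine NDat.ab_pT hA h0 hd hvv ω htv ?_
        classical
        rcases Finset.mem_union.1 (vars_sub_subset _ hl) with h4 | h4
        · have h5 : X n - tinv (adp d (D.P v' (D.c v' ω))) n =
              -(tinv (adp d (D.P v' (D.c v' ω))) n - X n) := by ring
          rw [h5, vars_neg] at h4
          exact mem_range.1 (tinv_vars hA h0 hd htv' n h4)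
        · exact mem_range.1 (htv n h4)
      rw [h3, map_sub, map_sub, eval_X]
      unfold NDat.pN NDat.rh ac
      ring
    rw [h2, abs_mul, abs_of_pos (by positivity)]
    calc (2 : ℝ) ^ (d n * (v * z)) * |ac d (Φ v') (D.X ω) n|
        ≤ 2 ^ (d n * (v * z)) * (Real.exp (CB * z) * rd z v' ^ d n) :=
          mul_le_mul_of_nonneg_left h1 (by positivity)
      _ = Real.exp (CB * z) * (2 ^ (d n * (v * z)) * rd z v' ^ d n) := by ring
      _ ≤ Real.exp (CB * z) * (1 / 2 ^ (U * z)) :=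
          mul_le_mul_of_nonneg_left (hun (d n) (hd n)) (Real.exp_pos _).le
      _ ≤ Real.exp ((CB + CM) * z) * (1 / 2 ^ (U * z)) := by
          refine mul_le_mul_of_nonneg_right (Real.exp_le_exp.2 ?_) (by positivity)
          exact mul_le_mul_of_nonneg_right (by linarith) hz0R
      _ = _ := by ring
  · -- comparison
    have hcmp1 := hz₁ z v v' Φ (D.g v) (D.ab v (D.cs v' ω) y) hzz hvv (by omega) hB hJ
      (fun i hi => hok.hom v (by omega) i hi)
      (fun i hi => by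
        rw [hΦv v (by omega), ← hcs]
        exact NDat.ab_box hA h0 hd v (by rw [hcs]; exact htv) hy i)
    have hfin : ∀ e i : ℕ, e = d i → i ≤ n →
        (2 : ℝ) ^ (e * (v * z)) * |ac d (Φ v') (D.ab v (D.cs v' ω) y) i -
          ac d (Φ (M + 1)) (D.ab v (D.cs v' ω) y) i| ≤
        Real.exp ((CB + CM) * z) / 2 ^ (U * z) := by
      intro e i he hi
      subst he
      calc (2 : ℝ) ^ (d i * (v * z)) * |ac d (Φ v') (D.ab v (D.cs v' ω) y) i -
            ac d (Φ (M + 1)) (D.ab v (D.cs v' ω) y) i|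
          ≤ 2 ^ (d i * (v * z)) * (Real.exp (CM * z) * (rd z v ^ (d i - 1) * rd z v')) :=
            mul_le_mul_of_nonneg_left (hcmp1 i hi).2 (by positivity)
        _ = Real.exp (CM * z) * (2 ^ (d i * (v * z)) * (rd z v ^ (d i - 1) * rd z v')) := by
            ring
        _ ≤ Real.exp (CM * z) * (1 / 2 ^ (U * z)) :=
            mul_le_mul_of_nonneg_left (hun2 (d i) (hd i)) (Real.exp_pos _).le
        _ ≤ Real.exp ((CB + CM) * z) * (1 / 2 ^ (U * z)) := by
            refine mul_le_mul_of_nonneg_right (Real.exp_le_exp.2 ?_) (by positivity)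
            exact mul_le_mul_of_nonneg_right (by linarith) hz0R
        _ = _ := by ring
    refine ⟨fun i => ?_, ?_⟩
    · refine le_trans (le_of_eq ?_) (hfin (d i) i rfl i.2.le)
      unfold NDat.thT
      rw [if_pos hGB, hcs', ← mul_sub, abs_mul, abs_of_pos (by positivity), hΦR,
        hΦv v' hv'M]
      rfl
    · refine le_trans (le_of_eq ?_) (hfin (d n) n rfl le_rfl)
      unfold NDat.shN
      rw [if_pos hGB, hcs', hcs, ← mul_sub, abs_mul, abs_of_pos (by positivity), hΦR,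
        hΦv v' hv'M, abs_sub_comm (ac _ _ _ _)]
      congr 2
      simp only [map_sub, eval_X]
      unfold ac
      ring

end Pool.STAT
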