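import Pool.Agent.H35.TMU.Tmu

/-!
# Sub-cells

`D.sub J z w₀ i₀ j₀ N`: the cell with the pairs `(i₀ + N i, j₀ + N j)`, of mesh `N z`. The line of
the sub-cell is the line with its window of length `2 ^ (-(w₀ + j₀ z))`. All the axioms pass to the
sub-cell, a new label of the sub-cell is a new label of the cell.
-/

set_option autoImplicit false

namespace Pool.STAT

open Finset MvPolynomial
open Pool.Agent.H49.Ent Pool.Agent.H32.Dense Pool.STK Pool.KS3
open Pool.BFL (Pb P2)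

namespace NDat2

/-- The sub-cell. -/
def sub (D : NDat2) (J w₁ i₀ j₀ N : ℕ) : NDat2 where
  Ω := D.Ω
  Λ := D.Λ × ℕ
  Γ := D.Γ
  Ξ := D.Ξ
  S := D.S
  fin := D.fin
  ln := D.wn J w₁
  pt := D.pt
  T := D.T
  X := D.X
  pa := fun x => D.pa x.1
  c := fun i j => D.c (i₀ + N * i) (j₀ + N * j)
  P := fun i j => D.P (i₀ + N * i) (j₀ + N * j)
  s := fun i j => D.s (i₀ + N * i) (j₀ + N * j)
  G := fun i j => D.G (i₀ + N * i) (j₀ + N * j)
  g := fun i j => D.g (i₀ + N * i) (j₀ + N * j)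

variable {D : NDat2} {q : D.Ω → ℝ}

/-- Steps of length `N`. -/
theorem det_steps {Γ : Type} {f : ℕ → D.Ω → Γ} {k M : ℕ}
    (h : ∀ m, m < M → Det q (f (k + (m + 1))) (f (k + m))) :
    ∀ N, N ≤ M → Det q (f (k + N)) (f k) := by
  intro N
  induction N with
  | zero => exact fun _ ω ω' _ _ h => h
  | succ N ih =>
    intro hN ω ω' h1 h2 h3
    exact ih (by omega) ω ω' h1 h2 (h N (by omega) ω ω' h1 h2 h3)

theorem few_steps {Γ : Type} (hq : IsLaw q) {f : ℕ → D.Ω → Γ} {k M : ℕ} {a : ℝ}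
    (h : ∀ m, m < M → CH q (f (k + (m + 1))) (f (k + m)) ≤ a) :
    ∀ N, N ≤ M → CH q (f (k + N)) (f k) ≤ N * a := by
  intro N
  induction N with
  | zero =>
    intro _
    have h1 : CH q (f (k + 0)) (f k) = 0 := CH_eq_zero hq.nonneg fun _ _ _ _ h => h
    rw [h1]
    simp
  | succ N ih =>
    intro hN
    have h1 := ih (by omega)
    have h2 := h N (by omega)
    have h3 := CH_le_add hq.nonneg (f (k + (N + 1))) (f (k + N)) (f k)
    have h4 : CH q (f (k + (N + 1))) (fun ω => (f (k + N) ω, f k ω)) ≤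
        CH q (f (k + (N + 1))) (f (k + N)) :=
      CH_mono_cond hq.nonneg fun _ _ _ _ h => (Prod.ext_iff.1 h).1
    push_cast
    linarith

/-- The pairs of the sub-cell. -/
theorem sub_le {i₀ N M' M i : ℕ} (hi : i₀ + N * (M' + 1) ≤ M) (h : i ≤ M') :
    i₀ + N * i ≤ M ∧ (i < M' → i₀ + N * i + N ≤ M) := by
  have h1 := Nat.mul_le_mul_left N h
  refine ⟨by nlinarith, fun h' => ?_⟩
  have h2 : N * i + N ≤ N * M' := by
    have := Nat.mul_le_mul_left N h'
    rw [Nat.mul_succ] at this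
    exact this
  nlinarith

/-- **The axioms of a sub-cell.** -/
theorem Ok2.sub {n K J a₀ w₀ z M : ℕ} {lam gam : ℕ → ℝ} {κ κ' C₁ C₁' : ℝ}
    (h : D.Ok2 n K J a₀ w₀ z M lam gam κ C₁ q) {i₀ j₀ N M' : ℕ} (hN : 1 ≤ N)
    (hi : i₀ + N * (M' + 1) ≤ M) (hj : j₀ + N * (M' + 1) ≤ M) (hκ : κ ≤ κ' * N) (hC : 0 ≤ C₁)
    (hC1 : C₁ ≤ C₁') (hC2 : 2 * C₁ ≤ C₁' * N) :
    (D.sub J (w₀ + j₀ * z) i₀ j₀ N).Ok2 n K J (a₀ + i₀ * z) (w₀ + j₀ * z) (N * z) M' lam gam κ'
      C₁' q := by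
  have hz0 : (0 : ℝ) ≤ z := Nat.cast_nonneg z
  have hN' : (1 : ℝ) ≤ N := by exact_mod_cast hN
  have hzN : (z : ℝ) ≤ N * z := le_mul_of_one_le_left hz0 hN'
  have hC' : 0 ≤ C₁' := hC.trans hC1
  have hCN : 2 * C₁ * z ≤ C₁' * (N * z) := by
    have := mul_le_mul_of_nonneg_right hC2 hz0
    linarith
  have hCN1 : C₁ * (N * z) ≤ C₁' * (N * z) :=
    mul_le_mul_of_nonneg_right hC1 (by positivity)
  have hC0 : 0 ≤ C₁ * (z : ℝ) := mul_nonneg hC hz0
  have hwin : ∀ j, w₀ + j₀ * z + j * (N * z) = w₀ + (j₀ + N * j) * z := fun j => by ring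
  have hrad : ∀ i, a₀ + i₀ * z + i * (N * z) = a₀ + (i₀ + N * i) * z := fun i => by ring
  have hMz : (i₀ + N * (M' + 1)) * z ≤ M * z := Nat.mul_le_mul_right z hi
  have hMz' : (j₀ + N * (M' + 1)) * z ≤ M * z := Nat.mul_le_mul_right z hj
  have hthin := h.thin
  have htop := h.top
  refine
    { isLaw := h.isLaw
      thin := ?_
      top := ?_
      T_lt := h.T_lt
      X_zero := h.X_zero
      pt_T := h.pt_T
      pt_X := h.pt_X
      str := h.str
      pa_deg := fun x l => h.pa_deg x.1 l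
      ln_w := fun _ _ _ _ e => (Prod.ext_iff.1 e).2
      c_wn := ?_
      c_i := ?_
      c_ij := ?_
      i_few := ?_
      ij_few := ?_
      c_T := ?_
      P_deg := fun i j x l => h.P_deg _ _ x l
      P_tri := fun i j x => h.P_tri _ _ x
      s_pt := fun i hi' j hj' => h.s_pt _ (sub_le hi hi').1 _ (sub_le hj hj').1
      s_c := fun i hi' j hj' => h.s_c _ (sub_le hi hi').1 _ (sub_le hj hj').1
      G_deg := fun i j x l => h.G_deg _ _ x l
      G_tri := fun i j x => h.G_tri _ _ x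
      net := ?_
      lam_ge := h.lam_ge
      gam_ge := h.gam_ge
      g_zero := ?_
      hom := ?_
      g_ge := ?_
      g_le := ?_
      hgt := fun i hi' j hj' => h.hgt _ (sub_le hi hi').1 _ (sub_le hj hj').1
      pos := fun i hi' j hj' => h.pos _ (sub_le hi hi').1 _ (sub_le hj hj').1
      agr := ?_
      full := ?_ }
  · nlinarith
  · nlinarith
  · intro i hi' j hj' ω ω' h1 h2 e
    refine h.c_wn _ (sub_le hi hi').1 _ (sub_le hj hj').1 ω ω' h1 h2 ?_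
    have e1 := (Prod.ext_iff.1 (Prod.ext_iff.1 e).1).1
    have e2 := (Prod.ext_iff.1 e).2
    rw [hwin j] at e2
    exact Prod.ext e1 e2
  · intro i hi' j hj'
    have hb := (sub_le hi hi'.le).2 hi'
    have := det_steps (D := D) (q := q) (f := fun k => D.c k (j₀ + N * j)) (k := i₀ + N * i)
      (M := N) (fun m hm => h.c_i (i₀ + N * i + m) (by omega) _ (sub_le hj hj').1) N le_rfl
    change Det q (D.c (i₀ + N * (i + 1)) (j₀ + N * j)) _
    rw [Nat.mul_succ, ← add_assoc]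
    exact this
  · intro i hi' j hj'
    have hb := (sub_le hi hi'.le).2 hi'
    have hb' := (sub_le hj hj'.le).2 hj'
    have := det_steps (D := D) (q := q)
      (f := fun k => D.c (i₀ + N * i + k) (j₀ + N * j + k)) (k := 0)
      (M := N) (fun m hm => by
        rw [zero_add, zero_add]
        exact h.c_ij (i₀ + N * i + m) (by omega) (j₀ + N * j + m) (by omega)) N le_rfl
    simp only [zero_add, add_zero] at this
    change Det q (D.c (i₀ + N * (i + 1)) (j₀ + N * (j + 1))) _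
    rw [Nat.mul_succ, ← add_assoc, Nat.mul_succ, ← add_assoc]
    exact this
  · intro i hi' j hj'
    have hb := (sub_le hi hi'.le).2 hi'
    have := few_steps (D := D) h.isLaw (f := fun k => D.c k (j₀ + N * j)) (k := i₀ + N * i)
      (M := N) (fun m hm => h.i_few (i₀ + N * i + m) (by omega) _ (sub_le hj hj').1) N le_rfl
    change CH q (D.c (i₀ + N * (i + 1)) (j₀ + N * j)) _ ≤ _
    rw [Nat.mul_succ, ← add_assoc]
    refine this.trans ?_
    push_cast
    linarith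
  · intro i hi' j hj'
    have hb := (sub_le hi hi'.le).2 hi'
    have hb' := (sub_le hj hj'.le).2 hj'
    have := few_steps (D := D) h.isLaw
      (f := fun k => D.c (i₀ + N * i + k) (j₀ + N * j + k)) (k := 0)
      (M := N) (a := C₁ * z) (fun m hm => by
        rw [zero_add, zero_add]
        exact h.ij_few (i₀ + N * i + m) (by omega) (j₀ + N * j + m) (by omega)) N le_rfl
    simp only [zero_add, add_zero] at this
    change CH q (D.c (i₀ + N * (i + 1)) (j₀ + N * (j + 1))) _ ≤ _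
    rw [Nat.mul_succ, ← add_assoc, Nat.mul_succ, ← add_assoc]
    refine this.trans ?_
    push_cast
    linarith
  · intro i hi' j hj'
    rw [hwin j]
    exact h.c_T _ (sub_le hi hi').1 _ (sub_le hj hj').1
  · intro i hi' j hj' C hC0 Y y hy hb
    have := h.net _ (sub_le hi hi').1 _ (sub_le hj hj').1 (C * N) (by positivity) Y y hy
      fun ω ω' h1 h2 e l l1 l2 b hB => by
        have h3 := hb ω ω' h1 h2 e l l1 l2 b (by
          rw [hrad i]
          exact hB)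
        have e1 : C * ((N * z : ℕ) : ℝ) = C * N * z := by
          push_cast
          ring
        rw [e1] at h3
        exact h3
    refine this.trans ?_
    push_cast
    have e2 : C₁ * (C * N + 1) * z ≤ C₁ * ((C + 1) * N) * z := by
      refine mul_le_mul_of_nonneg_right (mul_le_mul_of_nonneg_left ?_ hC) hz0
      nlinarith
    have e3 : C₁ * ((C + 1) * N) * z ≤ C₁' * ((C + 1) * N) * z :=
      mul_le_mul_of_nonneg_right (mul_le_mul_of_nonneg_right hC1 (by positivity)) hz0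
    linarith
  · intro i j
    rw [hwin j]
    exact h.g_zero _ _
  · intro i hi' j hj' l l1 l2
    have h1 := h.hom _ (sub_le hi hi').1 _ (sub_le hj hj').1 l l1 l2
    have h2 := h.hom _ (sub_le hi (Nat.zero_le M')).1 _ (sub_le hj (Nat.zero_le M')).1 l l1 l2
    change |(D.g (i₀ + N * i) (j₀ + N * j) l : ℝ) - D.g (i₀ + N * 0) (j₀ + N * 0) l -
      (lam l * i + gam l * j) * ((N * z : ℕ) : ℝ)| ≤ _
    rw [abs_le] at h1 h2 ⊢
    push_cast at h1 h2 ⊢
    constructor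
    · linarith [h1.1, h2.2]
    · linarith [h1.2, h2.1]
  · intro i hi' j hj' l l1 l2
    have h1 := h.g_ge _ (sub_le hi hi').1 _ (sub_le hj hj').1 l l1 l2
    change _ ≤ (D.g (i₀ + N * i) (j₀ + N * j) l : ℝ) + _
    push_cast at h1 ⊢
    linarith
  · intro i hi' j hj' l l1 l2
    have h1 := h.g_le _ (sub_le hi hi').1 _ (sub_le hj hj').1 l l1 l2
    change D.g (i₀ + N * i) (j₀ + N * j) l + M' * (N * z) ≤ J
    have h3 : M' * (N * z) ≤ M * z := by
      have : N * M' ≤ M := by nlinarith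
      calc M' * (N * z) = N * M' * z := by ring
        _ ≤ M * z := Nat.mul_le_mul_right z this
    omega
  · intro i hi' j hj' ω hω l l1 l2 b hB
    refine h.agr _ (sub_le hi hi').1 _ (sub_le hj hj').1 ω hω l l1 l2 b ?_
    rw [hrad i] at hB
    exact hB
  · intro i hi' j hj' U hU
    have h0 : i₀ + N * i + N * U ≤ M := by
      have := Nat.mul_le_mul_left N hU
      nlinarith
    have h1 := h.full _ (sub_le hi hi').1 _ (sub_le hj hj').1 (N * U) h0
    change _ ≤ CH q (D.vd n (i₀ + N * i) (j₀ + N * j) (U * (N * z))) _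
    have e1 : U * (N * z) = N * U * z := by ring
    rw [e1]
    have h3 : κ * (z : ℝ) ≤ κ' * N * z := mul_le_mul_of_nonneg_right hκ hz0
    refine le_trans ?_ h1
    push_cast
    linarith

/-- Nonfull rows in the sub-cell. -/
theorem NF.sub {n z M B : ℕ} {gam : ℕ → ℝ} {h C₁ C₁' ϖ : ℝ} (hF : D.NF n z M B gam h C₁ ϖ q)
    (J w₁ : ℕ) {i₀ j₀ N M' : ℕ} (hi : i₀ + N * (M' + 1) ≤ M)
    (hj : j₀ + N * (M' + 1) ≤ M) (hg : 0 ≤ gam n) (hC : C₁ ≤ C₁' * N) :
    (D.sub J w₁ i₀ j₀ N).NF n (N * z) M' B gam h C₁' ϖ q := by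
  have hz0 : (0 : ℝ) ≤ z := Nat.cast_nonneg z
  have hN0 : (0 : ℝ) ≤ N := Nat.cast_nonneg N
  intro i hi' j hj' r U h1 h2 E hE
  have h0 : i₀ + N * i + N * r + N * U ≤ M := by
    have := Nat.mul_le_mul_left N h1
    nlinarith
  have h3 : ((N * r : ℕ) : ℝ) + ((N * U : ℕ) : ℝ) ≤ gam n * (M - ((j₀ + N * j : ℕ) : ℝ)) := by
    have h4 : (j₀ : ℝ) + N * (M' + 1) ≤ M := by exact_mod_cast hj
    push_cast
    have h5 : (N : ℝ) * (r + U) ≤ N * (gam n * (M' - j)) :=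
      mul_le_mul_of_nonneg_left h2 hN0
    have h6 : (N : ℝ) * (gam n * (M' - j)) = gam n * (N * (M' - j)) := by ring
    have h7 : gam n * (N * (M' - j)) ≤ gam n * (M - (j₀ + N * j)) :=
      mul_le_mul_of_nonneg_left (by nlinarith) hg
    linarith
  have h4 := hF _ (sub_le hi hi').1 _ (sub_le hj hj').1 (N * r) (N * U) h0 h3 E hE
  have e1 : (N * r + N * U) * z = (r + U) * (N * z) := by ring
  have e2 : N * r * z = r * (N * z) := by ring
  rw [e1, e2] at h4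
  refine h4.trans ?_
  push_cast
  have h5 : C₁ * (z : ℝ) ≤ C₁' * N * z := mul_le_mul_of_nonneg_right hC hz0
  linarith

/-- Uniform time in the sub-cell. -/
theorem TmU.sub {J w₀ z : ℕ} {κ κ' : ℝ} (h : D.TmU J w₀ z κ q) (hq : IsLaw q)
    (hln : Det q D.ln (fun ω => D.T ω / 2 ^ (J - w₀))) {j₀ N : ℕ} (i₀ : ℕ)
    (hκ : κ ≤ κ' * N) (hJ : w₀ + j₀ * z ≤ J) :
    (D.sub J (w₀ + j₀ * z) i₀ j₀ N).TmU J (w₀ + j₀ * z) (N * z) κ' q := by
  have hz0 : (0 : ℝ) ≤ z := Nat.cast_nonneg z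
  have h1 := Pool.TMU.CH_low hq D.T D.ln (Nat.le_add_right w₀ (j₀ * z)) hJ hln h
  change _ ≤ CH q D.T (D.wn J (w₀ + j₀ * z))
  refine le_trans ?_ h1
  have h5 : κ * (z : ℝ) ≤ κ' * N * z := mul_le_mul_of_nonneg_right hκ hz0
  push_cast
  linarith

/-- The windows of the sub-cell. -/
theorem wn_sub {J w₁ w : ℕ} (i₀ j₀ N : ℕ) (h : w₁ ≤ w) (hJ : w ≤ J) (ω : D.Ω) :
    (D.sub J w₁ i₀ j₀ N).wn J w ω =
      (((D.wn J w ω).1, (D.wn J w ω).2 / 2 ^ (w - w₁)), (D.wn J w ω).2) := by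
  have e : D.T ω / 2 ^ (J - w₁) = D.T ω / 2 ^ (J - w) / 2 ^ (w - w₁) :=
    Pool.TMU.win_div _ h hJ
  change ((D.ln ω, D.T ω / 2 ^ (J - w₁)), D.T ω / 2 ^ (J - w)) = _
  rw [e]
  rfl

theorem wn_det {J w₁ w : ℕ} (i₀ j₀ N : ℕ) (h : w₁ ≤ w) (hJ : w ≤ J) :
    Det q (D.wn J w) ((D.sub J w₁ i₀ j₀ N).wn J w) := by
  intro ω ω' _ _ e
  rw [wn_sub i₀ j₀ N h hJ, wn_sub i₀ j₀ N h hJ, e]

theorem wn_det' {J w₁ w : ℕ} (i₀ j₀ N : ℕ) :
    Det q ((D.sub J w₁ i₀ j₀ N).wn J w) (D.wn J w) := by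
  intro ω ω' _ _ e
  exact Prod.ext (Prod.ext_iff.1 (Prod.ext_iff.1 e).1).1 (Prod.ext_iff.1 e).2

/-- Live time in the sub-cell. -/
theorem TmL.sub {J w₀ z M k' : ℕ} {κ κ' εT ϖ : ℝ} (h : D.TmL J w₀ z M k' κ εT ϖ q)
    (hq : IsLaw q) {i₀ j₀ N M' : ℕ} (hi : i₀ + N * (M' + 1) ≤ M)
    (hj : j₀ + N * (M' + 1) ≤ M) (hκ : κ ≤ κ' * N) (hJ : w₀ + 2 * (M * z) ≤ J)
    (hcT : ∀ i ≤ M, ∀ j ≤ M, Det q (D.c i j) (fun ω => D.T ω / 2 ^ (J - (w₀ + j * z)))) :
    (D.sub J (w₀ + j₀ * z) i₀ j₀ N).TmL J (w₀ + j₀ * z) (N * z) M' k' κ' εT ϖ q := by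
  have hz0 : (0 : ℝ) ≤ z := Nat.cast_nonneg z
  have h5 : κ * (z : ℝ) ≤ κ' * N * z := mul_le_mul_of_nonneg_right hκ hz0
  have hMz' : (j₀ + N * (M' + 1)) * z ≤ M * z := Nat.mul_le_mul_right z hj
  have hwin : ∀ j, w₀ + j₀ * z + j * (N * z) = w₀ + (j₀ + N * j) * z := fun j => by ring
  refine ⟨?_, ?_⟩
  · intro i hi' j hj'
    have h1 := h.ti _ (sub_le hi hi').1 _ (sub_le hj hj').1
    change CH q D.T (D.c (i₀ + N * i) (j₀ + N * j)) ≤
      CH q D.T (fun ω => (D.wn J (w₀ + j₀ * z) ω, D.c (i₀ + N * i) (j₀ + N * j) ω)) + _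
    have h2 : CH q D.T (fun ω => (D.ln ω, D.c (i₀ + N * i) (j₀ + N * j) ω)) ≤
        CH q D.T (fun ω => (D.wn J (w₀ + j₀ * z) ω, D.c (i₀ + N * i) (j₀ + N * j) ω)) := by
      refine CH_mono_cond hq.nonneg ?_
      intro ω ω' a b e
      have e1 : D.ln ω = D.ln ω' := (Prod.ext_iff.1 e).1
      have e2 : D.c (i₀ + N * i) (j₀ + N * j) ω = D.c (i₀ + N * i) (j₀ + N * j) ω' :=
        (Prod.ext_iff.1 e).2
      have e3 : D.T ω / 2 ^ (J - (w₀ + (j₀ + N * j) * z)) =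
          D.T ω' / 2 ^ (J - (w₀ + (j₀ + N * j) * z)) :=
        hcT _ (sub_le hi hi').1 _ (sub_le hj hj').1 ω ω' a b e2
      have hle : w₀ + j₀ * z ≤ w₀ + (j₀ + N * j) * z := by nlinarith [Nat.zero_le (N * j * z)]
      have hle' : w₀ + (j₀ + N * j) * z ≤ J := by
        have := Nat.mul_le_mul_right z (sub_le hj hj').1
        omega
      refine Prod.ext (Prod.ext e1 ?_) e2
      change D.T ω / 2 ^ (J - (w₀ + j₀ * z)) = D.T ω' / 2 ^ (J - (w₀ + j₀ * z))
      rw [Pool.TMU.win_div _ hle hle', Pool.TMU.win_div (D.T ω') hle hle', e3]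
    push_cast
    linarith
  · intro j hj' x hx E hE
    have hx' : x ≤ M * z := by
      have : N * M' ≤ M := by nlinarith
      have h6 : M' * (N * z) ≤ M * z := by
        calc M' * (N * z) = N * M' * z := by ring
          _ ≤ M * z := Nat.mul_le_mul_right z this
      omega
    have h1 := h.tm _ (sub_le hj hj').1 x hx' E hE
    have h2 : ∀ u ∈ range x, P2 (Pool.Agent.H49.Ent.cond q E True)
        ((D.sub J (w₀ + j₀ * z) i₀ j₀ N).wn J (w₀ + j₀ * z + j * (N * z) + u))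
        (fun ω ω' => |(D.T ω : ℝ) - D.T ω'| * 2 ^ (w₀ + j₀ * z + j * (N * z) + u + k') < 2 ^ J) ≤
        P2 (Pool.Agent.H49.Ent.cond q E True) (D.wn J (w₀ + (j₀ + N * j) * z + u))
        (fun ω ω' => |(D.T ω : ℝ) - D.T ω'| * 2 ^ (w₀ + (j₀ + N * j) * z + u + k') < 2 ^ J) := by
      intro u hu
      rw [hwin j]
      have hu' := mem_range.1 hu
      have hle' : w₀ + (j₀ + N * j) * z + u ≤ J := by
        have := Nat.mul_le_mul_right z (sub_le hj hj').1
        omega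
      have hle : w₀ + j₀ * z ≤ w₀ + (j₀ + N * j) * z + u := by nlinarith [Nat.zero_le (N * j * z)]
      refine P2_le_of (fun ω => cond_nonneg hq.nonneg _ _ ω) (wn_det' _ _ _)
        (wn_det _ _ _ hle hle') ?_
      intro ω ω' _ _ _ hA
      exact hA
    have h3 := (Finset.sum_le_sum h2).trans h1
    refine h3.trans ?_
    push_cast
    linarith

theorem Pb_le_of {Ω : Type} [Fintype Ω] {p : Ω → ℝ} (hp : ∀ ω, 0 ≤ p ω) {A B : Ω → Prop}
    (h : ∀ ω, A ω → B ω) : Pb p A ≤ Pb p B := by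
  classical
  unfold Pb
  refine Finset.sum_le_sum fun ω _ => ?_
  by_cases hA : A ω
  · rw [if_pos hA, if_pos (h ω hA)]
  · rw [if_neg hA]
    split_ifs
    · exact hp ω
    · exact le_rfl

/-- **A new label of the sub-cell is a new label of the cell.** -/
theorem Concl2.of_sub {n J a₀ w₀ z M A K' : ℕ} {η' : ℝ} (hq : ∀ ω, 0 ≤ q ω)
    {i₀ j₀ N M' : ℕ} (hN : 1 ≤ N) (hi : i₀ + N * (M' + 1) ≤ M) (hj : j₀ + N * (M' + 1) ≤ M)
    (hJ : w₀ + M * z ≤ J)
    (h : (D.sub J (w₀ + j₀ * z) i₀ j₀ N).Concl2 n J (a₀ + i₀ * z) (w₀ + j₀ * z) (N * z) M' A K'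
      η' q) : D.Concl2 n J a₀ w₀ z M A K' η' q := by
  obtain ⟨i, hi', j, hj', Gn, Hn, h1, h2, h3⟩ := h
  have hwin : w₀ + j₀ * z + j * (N * z) = w₀ + (j₀ + N * j) * z := by ring
  have hrad : a₀ + i₀ * z + i * (N * z) = a₀ + (i₀ + N * i) * z := by ring
  have hle' : w₀ + (j₀ + N * j) * z ≤ J := by
    have := Nat.mul_le_mul_right z (sub_le hj hj').1
    omega
  have hle : w₀ + j₀ * z ≤ w₀ + (j₀ + N * j) * z := by nlinarith [Nat.zero_le (N * j * z)]
  refine ⟨i₀ + N * i, (sub_le hi hi').1, j₀ + N * j, (sub_le hj hj').1, Gn,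
    fun x => Hn ((x.1, x.2 / 2 ^ (w₀ + (j₀ + N * j) * z - (w₀ + j₀ * z))), x.2), h1,
    fun x => h2 _, h3.trans ?_⟩
  have hg : D.g (i₀ + N * i) (j₀ + N * j) n + A * z ≤
      (D.sub J (w₀ + j₀ * z) i₀ j₀ N).g i j n + A * (N * z) := by
    change D.g (i₀ + N * i) (j₀ + N * j) n + A * z ≤
      D.g (i₀ + N * i) (j₀ + N * j) n + A * (N * z)
    have : A * z ≤ A * (N * z) := Nat.mul_le_mul_left A (Nat.le_mul_of_pos_left z (by omega))
    omega
  have hpow : (1 : ℝ) / 2 ^ ((D.sub J (w₀ + j₀ * z) i₀ j₀ N).g i j n + A * (N * z)) ≤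
      1 / 2 ^ (D.g (i₀ + N * i) (j₀ + N * j) n + A * z) :=
    one_div_le_one_div_of_le (by positivity) (pow_le_pow_right₀ (by norm_num) hg)
  refine Pb_le_of hq ?_
  intro ω hω
  obtain ⟨g1, g2⟩ := hω
  refine ⟨g1.trans hpow, fun b hb => ?_⟩
  have g3 := g2 b (by
    rw [hrad]
    exact hb)
  refine le_trans (le_of_eq ?_) (g3.trans hpow)
  rw [hwin, wn_sub i₀ j₀ N hle hle']
  rfl

end NDat2

end Pool.STAT
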