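import Pool.Agent.H64.STAT.Stmts
import Pool.Agent.H19.BFL.Stmts2

/-!
# Window-free tubes: systems of lines with closed labels of all levels (layer 2)

`/team-store/K_STAT_helper80.md`. Coordinates `0, 1, …, n` (`0` is the time, `n` is the height) in
units of the level `0`, in the order of the chain: the label of the coordinate `i` is a polynomial
in the coordinates before `i`. The labels of all the levels `k ≤ M` are conserved on the whole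
window of the level `0`, so there is one polynomial of the line. The level `k` is the ball of
radius `2 ^ (-(k z))`. All polynomials have variables in `ℕ`.
-/

set_option autoImplicit false

namespace Pool.STAT

open Finset MvPolynomial
open Pool.Agent.H49.Ent Pool.Agent.H32.Dense Pool.STK Pool.KS3
open Pool.BFL (Pl CB Pb P2 MC alt)

/-! ### Triangular systems of polynomials -/

/-- Polynomials in the coordinates. -/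
abbrev PN : Type := MvPolynomial ℕ ℝ

/-- The solution of a triangular system `f = S f`. -/
def fixm {α : Type*} [Zero α] (S : (ℕ → α) → ℕ → α) (i : ℕ) : α := (S^[i + 1] 0) i

/-- The polynomial `Φ i` contains only variables before `i`. -/
def TriN (Φ : ℕ → PN) : Prop := ∀ i, (Φ i).vars ⊆ range i

/-- The part of weight `< r`. -/
noncomputable def trw (d : ℕ → ℕ) (r : ℕ) (F : PN) : PN :=
  ∑ k ∈ range r, weightedHomogeneousComponent d k F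

/-- The derivation of a vector field. -/
noncomputable def lieN (ξ : ℕ → PN) : Derivation ℝ PN PN := mkDerivation ℝ ξ

/-- The adapted coordinates of the triangular system `Φ`: absolute coordinates as polynomials of
the adapted ones. -/
noncomputable def adp (d : ℕ → ℕ) (Φ : ℕ → PN) : ℕ → PN :=
  fixm fun χ i => X i + trw d (d i) (bind₁ χ (Φ i))

/-- The inverse of a unipotent triangular map. -/
noncomputable def tinv (χ : ℕ → PN) : ℕ → PN :=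
  fixm fun Θ i => X i - bind₁ Θ (χ i - X i)

/-- The vector field of the triangular system `Φ`, in adapted coordinates. -/
noncomputable def fld (d : ℕ → ℕ) (Φ : ℕ → PN) : ℕ → PN :=
  fixm fun ξ i => if i = 0 then 1 else
    lieN ξ (weightedHomogeneousComponent d (d i) (bind₁ (adp d Φ) (Φ i)))

/-- The natural coordinates of the triangular system `Φ`, of sides `2 ^ (-g i)`: absolute
coordinates as polynomials of the natural ones. -/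
noncomputable def nuc (g : ℕ → ℕ) (Φ : ℕ → PN) : ℕ → PN :=
  fixm fun ν i => bind₁ ν (Φ i) + C (1 / (2 : ℝ) ^ g i) * X i

/-- The system `Φ` at the time `t`. -/
noncomputable def atT (t : ℝ) (Φ : ℕ → PN) : ℕ → PN := Function.update Φ 0 (C t)

/-- The weighted norm. -/
noncomputable def nrm (d : ℕ → ℕ) (ρ : ℝ) (F : PN) : ℝ :=
  ∑ k ∈ F.support, |F.coeff k| * ρ ^ Finsupp.weight d k

/-- The part of weight `≥ r`. -/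
noncomputable def gew (d : ℕ → ℕ) (r : ℕ) (F : PN) : PN := F - trw d r F

/-- The radius of the balls of level `k`. -/
noncomputable def rd (z k : ℕ) : ℝ := 1 / (2 : ℝ) ^ (k * z)

/-- A ladder: the system changes slowly from each level to the next one, in adapted coordinates;
`N` steps, coordinates before `n`. -/
def Lad (d : ℕ → ℕ) (z : ℕ) (σ : ℕ → ℝ) (C₂ : ℝ) (N n : ℕ) (Φ : ℕ → ℕ → PN) : Prop :=
  ∀ k < N, ∀ i < n, nrm d (rd z k) (bind₁ (adp d (Φ k)) (Φ (k + 1) i - Φ k i)) ≤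
    Real.exp (C₂ * z) * rd z k ^ σ i

/-- The base of a ladder. -/
structure LBase (K n : ℕ) (N : ℕ) (Φ : ℕ → ℕ → PN) : Prop where
  deg : ∀ k ≤ N, ∀ i < n, (Φ k i).totalDegree ≤ K
  tri : ∀ k ≤ N, TriN (Φ k)
  zero : ∀ i, 1 ≤ i → i < n → Φ 0 i = 0
  base : ∃ t : ℝ, |t| ≤ 2 ∧ Φ 0 0 = C t

/-- Slopes: integers before `n`, `d n` is the slope of `n`, rounded up. -/
structure Slp (d : ℕ → ℕ) (σ : ℕ → ℝ) (n : ℕ) : Prop where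
  d_zero : d 0 = 1
  d_pos : ∀ i, 1 ≤ d i
  int : ∀ i < n, σ i = d i
  le : σ n ≤ d n
  lt : (d n : ℝ) - 1 < σ n

/-- The point of the natural box `b`. -/
def Bx (g : ℕ → ℕ) (Φ : ℕ → PN) (n : ℕ) (b : ℕ → ℝ) : Prop :=
  ∀ i < n, |b i - eval b (Φ i)| ≤ 1 / 2 ^ g i

/-! ### Systems -/

/-- The data of a system: lines `ln` (with the window of level `0`), times `T`, positions `X`,
closed labels `c k` with the triangular systems `P k`, the triangular system `R` of the line,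
and the precisions `g k`. -/
structure NDat : Type 1 where
  Ω : Type
  Λ : Type
  Γ : Type
  fin : Fintype Ω
  ln : Ω → Λ
  T : Ω → ℕ
  X : Ω → ℕ → ℝ
  c : ℕ → Ω → Γ
  P : ℕ → Γ → ℕ → PN
  R : Λ → ℕ → PN
  g : ℕ → ℕ → ℕ

attribute [instance] NDat.fin

namespace NDat

/-- The line and the window of length `2 ^ (-v)`. -/
def wn (D : NDat) (J v : ℕ) (ω : D.Ω) : D.Λ × ℕ := (D.ln ω, D.T ω / 2 ^ (J - v))

/-- The height over the label of level `k`. -/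
noncomputable def rh (D : NDat) (k : ℕ) (ω : D.Ω) (i : ℕ) : ℝ :=
  D.X ω i - eval (D.X ω) (D.P k (D.c k ω) i)

/-- The axioms of a system with the coordinates `0, …, n`, for the law `q`. -/
structure Ok (D : NDat) (n K J z M : ℕ) (σ : ℕ → ℝ) (κ C₁ : ℝ) (q : D.Ω → ℝ) : Prop where
  isLaw : IsLaw q
  top : (M + 1) * z ≤ J
  T_lt : ∀ ω, D.T ω < 2 ^ J
  X_zero : ∀ ω, D.X ω 0 = (D.T ω : ℝ) / 2 ^ J
  time : J * Real.log 2 - κ * z ≤ CH q D.T D.ln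
  c_wn : ∀ k ≤ M, Det q (D.wn J (k * z)) (D.c k)
  c_c : ∀ k < M, Det q (D.c (k + 1)) (D.c k)
  c_T : ∀ k ≤ M, Det q (D.c k) (fun ω => D.T ω / 2 ^ (J - k * z))
  P_deg : ∀ k x i, (D.P k x i).totalDegree ≤ K
  P_tri : ∀ k x, TriN (D.P k x)
  P_zero : ∀ x i, 1 ≤ i → D.P 0 x i = 0
  R_deg : ∀ l i, (D.R l i).totalDegree ≤ K
  R_tri : ∀ l, TriN (D.R l)
  σ_zero : σ 0 = 1
  σ_ge : ∀ i, 1 ≤ σ i
  hom : ∀ k ≤ M, ∀ i ≤ n, |(D.g k i : ℝ) - σ i * (k * z)| ≤ C₁ * z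
  hgt : ∀ k ≤ M, ∀ ω, 0 < q ω → ∀ i ≤ n, |D.rh k ω i| ≤ 1 / 2 ^ D.g k i
  line : ∀ ω, 0 < q ω → ∀ i, 1 ≤ i → i ≤ n → ∀ b : ℕ → ℝ, Bx (D.g M) (D.P M (D.c M ω)) i b →
    |eval b (D.R (D.ln ω) i) - eval b (D.P M (D.c M ω) i)| ≤ Real.exp (C₁ * z) / 2 ^ D.g M i
  full : ∀ k ≤ M, n * (z * Real.log 2) - κ * z ≤
    CH q (fun ω (i : Fin n) => ⌊(2 : ℝ) ^ (D.g k i + z) * D.rh k ω i⌋) (D.c k)

/-- The labels of the levels `≤ v`. -/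
def cs (D : NDat) (v : ℕ) (ω : D.Ω) (k : ℕ) : D.Γ := D.c (min k v) ω

/-- The systems of a sequence of labels. -/
def Φb (D : NDat) (x : ℕ → D.Γ) (k : ℕ) : ℕ → PN := D.P k (x k)

/-- The system of the line at the time of the sample. -/
noncomputable def Rt (D : NDat) (ω : D.Ω) : ℕ → PN := atT (D.X ω 0) (D.R (D.ln ω))

/-- The ladder of a sample: `M` steps for the labels, and one more step to the line. -/
noncomputable def Φs (D : NDat) (M : ℕ) (ω : D.Ω) (k : ℕ) : ℕ → PN :=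
  if k ≤ M then D.P k (D.c k ω) else D.Rt ω

/-- A typical sample: it has a ladder. -/
def JG (D : NDat) (d : ℕ → ℕ) (z : ℕ) (σ : ℕ → ℝ) (C₂ : ℝ) (M n : ℕ) (ω : D.Ω) : Prop :=
  Lad d z σ C₂ (M + 1) (n + 1) (D.Φs M ω)

/-- A typical line: its adapted coordinates are bounded on the whole window. -/
def LG (D : NDat) (d : ℕ → ℕ) (z : ℕ) (C₂ : ℝ) (n : ℕ) (l : D.Λ) : Prop :=
  ∀ t ∈ Set.Icc (0 : ℝ) 1, ∀ i ≤ n, nrm d 1 (adp d (atT t (D.R l)) i) ≤ Real.exp (C₂ * z)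

end NDat

open Classical in
/-- The coefficients rounded to multiples of `1 / a`, zero if they exceed `S`. -/
noncomputable def rnd (a S : ℝ) (F : PN) : PN :=
  ∑ k ∈ F.support, monomial k (if |F.coeff k| ≤ S then (⌊a * F.coeff k⌋ : ℝ) / a else 0)

namespace NDat

/-- **The variable `V`**: the vector field of the line at the time of the sample, rounded to `y`
digits. -/
noncomputable def vf (D : NDat) (d : ℕ → ℕ) (z y : ℕ) (C₂ : ℝ) (n : ℕ) (ω : D.Ω) (i : ℕ) : PN :=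
  if i ≤ n then rnd ((2 : ℝ) ^ (y * z)) (Real.exp (C₂ * z)) (fld d (D.Rt ω) i) else 0

/-- The digits of the time up to the level `v`. -/
def tm (D : NDat) (J z v : ℕ) (ω : D.Ω) : ℤ := ((D.T ω / 2 ^ (J - v * z) : ℕ) : ℤ)

/-- The natural coordinates of the level `v`. -/
noncomputable def pT (D : NDat) (v : ℕ) {n : ℕ} (ω : D.Ω) (i : Fin n) : ℝ :=
  (2 : ℝ) ^ D.g v i * D.rh v ω i

/-- The height over the label of level `v`, in units `2 ^ (-(d n v z))`. -/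
noncomputable def pN (D : NDat) (d : ℕ → ℕ) (z v n : ℕ) (ω : D.Ω) : ℝ :=
  (2 : ℝ) ^ (d n * (v * z)) * D.rh v ω n

end NDat

/-- A point of `ℝ ^ n` as a sequence. -/
def ext {n : ℕ} (z : Fin n → ℝ) (j : ℕ) : ℝ := if h : j < n then z ⟨j, h⟩ else 0

/-- A polynomial in the first `n` variables. -/
noncomputable def toF (n : ℕ) : PN →ₐ[ℝ] Pl n :=
  aeval fun j => if h : j < n then X ⟨j, h⟩ else 0

namespace NDat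

/-- The absolute coordinates of the point with the natural coordinates `y` of the level `v`, for
the sequence of labels `x`. -/
noncomputable def ab (D : NDat) (v : ℕ) {n : ℕ} (x : ℕ → D.Γ) (y : Fin n → ℝ) (j : ℕ) : ℝ :=
  eval (ext y) (nuc (D.g v) (D.P v (x v)) j)

/-- The good sequences of labels. -/
def GB (D : NDat) (K : ℕ) (d : ℕ → ℕ) (z : ℕ) (C₁ C₂ : ℝ) (v' n : ℕ) (x : ℕ → D.Γ) : Prop :=
  Lad d z (fun i => d i) C₂ v' (n + 1) (D.Φb x) ∧ LBase K (n + 1) v' (D.Φb x) ∧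
    ∀ k ≤ v', ∀ i ≤ n, |(D.g k i : ℝ) - d i * (k * z)| ≤ C₁ * z

open Classical in
/-- `ΘT`: the adapted coordinates of the level `v'`, in units of the level `v`. -/
noncomputable def thT (D : NDat) (K : ℕ) (d : ℕ → ℕ) (z : ℕ) (C₁ C₂ : ℝ) (v v' : ℕ) {n : ℕ}
    (x : ℕ → D.Γ) (y : Fin n → ℝ) (i : Fin n) : ℝ :=
  if D.GB K d z C₁ C₂ v' n x then
    (2 : ℝ) ^ (d i * (v * z)) * eval (D.ab v x y) (tinv (adp d (D.P v' (x v'))) i)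
  else y i

open Classical in
/-- `FN`: the sheet of the level `v'`, over the label of the level `v`, in units of the
level `v`. -/
noncomputable def shN (D : NDat) (K : ℕ) (d : ℕ → ℕ) (z : ℕ) (C₁ C₂ : ℝ) (v v' : ℕ) {n : ℕ}
    (x : ℕ → D.Γ) (y : Fin n → ℝ) : ℝ :=
  if D.GB K d z C₁ C₂ v' n x then
    (2 : ℝ) ^ (d n * (v * z)) * eval (D.ab v x y)
      (MvPolynomial.X n - tinv (adp d (D.P v' (x v'))) n - D.P v (x v) n)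
  else 0

end NDat

open Classical in
/-- The vector field of a value of `V` on the base, zero if it is not good. -/
noncomputable def vfT (d : ℕ → ℕ) (n : ℕ) (S : ℝ) (f : ℕ → PN) : Fin n → Pl n :=
  if (∀ i : Fin n, ((toF n (f i)).IsWeightedHomogeneous (fun l : Fin n => d l) (d i - 1)) ∧
    CB (toF n (f i)) S) then fun i => toF n (f i) else 0

open Classical in
/-- The velocity of the height for a value of `V`. -/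
noncomputable def vfN (d : ℕ → ℕ) (n : ℕ) (S : ℝ) (f : ℕ → PN) : Pl n :=
  if ((toF n (f n)).IsWeightedHomogeneous (fun l : Fin n => d l) (d n - 1)) ∧
    CB (toF n (f n)) S then toF n (f n) else 0

namespace NDat

/-- **The count** at the level `v`, with `U` levels: the height has few values given its label of
level `v` and the base to `U` levels. -/
def Cnt (D : NDat) (d : ℕ → ℕ) (z n v U : ℕ) (ρ a κ' : ℝ) (q : D.Ω → ℝ) : Prop :=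
  ∀ P : ℕ, (P : ℝ) ≤ ρ * (U * z) → ∀ ω, 0 < q ω →
    (Set.ncard {k : ℤ | ∃ ω', 0 < q ω' ∧ D.c v ω' = D.c v ω ∧
      (∀ i : Fin n, ⌊(2 : ℝ) ^ (U * z) * D.pT v ω' i⌋ = ⌊(2 : ℝ) ^ (U * z) * D.pT v ω i⌋) ∧
      ⌊D.pN d z v n ω'⌋ = ⌊D.pN d z v n ω⌋ ∧ k = ⌊(2 : ℝ) ^ P * D.pN d z v n ω'⌋} : ℝ) ≤
    Real.exp ((1 - a) * P * Real.log 2 + κ' * z)

/-- **A new label** of the coordinate `i` at the level `v`, as a function of the labels of the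
levels `≤ v'`: it fits both points and is conserved on the window of level `v`, with positive
probability; the gain of the precision is `A z` digits, the distance to the old label is
`exp (C₆ z)` old units. -/
def NewLab (D : NDat) (J z i v v' A K' : ℕ) (C₆ η' : ℝ) (q : D.Ω → ℝ) : Prop :=
  ∃ G : (ℕ → D.Γ) → PN, (∀ x, (G x).totalDegree ≤ K') ∧ (∀ x, (G x).vars ⊆ range i) ∧
    η' ≤ P2 q (D.wn J (v * z)) (fun ω ω' =>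
      |D.X ω i - eval (D.X ω) (G (D.cs v' ω))| ≤ 1 / 2 ^ (D.g v i + A * z) ∧
      |D.X ω' i - eval (D.X ω') (G (D.cs v' ω'))| ≤ 1 / 2 ^ (D.g v i + A * z) ∧
      (∀ b : ℕ → ℝ, Bx (D.g v) (D.P v (D.c v ω)) i b →
        |eval b (G (D.cs v' ω')) - eval b (G (D.cs v' ω))| ≤ 1 / 2 ^ (D.g v i + A * z)) ∧
      ∀ b : ℕ → ℝ, Bx (D.g v) (D.P v (D.c v ω)) i b →
        |eval b (G (D.cs v' ω)) - eval b (D.P v (D.c v ω) i)| ≤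
          Real.exp (C₆ * z) / 2 ^ D.g v i)

end NDat

/-! ### The theorems of layer 2 -/

/-- **MAIW.** Integer slopes: a new label of some coordinate. -/
def MaiwStmt : Prop :=
  ∀ (n K A : ℕ) (d : ℕ → ℕ) (C₁ C₃ a ρ : ℝ), 1 ≤ n → d 0 = 1 → (∀ i, 1 ≤ d i) → 1 ≤ C₁ →
    1 ≤ C₃ → 0 < a → 0 < ρ → ρ ≤ 1 →
    ∃ (U M K' : ℕ) (C₆ η' κ : ℝ) (z₀ : ℕ), 1 ≤ U ∧ 0 < η' ∧ 0 < κ ∧
    ∀ (J z : ℕ) (D : NDat) (q : D.Ω → ℝ), z₀ ≤ z → D.Ok n K J z M (fun i => d i) κ C₁ q →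
      (∀ k, k + 3 * U ≤ M → D.Cnt d z n (k + U) U ρ a C₃ q) →
      ∃ k i, k + 3 * U ≤ M ∧ 1 ≤ i ∧ i ≤ n ∧
        D.NewLab J z i (k + U) (k + 3 * U) A K' C₆ η' q

/-- **NONW.** The slope of the last coordinate is not an integer: a new label. -/
def NonwStmt : Prop :=
  ∀ (n K A : ℕ) (d : ℕ → ℕ) (C₁ s : ℝ), 1 ≤ n → d 0 = 1 → (∀ i, 1 ≤ d i) → 1 ≤ C₁ →
    (d n : ℝ) - 1 < s → s < d n →
    ∃ (v M K' : ℕ) (C₆ κ : ℝ) (z₀ : ℕ), v ≤ M ∧ 0 < κ ∧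
    ∀ (J z : ℕ) (D : NDat) (q : D.Ω → ℝ), z₀ ≤ z →
      D.Ok n K J z M (Function.update (fun i => (d i : ℝ)) n s) κ C₁ q →
      D.NewLab J z n v M A K' C₆ (1 / 2) q

/-! ### Rows: algebra -/

/-- Row 101 ADX: triangular systems. -/
def AdxStmt : Prop :=
  (∀ (α : Type) [Zero α] (S : (ℕ → α) → ℕ → α),
    (∀ i f f', (∀ j < i, f j = f' j) → S f i = S f' i) → ∀ i, fixm S i = S (fixm S) i) ∧
  ∀ (d : ℕ → ℕ) (Φ : ℕ → PN), d 0 = 1 → (∀ i, 1 ≤ d i) → TriN Φ →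
    (∀ i, adp d Φ i = X i + trw d (d i) (bind₁ (adp d Φ) (Φ i))) ∧
    TriN (fun i => adp d Φ i - X i) ∧
    (∀ χ : ℕ → PN, TriN (fun i => χ i - X i) → TriN (fun i => tinv χ i - X i) ∧
      (∀ i, bind₁ (tinv χ) (χ i) = X i) ∧ ∀ i, bind₁ χ (tinv χ i) = X i) ∧
    fld d Φ 0 = 1 ∧
    (∀ i, 1 ≤ i → fld d Φ i =
      lieN (fld d Φ) (weightedHomogeneousComponent d (d i) (bind₁ (adp d Φ) (Φ i)))) ∧
    TriN (fld d Φ) ∧ (∀ i, (fld d Φ i).IsWeightedHomogeneous d (d i - 1)) ∧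
    ∀ g : ℕ → ℕ, (∀ i, nuc g Φ i = bind₁ (nuc g Φ) (Φ i) + C (1 / (2 : ℝ) ^ g i) * X i) ∧
      (∀ i, (nuc g Φ i).vars ⊆ range (i + 1)) ∧
      ∀ b : ℕ → ℝ, ∀ i, eval (fun j => (2 : ℝ) ^ g j * (b j - eval b (Φ j))) (nuc g Φ i) = b i

/-- Row 102 DGB: degrees. -/
def DgbStmt : Prop :=
  ∀ (n K : ℕ) (d : ℕ → ℕ), d 0 = 1 → (∀ i, 1 ≤ d i) → ∃ K' : ℕ, ∀ (Φ : ℕ → PN) (g : ℕ → ℕ),
    TriN Φ → (∀ i ≤ n, (Φ i).totalDegree ≤ K) → ∀ i ≤ n, (adp d Φ i).totalDegree ≤ K' ∧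
      (tinv (adp d Φ) i).totalDegree ≤ K' ∧ (fld d Φ i).totalDegree ≤ K' ∧
      (nuc g Φ i).totalDegree ≤ K'

/-- Row 103 ODE: the motion of a fixed point in the adapted coordinates of the line. -/
def OdeStmt : Prop :=
  ∀ (d : ℕ → ℕ) (Φ : ℕ → PN), d 0 = 1 → (∀ i, 1 ≤ d i) → TriN (atT 0 Φ) →
    (∀ (t : ℝ) (i : ℕ) (k : ℕ →₀ ℕ), HasDerivAt (fun t => (adp d (atT t Φ) i).coeff k)
      ((lieN (fld d (atT t Φ)) (adp d (atT t Φ) i)).coeff k) t) ∧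
    ∀ (b : ℕ → ℝ) (t : ℝ) (i : ℕ),
      HasDerivAt (fun t => eval b (tinv (adp d (atT t Φ)) i))
        (-eval (fun j => eval b (tinv (adp d (atT t Φ)) j)) (fld d (atT t Φ) i)) t

/-- Row 104 PLT: the coefficients are polynomials in the time. -/
def PltStmt : Prop :=
  ∀ (n K : ℕ) (d : ℕ → ℕ), d 0 = 1 → (∀ i, 1 ≤ d i) → ∃ K' : ℕ, ∀ (Φ : ℕ → PN),
    TriN (atT 0 Φ) → (∀ i ≤ n, (atT 0 Φ i).totalDegree ≤ K) → ∀ i ≤ n, ∀ k : ℕ →₀ ℕ,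
      (∃ p : Polynomial ℝ, p.natDegree ≤ K' ∧ ∀ t, p.eval t = (adp d (atT t Φ) i).coeff k) ∧
      ((∃ t, (adp d (atT t Φ) i).coeff k ≠ 0) → k.support ⊆ range (i + 1) ∧
        Finsupp.weight d k ≤ K')

/-- Row 105 NRM: the norm. -/
def NrmStmt : Prop :=
  ∀ (d : ℕ → ℕ) (ρ : ℝ), (∀ i, 1 ≤ d i) → 0 < ρ →
    (∀ F, 0 ≤ nrm d ρ F) ∧ (∀ F G, nrm d ρ (F + G) ≤ nrm d ρ F + nrm d ρ G) ∧
    (∀ F, nrm d ρ (-F) = nrm d ρ F) ∧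
    (∀ F G, nrm d ρ (F * G) ≤ nrm d ρ F * nrm d ρ G) ∧ (∀ a : ℝ, nrm d ρ (C a) = |a|) ∧
    (∀ i, nrm d ρ (X i) = ρ ^ d i) ∧ (∀ r F, nrm d ρ (trw d r F) ≤ nrm d ρ F) ∧
    (∀ r F, nrm d ρ (gew d r F) ≤ nrm d ρ F) ∧
    (∀ r F, nrm d ρ (weightedHomogeneousComponent d r F) ≤ nrm d ρ F) ∧
    (∀ (χ : ℕ → PN) (F : PN) (ρ' : ℝ), 0 < ρ' → (∀ i ∈ F.vars, nrm d ρ (χ i) ≤ ρ' ^ d i) →
      nrm d ρ (bind₁ χ F) ≤ nrm d ρ' F) ∧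
    (∀ r F (ρ' : ℝ), ρ ≤ ρ' → nrm d ρ (gew d r F) ≤ (ρ / ρ') ^ r * nrm d ρ' F) ∧
    (∀ r F (ρ' : ℝ), ρ ≤ ρ' → nrm d ρ' (trw d (r + 1) F) ≤ (ρ' / ρ) ^ r * nrm d ρ F) ∧
    ∀ (b : ℕ → ℝ) F, (∀ i ∈ F.vars, |b i| ≤ ρ ^ d i) → |eval b F| ≤ nrm d ρ F

/-! ### Rows: ladders (no probability) -/

/-- Row 106 LAD: the transition maps of a ladder. `δ i` are the differences of the adapted
coordinates of the levels `k' ≤ k`. -/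
def LadStmt : Prop :=
  ∀ (n K : ℕ) (d : ℕ → ℕ) (σ : ℕ → ℝ) (C₂ : ℝ), Slp d σ n → 1 ≤ C₂ → ∃ C₃ : ℝ, 1 ≤ C₃ ∧
    ∀ N : ℕ, ∃ z₀ : ℕ, ∀ (z : ℕ) (Φ : ℕ → ℕ → PN) (n' : ℕ), z₀ ≤ z → n' ≤ n + 1 →
    LBase K n' N Φ → Lad d z σ C₂ N n' Φ →
    (∀ k ≤ N, ∀ i < n', nrm d 1 (adp d (Φ k) i) ≤ Real.exp (C₃ * z) ∧
      nrm d (rd z k) (gew d (d i) (bind₁ (adp d (Φ k)) (Φ k i))) ≤
        Real.exp (C₃ * z) * rd z k ^ σ i) ∧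
    ∀ k ≤ N, ∀ k' ≤ k, ∀ i < n',
      let δ := bind₁ (adp d (Φ k)) (tinv (adp d (Φ k')) i) - X i
      δ.vars ⊆ range i ∧ trw d (d i) δ = δ ∧
      ∀ v ≤ k', nrm d (rd z v) δ ≤
        Real.exp (C₃ * z) * (rd z v ^ ((d i : ℝ) - 1) * rd z k' ^ (σ i - d i + 1))

/-- Row 107 BXN: boxes and norms. -/
def BxnStmt : Prop :=
  ∀ (n K : ℕ) (d : ℕ → ℕ) (σ : ℕ → ℝ) (C₁ C₂ : ℝ), Slp d σ n → 1 ≤ C₁ → 1 ≤ C₂ →
    ∃ C₃ : ℝ, 1 ≤ C₃ ∧ ∀ N : ℕ, ∃ z₀ : ℕ, ∀ (z : ℕ) (Φ : ℕ → ℕ → PN) (n' : ℕ) (g : ℕ → ℕ),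
    z₀ ≤ z → n' ≤ n → LBase K n' N Φ → Lad d z σ C₂ N n' Φ →
    (∀ i < n', |(g i : ℝ) - d i * (N * z)| ≤ C₁ * z) →
    ∀ (F : PN) (S : ℝ), 0 ≤ S → F.vars ⊆ range n' → F.totalDegree ≤ K →
      ((∀ b : ℕ → ℝ, Bx g (Φ N) n' b → |eval b F| ≤ S) →
        nrm d (rd z N) (bind₁ (adp d (Φ N)) F) ≤ Real.exp (C₃ * z) * S) ∧
      (nrm d (rd z N) (bind₁ (adp d (Φ N)) F) ≤ S →
        ∀ b : ℕ → ℝ, Bx g (Φ N) n' b → |eval b F| ≤ Real.exp (C₃ * z) * S)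

/-- Row 108 FLB: bounds for the vector field, from bounds for the adapted coordinates on a
window. -/
def FlbStmt : Prop :=
  ∀ (n K : ℕ) (d : ℕ → ℕ), d 0 = 1 → (∀ i, 1 ≤ d i) → ∃ K' : ℕ, ∀ (Φ : ℕ → PN) (R : ℝ),
    TriN (atT 0 Φ) → (∀ i ≤ n, (atT 0 Φ i).totalDegree ≤ K) → 1 ≤ R →
    (∀ t ∈ Set.Icc (0 : ℝ) 1, ∀ i ≤ n, nrm d 1 (adp d (atT t Φ) i) ≤ R) →
    (∀ t ∈ Set.Icc (0 : ℝ) 1, ∀ i ≤ n, nrm d 1 (fld d (atT t Φ) i) ≤ K' * R ^ K') ∧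
    ∀ t ∈ Set.Icc (0 : ℝ) 1, ∀ t' ∈ Set.Icc (0 : ℝ) 1, ∀ i ≤ n,
      nrm d 1 (fld d (atT t' Φ) i - fld d (atT t Φ) i) ≤ K' * R ^ K' * |t' - t|

/-- Row 109 FRZ: the frozen flow. -/
def FrzStmt : Prop :=
  ∀ (c j : ℕ) (d : Fin c → ℕ), (∀ i, 1 ≤ d i) → 1 ≤ j → ∃ K : ℕ, ∀ (R ε : ℝ), 1 ≤ R → 0 ≤ ε →
    ε ≤ 1 → ∀ (ξ : ℝ → Fin c → Pl c) (b : ℝ → Pl c) (ξ₀ : Fin c → Pl c) (b₀ : Pl c)
      (u : ℝ → Fin c → ℝ) (h : ℝ → ℝ) (s : ℝ), |s| ≤ 1 → VF d ξ₀ →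
    b₀.IsWeightedHomogeneous d (j - 1) → (∀ i, CB (ξ₀ i) R) → CB b₀ R → (∀ i, |u 0 i| ≤ R) →
    (∀ x ∈ Set.uIcc 0 s, VF d (ξ x) ∧ ∀ i, CB (ξ x i - ξ₀ i) ε) →
    (∀ x ∈ Set.uIcc 0 s, (b x).IsWeightedHomogeneous d (j - 1) ∧ CB (b x - b₀) ε) →
    (∀ x ∈ Set.uIcc 0 s, ∀ i, HasDerivAt (fun x => u x i) (-eval (u x) (ξ x i)) x) →
    (∀ x ∈ Set.uIcc 0 s, HasDerivAt h (eval (u x) (b x)) x) →
    (∀ i, |u s i - eval (u 0) (flow d ξ₀ (-s) i)| ≤ K * R ^ K * ε) ∧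
    |h s - h 0 + eval (u 0) (hfl j ξ₀ b₀ (-s))| ≤ K * R ^ K * ε

/-! ### Rows: typical samples -/

/-- Row 110 CMRW: polynomials which are small at the points are small on the natural boxes. -/
def CmrwStmt : Prop :=
  ∀ (n K K' : ℕ) (η : ℝ), 1 ≤ n → 0 < η → η ≤ 1 → ∃ κ₀ : ℝ, 0 < κ₀ ∧ ∃ z₀ : ℕ,
    ∀ (J z M : ℕ) (σ : ℕ → ℝ) (κ C₁ : ℝ) (D : NDat) (q : D.Ω → ℝ), z₀ ≤ z → κ ≤ κ₀ →
    D.Ok n K J z M σ κ C₁ q →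
    ∀ k ≤ M, ∀ (φ : D.Γ → PN) (Gd : D.Ω → Prop) (S₀ : D.Γ → ℝ),
      (∀ x, (φ x).totalDegree ≤ K') → (∀ x, (φ x).vars ⊆ range n) → (∀ x, 0 < S₀ x) →
      Pb q (fun ω => ¬ Gd ω) ≤ η / 8 →
      (∀ ω, Gd ω → |eval (D.X ω) (φ (D.c k ω))| ≤ S₀ (D.c k ω)) →
      Pb q (fun ω => ¬ ∀ b : ℕ → ℝ, Bx (D.g k) (D.P k (D.c k ω)) n b →
        |eval b (φ (D.c k ω))| ≤ Real.exp z * S₀ (D.c k ω)) ≤ η

/-- Row 111 JBW: typical samples have ladders. -/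
def JbwStmt : Prop :=
  ∀ (n K : ℕ) (d : ℕ → ℕ) (σ : ℕ → ℝ) (C₁ : ℝ), 1 ≤ n → Slp d σ n → 1 ≤ C₁ →
    ∃ C₂ : ℝ, 1 ≤ C₂ ∧ ∀ (M : ℕ) (η : ℝ), 0 < η → ∃ κ₀ : ℝ, 0 < κ₀ ∧ ∃ z₀ : ℕ,
    ∀ (J z : ℕ) (κ : ℝ) (D : NDat) (q : D.Ω → ℝ), z₀ ≤ z → κ ≤ κ₀ → D.Ok n K J z M σ κ C₁ q →
      Pb q (fun ω => ¬ D.JG d z σ C₂ M n ω) ≤ η

/-- Row 112 JTW: typical lines are bounded on the whole window. -/
def JtwStmt : Prop :=
  ∀ (n K : ℕ) (d : ℕ → ℕ) (σ : ℕ → ℝ) (C₁ : ℝ), 1 ≤ n → Slp d σ n → 1 ≤ C₁ →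
    ∃ C₂ : ℝ, 1 ≤ C₂ ∧ ∀ (M : ℕ) (η : ℝ), 0 < η → ∃ κ₀ : ℝ, 0 < κ₀ ∧ ∃ z₀ : ℕ,
    ∀ (J z : ℕ) (κ : ℝ) (D : NDat) (q : D.Ω → ℝ), z₀ ≤ z → κ ≤ κ₀ → D.Ok n K J z M σ κ C₁ q →
      Pb q (fun ω => ¬ D.LG d z C₂ n (D.ln ω)) ≤ η

/-- Row 113 VCH: the entropy of `V`, and the choice of the level. -/
def VchStmt : Prop :=
  ∀ (n K : ℕ) (d : ℕ → ℕ) (C₂ : ℝ), d 0 = 1 → (∀ i, 1 ≤ d i) → 1 ≤ C₂ → ∃ C₃ : ℝ, 1 ≤ C₃ ∧
    ∀ (U : ℕ), 1 ≤ U → ∀ L : ℕ, C₃ * U ≤ L →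
    ∀ (J z M : ℕ) (σ : ℕ → ℝ) (κ C₁ : ℝ) (D : NDat) (q : D.Ω → ℝ), 1 ≤ z →
      D.Ok n K J z M σ κ C₁ q → (2 * L + 3) * U ≤ M →
      ∃ l < L, CH q (D.vf d z (U + 1) C₂ n) (D.c (2 * l * U + U)) -
        CH q (D.vf d z (U + 1) C₂ n) (D.c (2 * l * U + 3 * U)) ≤ z

/-- Row 114 NAT: natural and adapted coordinates. -/
def NatStmt : Prop :=
  ∀ (n K : ℕ) (d : ℕ → ℕ) (C₁ C₂ : ℝ), 1 ≤ n → d 0 = 1 → (∀ i, 1 ≤ d i) → 1 ≤ C₁ → 1 ≤ C₂ →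
    ∃ C₃ : ℝ, 1 ≤ C₃ ∧ ∀ U M : ℕ, ∃ z₀ : ℕ, ∀ (z k : ℕ) (D : NDat) (x : ℕ → D.Γ), z₀ ≤ z →
    k + 3 * U ≤ M → ∀ y y' : Fin n → ℝ, (∀ i, |y i| ≤ 2) → (∀ i, |y' i| ≤ 2) →
    (∀ i, |D.thT K d z C₁ C₂ (k + U) (k + 3 * U) x y i| ≤ Real.exp (C₃ * z)) ∧
    ∀ δ : ℝ, ((∀ i, |y i - y' i| ≤ δ) →
      (∀ i, |D.thT K d z C₁ C₂ (k + U) (k + 3 * U) x y i -
        D.thT K d z C₁ C₂ (k + U) (k + 3 * U) x y' i| ≤ Real.exp (C₃ * z) * δ) ∧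
      |D.shN K d z C₁ C₂ (k + U) (k + 3 * U) x y -
        D.shN K d z C₁ C₂ (k + U) (k + 3 * U) x y'| ≤ Real.exp (C₃ * z) * δ) ∧
      ((∀ i, |D.thT K d z C₁ C₂ (k + U) (k + 3 * U) x y i -
        D.thT K d z C₁ C₂ (k + U) (k + 3 * U) x y' i| ≤ δ) →
      ∀ i, |y i - y' i| ≤ Real.exp (C₃ * z) * δ)

/-- Row 115 CPT: the adapted coordinates of the blocks and of the line; the sample has small
adapted coordinates. -/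
def CptStmt : Prop :=
  ∀ (n K : ℕ) (d : ℕ → ℕ) (C₁ C₂ : ℝ), d 0 = 1 → (∀ i, 1 ≤ d i) → 1 ≤ C₁ → 1 ≤ C₂ →
    ∃ C₃ : ℝ, 1 ≤ C₃ ∧ ∀ U M : ℕ, ∃ z₀ : ℕ, ∀ (J z k : ℕ) (κ : ℝ) (D : NDat) (q : D.Ω → ℝ),
    z₀ ≤ z → D.Ok n K J z M (fun i => d i) κ C₁ q → k + 3 * U ≤ M → ∀ ω, 0 < q ω →
    D.JG d z (fun i => d i) C₂ M n ω →
    D.GB K d z C₁ C₂ (k + 3 * U) n (D.cs (k + 3 * U) ω) ∧
    ((∀ i, |D.thT K d z C₁ C₂ (k + U) (k + 3 * U) (D.cs (k + 3 * U) ω)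
        (D.pT (k + U) ω : Fin n → ℝ) i| ≤ Real.exp (C₃ * z) / 2 ^ (U * z)) ∧
      |D.pN d z (k + U) n ω - D.shN K d z C₁ C₂ (k + U) (k + 3 * U) (D.cs (k + 3 * U) ω)
        (D.pT (k + U) ω : Fin n → ℝ)| ≤ Real.exp (C₃ * z) / 2 ^ (U * z)) ∧
    ∀ y : Fin n → ℝ, (∀ i, |y i| ≤ 2) →
      (∀ i : Fin n, |D.thT K d z C₁ C₂ (k + U) (k + 3 * U) (D.cs (k + 3 * U) ω) y i -
        (2 : ℝ) ^ (d i * ((k + U) * z)) * eval (D.ab (k + U) (D.cs (k + 3 * U) ω) y)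
          (tinv (adp d (D.Rt ω)) i)| ≤ Real.exp (C₃ * z) / 2 ^ (U * z)) ∧
      |D.shN K d z C₁ C₂ (k + U) (k + 3 * U) (D.cs (k + 3 * U) ω) y -
        (2 : ℝ) ^ (d n * ((k + U) * z)) * eval (D.ab (k + U) (D.cs (k + 3 * U) ω) y)
          (X n - tinv (adp d (D.Rt ω)) n - D.P (k + U) (D.c (k + U) ω) n)| ≤
        Real.exp (C₃ * z) / 2 ^ (U * z)

/-- Row 116 TRP: transport. -/
def TrpStmt : Prop :=
  ∀ (n K : ℕ) (d : ℕ → ℕ) (C₁ C₅ : ℝ), d 0 = 1 → (∀ i, 1 ≤ d i) → 1 ≤ C₁ → 1 ≤ C₅ →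
    ∃ C₂' : ℝ, 1 ≤ C₂' ∧ ∀ C₂ : ℝ, C₂' ≤ C₂ → ∃ C₃ : ℝ, 1 ≤ C₃ ∧ ∀ U M : ℕ, 1 ≤ U → ∃ z₀ : ℕ,
    ∀ (J z k : ℕ) (κ : ℝ) (D : NDat) (q : D.Ω → ℝ), z₀ ≤ z →
    D.Ok n K J z M (fun i => d i) κ C₁ q → k + 3 * U ≤ M → ∀ ω ω', 0 < q ω → 0 < q ω' →
    D.wn J ((k + U) * z) ω = D.wn J ((k + U) * z) ω' →
    D.JG d z (fun i => d i) C₂ M n ω → D.JG d z (fun i => d i) C₂ M n ω' →
    D.LG d z C₅ n (D.ln ω) → ∀ y : Fin n → ℝ, (∀ i, |y i| ≤ 2) →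
    let s : ℝ := ((D.tm J z (k + 3 * U) ω' - D.tm J z (k + 3 * U) ω : ℤ) : ℝ) / 2 ^ (2 * U * z)
    let ξ := vfT d n (Real.exp ((C₂ + 1) * z)) (D.vf d z (U + 1) C₂ n ω)
    let b := vfN d n (Real.exp ((C₂ + 1) * z)) (D.vf d z (U + 1) C₂ n ω)
    let θ := D.thT K d z C₁ C₂ (k + U) (k + 3 * U) (D.cs (k + 3 * U) ω) y
    (∀ i, |D.thT K d z C₁ C₂ (k + U) (k + 3 * U) (D.cs (k + 3 * U) ω') y i -
      eval θ (flow (fun i : Fin n => d i) ξ (-s) i)| ≤ Real.exp (C₃ * z) / 2 ^ (U * z)) ∧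
    |D.shN K d z C₁ C₂ (k + U) (k + 3 * U) (D.cs (k + 3 * U) ω') y -
      D.shN K d z C₁ C₂ (k + U) (k + 3 * U) (D.cs (k + 3 * U) ω) y +
      eval θ (hfl (d n) ξ b (-s))| ≤ Real.exp (C₃ * z) / 2 ^ (U * z)

/-- Row 117 WCB (assembly of 111, 112, 114, 115, 116): the data of the weighted core, for the
coordinate `n`. `V` is any variable which determines the rounded vector fields. -/
def WcbStmt : Prop :=
  ∀ (n K : ℕ) (d : ℕ → ℕ) (C₁ : ℝ), 1 ≤ n → d 0 = 1 → (∀ i, 1 ≤ d i) → 1 ≤ C₁ →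
    ∃ C₂' : ℝ, 1 ≤ C₂' ∧ ∀ C₂ : ℝ, C₂' ≤ C₂ → ∃ C₃ : ℝ, 1 ≤ C₃ ∧ ∀ (U M : ℕ) (η : ℝ), 1 ≤ U →
    0 < η → ∃ κ₀ : ℝ, 0 < κ₀ ∧ ∃ z₀ : ℕ,
    ∀ (J z k : ℕ) (κ : ℝ) (D : NDat) (q : D.Ω → ℝ) (𝒱 : Type) (V : D.Ω → 𝒱)
      (f : 𝒱 → ℕ → PN), z₀ ≤ z → κ ≤ κ₀ → D.Ok n K J z M (fun i => d i) κ C₁ q →
      k + 3 * U ≤ M → (∀ ω, ∀ i ≤ n, f (V ω) i = D.vf d z (U + 1) C₂ n ω i) →
      CH q V (D.c (k + U)) - CH q V (D.c (k + 3 * U)) ≤ z →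
      Pb q (fun ω => ¬ D.GB K d z C₁ C₂ (k + 3 * U) n (D.cs (k + 3 * U) ω)) ≤ η ∧
      WC (fun i : Fin n => d i) (d n) (U * z) (2 * U * z) 2 (C₃ * z) η q
        (D.wn J ((k + U) * z)) (D.cs (k + 3 * U)) (D.cs (k + U)) V (D.tm J z (k + 3 * U))
        (D.pT (k + U)) (D.pN d z (k + U) n) (D.thT K d z C₁ C₂ (k + U) (k + 3 * U))
        (D.shN K d z C₁ C₂ (k + U) (k + 3 * U))
        (fun v _ => vfT d n (Real.exp ((C₂ + 1) * z)) (f v))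
        (fun v _ => vfN d n (Real.exp ((C₂ + 1) * z)) (f v))

/-- Row 118 NWL: the label of `LabStmt` is a new label of the system. -/
def NwlStmt : Prop :=
  ∀ (n K A : ℕ) (d : ℕ → ℕ) (C₁ C₂ C₃ κ₁ η' : ℝ), d 0 = 1 → (∀ i, 1 ≤ d i) → 1 ≤ C₁ →
    1 ≤ C₂ → 1 ≤ C₃ → 0 < κ₁ → κ₁ ≤ 1 → 0 < η' → ∃ K' : ℕ, ∃ U₁ : ℕ, ∀ (U M : ℕ), U₁ ≤ U →
    ∃ (C₆ : ℝ) (z₀ : ℕ), ∀ (J z k : ℕ) (κ : ℝ) (D : NDat) (q : D.Ω → ℝ), z₀ ≤ z →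
      D.Ok n K J z M (fun i => d i) κ C₁ q → k + 3 * U ≤ M →
      Pb q (fun ω => ¬ D.GB K d z C₁ C₂ (k + 3 * U) n (D.cs (k + 3 * U) ω)) ≤ η' / 8 →
      Pb q (fun ω => ¬ ((∀ i, |D.thT K d z C₁ C₂ (k + U) (k + 3 * U) (D.cs (k + 3 * U) ω)
        (D.pT (k + U) ω : Fin n → ℝ) i| ≤ Real.exp (C₃ * z) / 2 ^ (U * z)) ∧
        |D.pN d z (k + U) n ω - D.shN K d z C₁ C₂ (k + U) (k + 3 * U) (D.cs (k + 3 * U) ω)
          (D.pT (k + U) ω : Fin n → ℝ)| ≤ Real.exp (C₃ * z) / 2 ^ (U * z))) ≤ η' / 8 →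
      (∃ Hf : (ℕ → D.Γ) → Pl n,
        (∀ x, (Hf x).IsWeightedHomogeneous (fun i : Fin n => d i) (d n)) ∧
        (∀ x, CB (Hf x) (Real.exp (κ₁ * ((U * z : ℕ) : ℝ) / 4))) ∧
        η' ≤ P2 q (D.wn J ((k + U) * z)) (fun ω ω' => ∀ y : Fin n → ℝ, (∀ i, |y i| ≤ 2) →
          |D.shN K d z C₁ C₂ (k + U) (k + 3 * U) (D.cs (k + 3 * U) ω') y +
            eval (D.thT K d z C₁ C₂ (k + U) (k + 3 * U) (D.cs (k + 3 * U) ω') y)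
              (Hf (D.cs (k + 3 * U) ω')) -
            (D.shN K d z C₁ C₂ (k + U) (k + 3 * U) (D.cs (k + 3 * U) ω) y +
            eval (D.thT K d z C₁ C₂ (k + U) (k + 3 * U) (D.cs (k + 3 * U) ω) y)
              (Hf (D.cs (k + 3 * U) ω)))| ≤ Real.exp (-(κ₁ * ((U * z : ℕ) : ℝ) / 2)))) →
      D.NewLab J z n (k + U) (k + 3 * U) A K' C₆ (η' / 4) q

/-- Row 119 OKR: fewer coordinates. -/
def OkrStmt : Prop :=
  ∀ (n i K J z M : ℕ) (σ : ℕ → ℝ) (κ C₁ : ℝ) (D : NDat) (q : D.Ω → ℝ), i ≤ n → 1 ≤ z →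
    D.Ok n K J z M σ κ C₁ q → D.Ok i K J z M σ (κ + 2 * n / z) C₁ q

/-- Row 120 WTS: the height as the last coordinate of the base. -/
def WtsStmt : Prop :=
  ∀ (c N : ℕ) (d : ℕ → ℕ), (∀ i, 1 ≤ d i) → ∀ (S : ℝ) (f : Fin N → ℕ → PN), 0 ≤ S →
    (∀ a, ∀ i ≤ c, (f a i).vars ⊆ range i ∧ (f a i).IsWeightedHomogeneous d (d i - 1) ∧
      ∀ k, |(f a i).coeff k| ≤ S) → ∀ e : Fin (c + 1) → Fin N,
    minT (fun i : Fin (c + 1) => d i) (fun a => vfT d (c + 1) S (f a)) e =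
      minA (fun i : Fin c => d i) (d c) (fun a => vfT d c S (f a)) (fun a => vfN d c S (f a)) e

end Pool.STAT
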