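import Pool.Agent.H19.STAT.Sys2

/-!
# Own leaves in a cell

`LLV`: the base is full given the context at `(i, j)` and the labels at the point of finitely many
other pairs, for the coordinates whose labels are not deeper there.

`LLN`: the height of the target at `(i, j)` is almost independent of the labels at the point of
finitely many other pairs where the label of the target is not deeper (`lab`), and of the shape of
the own leaf at another pair (`shp`), given the base and the context.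

The own leaf at `(i', j')`: a base coordinate `l` is fat if `g i' j' l ≤ g i j l`, a coordinate
`l ≤ n` is thin if `g i j l < g i' j' l`. The own sheet is `b l = Ψ i' j' l (b)` for the thin
coordinates, over the fat ones. `kp` is its height over the line side at `(i, j)` in the natural
chart of the fat coordinates at `(i, j)`, at the exact time; `ss` are the digits of its
coefficients, up to constants and not deeper than its precision.
-/

set_option autoImplicit false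

namespace Pool.STAT

open Finset MvPolynomial
open Pool.Agent.H49.Ent Pool.Agent.H32.Dense Pool.STK Pool.KS3

namespace NDat2

/-! ### The base -/

/-- **The base is full** given the context and the labels at finitely many pairs, for the
coordinates which are not deeper there. -/
def LLV (D : NDat2) (n z M : ℕ) (κ : ℝ) (q : D.Ω → ℝ) : Prop :=
  ∀ i ≤ M, ∀ j ≤ M, ∀ U, i + U ≤ M → ∀ (Sm : Finset (Fin (n - 1))) (A : Finset (ℕ × ℕ)),
    (∀ t ∈ A, t.1 ≤ M ∧ t.2 ≤ M ∧ ∀ l ∈ Sm, D.g t.1 t.2 ((l : ℕ) + 1) ≤ D.g i j ((l : ℕ) + 1)) →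
    (#Sm : ℝ) * (U * z) * Real.log 2 - κ * z ≤
      CH q (fun ω (l : Sm) => D.vd n i j (U * z) ω l)
        (fun ω => ((fun t : A => D.s t.1.1 t.1.2 ω), (D.c i j ω, D.T ω)))

theorem LLV.mono {D : NDat2} {n z M : ℕ} {κ κ' : ℝ} {q : D.Ω → ℝ} (h : D.LLV n z M κ q)
    (hκ : κ ≤ κ') : D.LLV n z M κ' q := by
  intro i hi j hj U hU Sm A hA
  have hz0 : (0 : ℝ) ≤ z := Nat.cast_nonneg z
  have m1 : κ * (z : ℝ) ≤ κ' * z := mul_le_mul_of_nonneg_right hκ hz0
  have := h i hi j hj U hU Sm A hA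
  linarith

/-! ### The own leaf -/

/-- Fat base coordinates. -/
def fat (D : NDat2) (n i j i' j' l : ℕ) : Prop := 1 ≤ l ∧ l < n ∧ D.g i' j' l ≤ D.g i j l

/-- Thin coordinates. -/
def thn (D : NDat2) (n i j i' j' l : ℕ) : Prop := 1 ≤ l ∧ l ≤ n ∧ D.g i j l < D.g i' j' l

open Classical in
/-- The own sheet at `(i', j')` over the fat coordinates, line side at `(i, j)` for these. -/
noncomputable def mx (D : NDat2) (n i j i' j' : ℕ) (ω : D.Ω) (k : ℕ) : PN :=
  if D.thn n i j i' j' k then D.Ψ i' j' ω k else D.Φ i j ω k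

open Classical in
/-- The height of the own sheet over the line side at `(i, j)` in the natural chart of the fat
coordinates at `(i, j)`, at the exact time. -/
noncomputable def kp (D : NDat2) (n i j i' j' : ℕ) (ω : D.Ω) (l : ℕ) : PN :=
  bind₁ (fun k => if k = 0 then C ((2 : ℝ) ^ D.g i j 0 * D.rh i j ω 0) else
      if D.fat n i j i' j' k then MvPolynomial.X k else 0)
    (bind₁ (nuc (D.g i j) (D.mx n i j i' j' ω)) (D.Ψ i' j' ω l - D.Φ i j ω l))

open Classical in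
/-- The shape of the own sheet to `r` digits in natural units, not deeper than its precision. -/
noncomputable def ss (D : NDat2) (n i j i' j' r : ℕ) (ω : D.Ω) (l : ℕ) (al : ℕ →₀ ℕ) : ℤ :=
  if D.thn n i j i' j' l ∧ al ≠ 0 then
    ⌊(2 : ℝ) ^ min (D.g i j l + r) (D.g i' j' l) * coeff al (D.kp n i j i' j' ω l)⌋ else 0

/-! ### The target -/

/-- A pair inside the grid, by `u` steps. -/
def Inn (M u i j : ℕ) : Prop := u ≤ i ∧ i + u ≤ M ∧ u ≤ j ∧ j + u ≤ M

/-- Separated pairs: smaller radius and longer window or larger radius and shorter window. -/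
def Sep2 (u i j i' j' : ℕ) : Prop := i' + u ≤ i ∧ j + u ≤ j' ∨ i + u ≤ i' ∧ j' + u ≤ j

/-- **The height of the target is almost independent** of labels at the point where the target is
not deeper, and of the shape of own leaves, given the base and the context. -/
structure LLN (D : NDat2) (n z M R : ℕ) (κ : ℝ) (q : D.Ω → ℝ) : Prop where
  lab : ∀ i j U : ℕ, 1 ≤ U → Inn M (R * U) i j → ∀ A : Finset (ℕ × ℕ),
    (∀ t ∈ A, Inn M (R * U) t.1 t.2 ∧ D.g t.1 t.2 n ≤ D.g i j n) →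
    CH q (D.nd n i j (U * z)) (fun ω => (D.vd n i j (U * z) ω, (D.c i j ω, D.T ω))) ≤
      CH q (D.nd n i j (U * z)) (fun ω => ((fun t : A => D.s t.1.1 t.1.2 ω),
        (D.vd n i j (U * z) ω, (D.c i j ω, D.T ω)))) + κ * z
  shp : ∀ i j i' j' U : ℕ, 1 ≤ U → Inn M (R * U) i j → Inn M (R * U) i' j' →
    Sep2 (R * U) i j i' j' →
    CH q (D.nd n i j (U * z)) (fun ω => (D.vd n i j (U * z) ω, (D.c i j ω, D.T ω))) ≤
      CH q (D.nd n i j (U * z)) (fun ω => (D.ss n i j i' j' (U * z) ω,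
        (D.vd n i j (U * z) ω, (D.c i j ω, D.T ω)))) + κ * z

theorem Inn.mono {M u u' i j : ℕ} (h : Inn M u' i j) (hu : u ≤ u') : Inn M u i j := by
  unfold Inn at *
  omega

theorem Sep2.mono {u u' i j i' j' : ℕ} (h : Sep2 u' i j i' j') (hu : u ≤ u') :
    Sep2 u i j i' j' := by
  unfold Sep2 at *
  omega

theorem LLN.mono {D : NDat2} {n z M R R' : ℕ} {κ κ' : ℝ} {q : D.Ω → ℝ} (h : D.LLN n z M R κ q)
    (hR : R ≤ R') (hκ : κ ≤ κ') : D.LLN n z M R' κ' q := by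
  have hz0 : (0 : ℝ) ≤ z := Nat.cast_nonneg z
  have m1 : κ * (z : ℝ) ≤ κ' * z := mul_le_mul_of_nonneg_right hκ hz0
  refine ⟨?_, ?_⟩
  · intro i j U h1 hU A hA
    have hm := Nat.mul_le_mul_right U hR
    have := h.lab i j U h1 (hU.mono hm) A fun t ht => ⟨(hA t ht).1.mono hm, (hA t ht).2⟩
    linarith
  · intro i j i' j' U h1 hU hU' hS
    have hm := Nat.mul_le_mul_right U hR
    have := h.shp i j i' j' U h1 (hU.mono hm) (hU'.mono hm) (hS.mono hm)
    linarith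

end NDat2

/-! ### The local theorem with own leaves -/

/-- **MIC**, uniform time, with own leaves. -/
def MicWOf (Q : Cond2) : Prop :=
  ∀ (n K A B R : ℕ) (lam gam : ℕ → ℝ) (C₁ h : ℝ), 1 ≤ n → 1 ≤ B → (∀ l, 1 ≤ lam l) →
    (∀ l, 0 ≤ gam l) → 0 < gam n → 1 ≤ C₁ → 0 < h → h ≤ 1 → Q n lam gam →
    ∃ (M K' : ℕ) (η' κ ϖ : ℝ) (z₀ : ℕ), 0 < η' ∧ 0 < κ ∧ 0 < ϖ ∧
    ∀ (J a₀ w₀ z : ℕ) (D : NDat2) (q : D.Ω → ℝ), z₀ ≤ z →
      D.Ok2 n K J a₀ w₀ z M lam gam κ C₁ q → D.LLV n z M κ q → D.LLN n z M R κ q →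
      D.NF n z M B gam h C₁ ϖ q → D.TmU J w₀ z κ q → D.Concl2 n J a₀ w₀ z M A K' η' q

/-- **MIC**, live time, with own leaves. -/
def MicWLOf (Q : Cond2) : Prop :=
  ∀ (n K A B R : ℕ) (lam gam : ℕ → ℝ) (C₁ h : ℝ), 1 ≤ n → 1 ≤ B → (∀ l, 1 ≤ lam l) →
    (∀ l, 0 ≤ gam l) → 0 < gam n → 1 ≤ C₁ → 0 < h → h ≤ 1 → Q n lam gam →
    ∃ (εT ϖT : ℝ), 0 < εT ∧ 0 < ϖT ∧ ∀ k' : ℕ,
    ∃ (M K' : ℕ) (η' κ ϖ : ℝ) (z₀ : ℕ), 0 < η' ∧ 0 < κ ∧ 0 < ϖ ∧
    ∀ (J a₀ w₀ z : ℕ) (D : NDat2) (q : D.Ω → ℝ), z₀ ≤ z →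
      D.Ok2 n K J a₀ w₀ z M lam gam κ C₁ q → D.LLV n z M κ q → D.LLN n z M R κ q →
      D.NF n z M B gam h C₁ ϖ q → D.TmL J w₀ z M k' κ εT ϖT q →
      D.Concl2 n J a₀ w₀ z M A K' η' q

/-- The uniform form from the live form. -/
theorem micWOf_of_live {Q : Cond2} (h : MicWLOf Q) (ht : TmuStmt) : MicWOf Q := by
  intro n K A B R lam gam C₁ h₁ a0 a1 a2 a3 a4 a5 a6 a7 a8
  obtain ⟨εT, ϖT, e1, e2, H⟩ := h n K A B R lam gam C₁ h₁ a0 a1 a2 a3 a4 a5 a6 a7 a8
  obtain ⟨k', Hk⟩ := ht εT ϖT e1 e2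
  obtain ⟨M, K', η', κ, ϖ, z₀, b1, b2, b3, H2⟩ := H k'
  obtain ⟨κ', z₁, c1, H3⟩ := Hk M κ b2
  refine ⟨M, K', η', min κ κ', ϖ, max z₀ z₁, b1, lt_min b2 c1, b3, ?_⟩
  intro J a₀ w₀ z D q hz hO hV hL hN hT
  have hz0 : (0 : ℝ) ≤ z := Nat.cast_nonneg z
  have m2 : min κ κ' * (z : ℝ) ≤ κ' * z := mul_le_mul_of_nonneg_right (min_le_right _ _) hz0
  refine H2 J a₀ w₀ z D q ((le_max_left _ _).trans hz) (hO.mono_κ (min_le_left _ _))
    (hV.mono (min_le_left _ _)) (hL.mono le_rfl (min_le_left _ _)) hN ?_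
  refine H3 J a₀ w₀ z D q ((le_max_right _ _).trans hz) hO.isLaw hO.top hO.thin hO.T_lt
    hO.ln_w hO.c_wn hO.c_T ?_
  unfold NDat2.TmU at hT ⊢
  linarith

end Pool.STAT
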