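import Pool.Agent.H19.STAT.Sys

/-!
# Window-free tubes, layer 2: tools
-/

set_option autoImplicit false

namespace Pool.STAT

open Finset MvPolynomial

/-- All weights are at most `D`. -/
def WB (d : ℕ → ℕ) (D : ℕ) (F : PN) : Prop := ∀ k ∈ F.support, Finsupp.weight d k ≤ D

theorem eval_bind (w : ℕ → ℝ) (χ : ℕ → PN) (F : PN) :
    eval w (bind₁ χ F) = eval (fun i => eval w (χ i)) F := by
  have h := aeval_bind₁ (f := w) (g := χ) (φ := F)
  simpa [aeval_eq_eval] using h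

theorem eval_congr_vars {F : PN} {a b : ℕ → ℝ} (h : ∀ i ∈ F.vars, a i = b i) :
    eval a F = eval b F :=
  eval₂Hom_congr' rfl (fun i hi _ => h i hi) rfl

theorem bind_congr_vars {F : PN} {χ χ' : ℕ → PN} (h : ∀ i ∈ F.vars, χ i = χ' i) :
    bind₁ χ F = bind₁ χ' F :=
  eval₂Hom_congr' rfl (fun i hi _ => h i hi) rfl

theorem supp_of_vars {F : PN} {m : ℕ} (h : F.vars ⊆ range m) {k : ℕ →₀ ℕ} (hk : k ∈ F.support) :
    k.support ⊆ range m := by
  classical
  intro i hi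
  apply h
  rw [vars_eq_support_biUnion_support]
  exact Finset.mem_biUnion.2 ⟨k, hk, hi⟩

theorem const_of_vars {F : PN} (h : F.vars ⊆ range 0) : F = C (F.coeff 0) := by
  classical
  ext k
  rw [coeff_C]
  split_ifs with hk
  · rw [hk]
  · by_contra hc
    have h1 : k ∈ F.support := mem_support_iff.2 hc
    have h2 := supp_of_vars h h1
    rw [range_zero, subset_empty, Finsupp.support_eq_empty] at h2
    exact hk h2.symm

theorem weight_le_deg {d : ℕ → ℕ} {m : ℕ} {F : PN} (h : F.vars ⊆ range m) {k : ℕ →₀ ℕ}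
    (hk : k ∈ F.support) : Finsupp.weight d k ≤ F.totalDegree * ∑ i ∈ range m, d i := by
  rw [Finsupp.weight_apply, Finsupp.sum]
  have h1 : ∑ i ∈ k.support, k i ≤ F.totalDegree := le_totalDegree hk
  have h2 := supp_of_vars h hk
  calc ∑ i ∈ k.support, k i • d i ≤ ∑ i ∈ k.support, k i * ∑ l ∈ range m, d l := by
        refine Finset.sum_le_sum fun i hi => ?_
        rw [smul_eq_mul]
        exact Nat.mul_le_mul_left _ (Finset.single_le_sum (fun _ _ => Nat.zero_le _) (h2 hi))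
    _ = (∑ i ∈ k.support, k i) * ∑ l ∈ range m, d l := by rw [Finset.sum_mul]
    _ ≤ _ := Nat.mul_le_mul_right _ h1

theorem WB.of_deg {d : ℕ → ℕ} {m K : ℕ} {F : PN} (h : F.vars ⊆ range m) (hK : F.totalDegree ≤ K) :
    WB d (K * ∑ i ∈ range m, d i) F := fun _ hk =>
  (weight_le_deg h hk).trans (Nat.mul_le_mul_right _ hK)

theorem WB.mono {d : ℕ → ℕ} {D D' : ℕ} {F : PN} (h : WB d D F) (hD : D ≤ D') : WB d D' F :=
  fun k hk => (h k hk).trans hD

theorem coeff_trw (d : ℕ → ℕ) (r : ℕ) (F : PN) (k : ℕ →₀ ℕ) :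
    (trw d r F).coeff k = if Finsupp.weight d k < r then F.coeff k else 0 := by
  classical
  unfold trw
  rw [coeff_sum]
  simp only [coeff_weightedHomogeneousComponent]
  rw [Finset.sum_ite_eq]
  simp only [mem_range]

theorem coeff_gew (d : ℕ → ℕ) (r : ℕ) (F : PN) (k : ℕ →₀ ℕ) :
    (gew d r F).coeff k = if Finsupp.weight d k < r then 0 else F.coeff k := by
  unfold gew
  rw [coeff_sub, coeff_trw]
  split_ifs
  · exact sub_self _
  · exact sub_zero _

theorem trw_vars {d : ℕ → ℕ} {r m : ℕ} {F : PN} (h : F.vars ⊆ range m) :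
    (trw d r F).vars ⊆ range m := by
  classical
  intro i hi
  rw [vars_eq_support_biUnion_support, Finset.mem_biUnion] at hi
  obtain ⟨k, hk, hik⟩ := hi
  refine supp_of_vars h (k := k) ?_ hik
  rw [mem_support_iff, coeff_trw] at hk
  rw [mem_support_iff]
  intro h0
  rw [h0, ite_self] at hk
  exact hk rfl

theorem gew_vars {d : ℕ → ℕ} {r m : ℕ} {F : PN} (h : F.vars ⊆ range m) :
    (gew d r F).vars ⊆ range m := by
  classical
  intro i hi
  rw [vars_eq_support_biUnion_support, Finset.mem_biUnion] at hi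
  obtain ⟨k, hk, hik⟩ := hi
  refine supp_of_vars h (k := k) ?_ hik
  rw [mem_support_iff, coeff_gew] at hk
  rw [mem_support_iff]
  intro h0
  rw [h0, ite_self] at hk
  exact hk rfl

theorem WB.gew {d : ℕ → ℕ} {D r : ℕ} {F : PN} (h : WB d D F) : WB d D (gew d r F) := by
  intro k hk
  apply h
  rw [mem_support_iff, coeff_gew] at hk
  rw [mem_support_iff]
  intro h0
  rw [h0, ite_self] at hk
  exact hk rfl

theorem vars_bind_le {χ : ℕ → PN} {F : PN} {m : ℕ} (hF : F.vars ⊆ range m)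
    (hχ : ∀ i < m, (χ i).vars ⊆ range (i + 1)) : (bind₁ χ F).vars ⊆ range m := by
  classical
  intro j hj
  obtain ⟨i, hi, hji⟩ := mem_vars_bind₁ _ _ hj
  have h1 := mem_range.1 (hF hi)
  have h2 := mem_range.1 (hχ i h1 hji)
  exact mem_range.2 (by omega)

theorem deg_bind_le {χ : ℕ → PN} {F : PN} {m K K' : ℕ} (hF : F.vars ⊆ range m)
    (hK : F.totalDegree ≤ K) (hχ : ∀ i < m, (χ i).totalDegree ≤ K') :
    (bind₁ χ F).totalDegree ≤ K * K' := by
  classical
  rw [F.as_sum, map_sum]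
  refine (totalDegree_finset_sum _ _).trans (Finset.sup_le fun k hk => ?_)
  rw [bind₁_monomial]
  have h1 := supp_of_vars hF hk
  have h2 : ∑ i ∈ k.support, k i ≤ K := (le_totalDegree hk).trans hK
  calc (C (F.coeff k) * ∏ i ∈ k.support, χ i ^ k i).totalDegree
      ≤ (C (F.coeff k) : PN).totalDegree + (∏ i ∈ k.support, χ i ^ k i).totalDegree :=
        totalDegree_mul _ _
    _ ≤ 0 + ∑ i ∈ k.support, (χ i ^ k i).totalDegree := by
        rw [totalDegree_C]
        exact Nat.add_le_add_left (totalDegree_finsetProd _ _) _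
    _ ≤ ∑ i ∈ k.support, k i * K' := by
        rw [zero_add]
        refine Finset.sum_le_sum fun i hi => (totalDegree_pow _ _).trans ?_
        exact Nat.mul_le_mul_left _ (hχ i (mem_range.1 (h1 hi)))
    _ = (∑ i ∈ k.support, k i) * K' := by rw [Finset.sum_mul]
    _ ≤ K * K' := Nat.mul_le_mul_right _ h2

/-- The norm at a larger scale. -/
theorem nrm_scale {d : ℕ → ℕ} {D : ℕ} {ρ A : ℝ} (hρ : 0 ≤ ρ) (hA : 1 ≤ A) {F : PN}
    (h : WB d D F) : nrm d (A * ρ) F ≤ A ^ D * nrm d ρ F := by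
  unfold nrm
  rw [Finset.mul_sum]
  refine Finset.sum_le_sum fun k hk => ?_
  rw [mul_pow]
  have h1 : A ^ Finsupp.weight d k ≤ A ^ D := pow_le_pow_right₀ hA (h k hk)
  have h2 : 0 ≤ |F.coeff k| * ρ ^ Finsupp.weight d k := by positivity
  calc |F.coeff k| * (A ^ Finsupp.weight d k * ρ ^ Finsupp.weight d k)
      = A ^ Finsupp.weight d k * (|F.coeff k| * ρ ^ Finsupp.weight d k) := by ring
    _ ≤ _ := mul_le_mul_of_nonneg_right h1 h2

theorem nrm_nonneg {d : ℕ → ℕ} {ρ : ℝ} (hρ : 0 ≤ ρ) (F : PN) : 0 ≤ nrm d ρ F :=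
  Finset.sum_nonneg fun _ _ => by positivity

/-- The value in terms of the norm. -/
theorem eval_le_nrm {d : ℕ → ℕ} {ρ : ℝ} (hρ : 0 ≤ ρ) {w : ℕ → ℝ} {F : PN}
    (h : ∀ i ∈ F.vars, |w i| ≤ ρ ^ d i) : |eval w F| ≤ nrm d ρ F := by
  classical
  rw [eval_eq, nrm]
  refine (Finset.abs_sum_le_sum_abs _ _).trans (Finset.sum_le_sum fun k hk => ?_)
  rw [abs_mul]
  refine mul_le_mul_of_nonneg_left ?_ (abs_nonneg _)
  rw [Finset.abs_prod, Finsupp.weight_apply, Finsupp.sum, ← Finset.prod_pow_eq_pow_sum]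
  refine Finset.prod_le_prod (fun _ _ => abs_nonneg _) fun i hi => ?_
  have hi' : i ∈ F.vars := by
    rw [vars_eq_support_biUnion_support]
    exact Finset.mem_biUnion.2 ⟨k, hk, hi⟩
  rw [abs_pow, smul_eq_mul, mul_comm (k i), pow_mul]
  exact pow_le_pow_left₀ (abs_nonneg _) (h i hi') _

/-- Bounds for the solution of a triangular system of equations. -/
theorem tri_bound {d : ℕ → ℕ} (hd : ∀ i, 1 ≤ d i) {D m : ℕ} {ρ A : ℝ} (hρ : 0 ≤ ρ) (hA : 1 ≤ A)
    (w Y : ℕ → ℝ) (δ : ℕ → PN) (h : ∀ i < m, |w i| ≤ |Y i| + |eval w (δ i)|)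
    (hv : ∀ i < m, (δ i).vars ⊆ range i) (hw : ∀ i < m, WB d D (δ i))
    (hn : ∀ i < m, nrm d ρ (δ i) ≤ A * ρ ^ d i) (hY : ∀ i < m, |Y i| ≤ A * ρ ^ d i) :
    ∀ i < m, |w i| ≤ (2 * A) ^ ((D + 2) ^ (i + 1)) * ρ ^ d i := by
  intro i
  induction i using Nat.strong_induction_on with
  | _ i ih =>
    intro hi
    set B : ℝ := (2 * A) ^ ((D + 2) ^ i) with hB
    have h2A : (1 : ℝ) ≤ 2 * A := by linarith
    have hB1 : (1 : ℝ) ≤ B := one_le_pow₀ h2A
    have h1 : ∀ j ∈ (δ i).vars, |w j| ≤ (B * ρ) ^ d j := by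
      intro j hj
      have hji := mem_range.1 (hv i hi hj)
      have hρj : (0 : ℝ) ≤ ρ ^ d j := by positivity
      refine (ih j hji (hji.trans hi)).trans ?_
      rw [mul_pow B ρ]
      refine mul_le_mul_of_nonneg_right ?_ hρj
      calc (2 * A) ^ ((D + 2) ^ (j + 1)) ≤ B :=
            pow_le_pow_right₀ h2A (Nat.pow_le_pow_right (by omega) (by omega))
        _ = B ^ 1 := (pow_one _).symm
        _ ≤ B ^ d j := pow_le_pow_right₀ hB1 (hd j)
    have h3 : |eval w (δ i)| ≤ B ^ D * (A * ρ ^ d i) := by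
      refine (eval_le_nrm (by positivity) h1).trans ((nrm_scale hρ hB1 (hw i hi)).trans ?_)
      exact mul_le_mul_of_nonneg_left (hn i hi) (by positivity)
    have h4 : 1 ≤ B ^ D := one_le_pow₀ hB1
    have h5 : A * (1 + B ^ D) ≤ (2 * A) ^ ((D + 2) ^ (i + 1)) := by
      have h6 : A * (1 + B ^ D) ≤ (2 * A) ^ (1 + (D + 2) ^ i * D) := by
        rw [pow_add, pow_one, pow_mul, ← hB]
        nlinarith
      refine h6.trans (pow_le_pow_right₀ h2A ?_)
      have h7 : 1 ≤ (D + 2) ^ i := Nat.one_le_pow _ _ (by omega)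
      rw [pow_succ]
      nlinarith
    calc |w i| ≤ |Y i| + |eval w (δ i)| := h i hi
      _ ≤ A * ρ ^ d i + B ^ D * (A * ρ ^ d i) := add_le_add (hY i hi) h3
      _ = A * (1 + B ^ D) * ρ ^ d i := by ring
      _ ≤ _ := mul_le_mul_of_nonneg_right h5 (by positivity)

end Pool.STAT
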